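import Pool.Agent.P.MP_613544_nt.Main

/-!
Parallelograms with a pair of sides parallel to an axis.
-/

set_option autoImplicit false

noncomputable section

namespace Pool.Agent.P.MP_613544_nt

variable {ν : Seminorm ℝ (ℝ × ℝ)} {r c C : ℝ}

theorem Crit.hex (h : Crit ν r c C) : ∃ P Q, det P Q = 1 ∧ Hx ν r P Q := by
  by_contra z
  have ct := h.cont
  have hR : r + 1 ≤ c * ((r + 1) / c) := (mul_div_cancel₀ _ h.hc.ne').ge
  obtain ⟨κ, κ0, H⟩ := ((isCompact_closedBall (0 : (ℝ × ℝ) × ℝ × ℝ) ((r + 1) / c)).inter_right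
    (t := {z | det z.1 z.2 = 1}) (isClosed_eq (by unfold det; fun_prop)
      continuous_const)).exists_forall_le' (a := 0) (f := fun z => df ν r z.1 z.2)
    (by unfold df; fun_prop) fun w hw => not_le.1 fun g => z ⟨_, _, hw.2, hx_of_df g⟩
  obtain ⟨ε, ε0, H'⟩ := h.near (lt_min (half_pos κ0) one_pos)
  obtain ⟨e, f, hd, a⟩ := h.sharp (r - ε) (by linarith)
  obtain ⟨m₁, n₁, m₂, n₂, u, b⟩ := H' e f hd a
  obtain ⟨b1, b2, -⟩ := df_le (b.trans (min_le_right _ _))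
  have := H (cmb e f m₁ n₁, cmb e f m₂ n₂) ⟨mem_closedBall_zero_iff.2 (max_le
    (h.nrm hR (by linarith [(abs_le.1 b1).2])) (h.nrm hR (by linarith [(abs_le.1 b2).2]))), by
    simp [det_cmb, u, hd]⟩
  linarith [min_le_left (κ / 2) 1]

theorem sq_core {u₁ u₂ v₁ v₂ : ℝ} (hr : 0 < r) (h1 : |u₁| = r) (h2 : |v₁| = r)
    (h3 : max |u₁ - v₁| |u₂ - v₂| = r) : |u₁ * v₂ - u₂ * v₁| = r ^ 2 := by
  rcases abs_eq_abs.1 (h1.trans h2.symm) with rfl | rfl
  · rw [sub_self, abs_zero, max_eq_right (abs_nonneg _)] at h3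
    rw [show u₁ * v₂ - u₂ * u₁ = -(u₁ * (u₂ - v₂)) by ring, abs_neg, abs_mul, h1, h3, sq]
  · have := le_max_left |-v₁ - v₁| |u₂ - v₂|
    rw [h3, show -v₁ - v₁ = -2 * v₁ by ring, abs_mul, h2] at this
    norm_num at this
    linarith

theorem sq_hex {p₁ p₂ q₁ q₂ : ℝ} (hr : 0 < r) (h1 : max |p₁| |p₂| = r) (h2 : max |q₁| |q₂| = r)
    (h3 : max |q₁ - p₁| |q₂ - p₂| = r) : |p₁ * q₂ - p₂ * q₁| = r ^ 2 := by
  have k : ∀ {p₁ p₂ q₁ q₂ : ℝ}, max |p₁| |p₂| = r → max |q₁| |q₂| = r →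
      max |q₁ - p₁| |q₂ - p₂| = r → |q₁ - p₁| = r → |p₁ * q₂ - p₂ * q₁| = r ^ 2 := by
    intro p₁ p₂ q₁ q₂ h1 h2 h3 a
    rcases max_eq_iff.1 h1 with b | b
    · rw [← sq_core hr a (abs_neg p₁ ▸ b.1) (u₂ := q₂ - p₂) (v₂ := -p₂) (by simpa using h2)]
      congr 1; ring
    rcases max_eq_iff.1 h2 with d | d
    · rw [← sq_core hr d.1 a (u₂ := q₂) (v₂ := q₂ - p₂) (by simpa using h1)]
      congr 1; ring
    · rw [← sq_core hr d.1 b.1 ((max_comm _ _).trans h3)]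
      congr 1; ring
  rcases max_eq_iff.1 h3 with a | a
  · exact k h1 h2 h3 a.1
  · rw [← k ((max_comm _ _).trans h1) ((max_comm _ _).trans h2) ((max_comm _ _).trans h3) a.1, abs_sub_comm]

theorem Crit.area (h : Crit ν r c C) {a a' b b' : ℝ}
    (hν : ∀ v : ℝ × ℝ, ν v = max |a * v.1 + a' * v.2| |b * v.1 + b' * v.2|) :
    |a * b' - a' * b| = r ^ 2 := by
  obtain ⟨P, Q, hd, h1, h2, h3⟩ := h.hex
  rw [hν] at h1 h2 h3
  rw [← sq_hex h.hr h1 h2 (by rw [← h3]; congr 2 <;> simp <;> ring)]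
  unfold det at hd
  congr 1
  linear_combination (a' * b - a * b') * hd

theorem lowb {a b c σ δ R e₁ e₂ v₁ v₂ : ℝ} (σ0 : 0 < σ) (h1 : |b| * σ = r) (h2 : r * σ = |a|)
    (e1 : |e₁| = σ) (e2 : |e₂| ≤ δ) (hv : |v₁| ≤ R)
    (h : 1 ≤ |e₁ * v₂ - e₂ * v₁| ∨ ∃ m : ℝ, 1 ≤ |m| ∧ v₁ = m * e₁ ∧ v₂ = m * e₂) :
    r - (|r * R| + |c|) * δ ≤ max |a * v₂| |b * v₁ + c * v₂| := by
  have δ0 := (abs_nonneg _).trans e2
  have r0 : 0 ≤ r := h1 ▸ mul_nonneg (abs_nonneg _) σ0.le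
  rcases h with h | ⟨m, m1, rfl, rfl⟩
  · refine le_max_of_le_left ?_
    have a1 := h.trans (abs_sub _ _)
    rw [abs_mul, abs_mul, e1] at a1
    have a2 : |e₂| * |v₁| ≤ δ * R := mul_le_mul e2 hv (abs_nonneg _) δ0
    rw [abs_mul a, ← h2]
    nlinarith [mul_le_mul_of_nonneg_right (le_abs_self (r * R)) δ0, mul_nonneg (abs_nonneg c) δ0]
  · refine le_max_of_le_right ?_
    have a1 := abs_add_le (b * e₁ + c * e₂) (-(c * e₂))
    rw [add_neg_cancel_right, abs_neg, abs_mul, abs_mul, e1, h1] at a1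
    rw [show b * (m * e₁) + c * (m * e₂) = m * (b * e₁ + c * e₂) by ring, abs_mul m]
    nlinarith [mul_le_mul_of_nonneg_left e2 (abs_nonneg c), mul_nonneg (abs_nonneg (r * R)) δ0,
      abs_nonneg (b * e₁ + c * e₂)]

theorem approx {x : ℝ} (hx : Irrational x) (hb : x ∉ BA) (Q : ℕ) : ∀ κ : ℝ, 0 < κ →
    ∃ P q : ℤ, IsCoprime P q ∧ Q < q ∧ |q * x - P| * q < κ := by
  induction Q with
  | zero =>
    intro κ κ0
    simp only [BA, Set.mem_ofPred_eq] at hb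
    push Not at hb
    obtain ⟨p, q, q0, h⟩ := hb κ κ0
    have hg : 0 < Int.gcd p q := Int.gcd_pos_of_ne_zero_right _ q0
    obtain ⟨p', q', hc, e1, e2⟩ := Int.exists_gcd_one hg
    have g1 : (1 : ℝ) ≤ ((Int.gcd p q : ℤ) : ℝ) := by exact_mod_cast hg
    generalize (Int.gcd p q : ℤ) = g at e1 e2 g1
    subst e1 e2
    have a : |q' * x - p'| * |(q' : ℝ)| < κ := by
      push_cast at h
      rw [show q' * g * x - p' * g = (q' * x - p') * g by ring, abs_mul, abs_mul,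
        abs_of_pos (by linarith : (0 : ℝ) < g)] at h
      nlinarith [mul_le_mul_of_nonneg_left (show (1 : ℝ) ≤ g * g by nlinarith)
        (mul_nonneg (abs_nonneg (q' * x - p')) (abs_nonneg (q' : ℝ)))]
    have hc' := Int.isCoprime_iff_gcd_eq_one.2 hc
    rcases lt_or_gt_of_ne (left_ne_zero_of_mul q0) with z | z
    · refine ⟨-p', -q', hc'.neg_neg, by omega, ?_⟩
      rw [abs_of_neg (by exact_mod_cast z : (q' : ℝ) < 0), ← abs_neg] at a
      convert a using 3 <;> push_cast <;> ring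
    · exact ⟨p', q', hc', z, by rwa [abs_of_pos (by exact_mod_cast z : (0 : ℝ) < q')] at a⟩
  | succ Q ih =>
    intro κ κ0
    have a := abs_pos.2 (sub_ne_zero.2 ((hx.intCast_mul (m := (Q + 1 : ℕ)) (by omega)).ne_int
      (round (((Q + 1 : ℕ) : ℤ) * x))))
    obtain ⟨P, q, a1, a2, a3⟩ := ih _ (lt_min κ0 a)
    refine ⟨P, q, a1, lt_of_le_of_ne (by omega) ?_, a3.trans_le (min_le_left _ _)⟩
    rintro rfl
    have := (a3.trans_le (min_le_right _ _)).trans_le (round_le _ P)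
    have b : (1 : ℝ) ≤ ((Q + 1 : ℕ) : ℤ) := by exact_mod_cast (by omega : 1 ≤ Q + 1)
    nlinarith [abs_nonneg ((((Q + 1 : ℕ) : ℤ) : ℝ) * x - P)]

theorem dich {τ : ℝ} (τ0 : τ ≠ 0) (x : ℝ) {P q p₁ q₁ : ℤ} (hc : IsCoprime P q)
    (h0 : (p₁, q₁) ≠ (0, 0)) : 1 ≤ |det (vec τ x (-P) q) (vec τ x p₁ q₁)| ∨
      ∃ m : ℝ, 1 ≤ |m| ∧ vec τ x p₁ q₁ = m • vec τ x (-P) q := by
  by_cases z : -P * q₁ - q * p₁ = 0
  · obtain ⟨u, w, huw⟩ := hc
    obtain ⟨m, rfl, rfl⟩ : ∃ m, p₁ = m * -P ∧ q₁ = m * q := ⟨w * q₁ - u * p₁,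
      by linear_combination -p₁ * huw - w * z, by linear_combination -q₁ * huw - u * z⟩
    refine Or.inr ⟨m, one_le_abs fun y => h0 (by simp [y]), ?_⟩
    ext <;> simp [vec] <;> ring
  · left
    rw [← cmb_vec, ← cmb_vec, det_cmb, det_base τ0, mul_one]
    exact one_le_abs z

theorem conv (h : Crit ν (critRad ν) c C) (hA : AxisPar ν) {x : ℝ} (hx : x ∈ DI ν) :
    x ∈ BA ∨ ¬ Irrational x := by
  by_contra z
  push Not at z
  obtain ⟨hb, hi⟩ := z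
  have hr := h.hr
  obtain ⟨l, l0, l1, T, T0, hT⟩ : ∃ l : ℝ, 0 < l ∧ l < 1 ∧ ∃ T : ℝ, 0 < T ∧ ∀ τ, T ≤ τ →
      ∃ p q : ℤ, (p, q) ≠ (0, 0) ∧ ν (vec τ x p q) ≤ l * critRad ν := by
    obtain ⟨c, c0, c1, T, hT⟩ := hx
    have l0 := Real.sqrt_pos.2 c0
    refine ⟨√c, l0, (Real.sqrt_lt' one_pos).2 (by linarith), max T 1 / √c, by positivity,
      fun τ g => ?_⟩
    rw [div_le_iff₀ l0, max_le_iff] at g
    obtain ⟨p, q, h0, a⟩ := hT _ g.1
    have := vec_smul (ν := ν) l0 (t := τ * √c) (by linarith [g.2]) x p q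
    rw [mul_div_cancel_right₀ _ l0.ne', Real.sq_sqrt c0.le] at this
    exact ⟨p, q, h0, this ▸ mul_le_mul_of_nonneg_left a l0.le⟩
  generalize critRad ν = r at *
  have hR : r + 1 ≤ c * ((r + 1) / c) := (mul_div_cancel₀ _ h.hc.ne').ge
  generalize (r + 1) / c = R at hR
  obtain ⟨a, b, d, hν⟩ := hA
  have ab : |a| * |b| = r ^ 2 := by
    rcases hν with hν | hν
    · simpa [abs_mul] using h.area (a := 0) (a' := a) (b := b) (b' := d) (by simpa using hν)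
    · simpa [abs_mul] using h.area (a := a) (a' := 0) (b := d) (b' := b)
        (by simpa [add_comm] using hν)
  have b0 : 0 < |b| := abs_pos.2 fun y => by simp [y, eq_comm, hr.ne'] at ab
  obtain ⟨σ, σ0, σ1⟩ : ∃ σ : ℝ, 0 < σ ∧ |b| * σ = r := ⟨r / |b|, by positivity, by field_simp⟩
  have σ2 : r * σ = |a| := mul_left_cancel₀ b0.ne' (by linear_combination r * σ1 - ab)
  obtain ⟨δ, δ0, δ1, δ2⟩ : ∃ δ : ℝ, 0 < δ ∧ δ ≤ 1 / T ∧ δ ≤ (1 - l) * r / (|r * R| + |d| + 1) :=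
    ⟨min (1 / T) ((1 - l) * r / (|r * R| + |d| + 1)), lt_min (by positivity)
      (div_pos (mul_pos (by linarith) hr) (by positivity)), min_le_left _ _, min_le_right _ _⟩
  rw [le_div_iff₀ (by positivity)] at δ1 δ2
  obtain ⟨Q, hQ⟩ := exists_nat_ge (T * σ)
  obtain ⟨P, q, hc, q1, q2⟩ := approx hi hb Q (δ * σ) (by positivity)
  have q0 : (1 : ℝ) ≤ q := by exact_mod_cast (by omega : 1 ≤ q)
  have q3 : (Q : ℝ) < q := by exact_mod_cast q1
  have θ0 := abs_pos.2 (sub_ne_zero.2 ((hi.intCast_mul (m := q) (by omega)).ne_int P))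
  rcases hν with hν | hν
  · have τ0 : 0 < σ / |q * x - P| := by positivity
    obtain ⟨p₁, q₁, h0, g⟩ := hT (σ / |q * x - P|) (by rw [le_div_iff₀ θ0]; nlinarith)
    have := lowb (c := d) (δ := δ) (e₁ := (vec (σ / |q * x - P|) x (-P) q).1)
      (e₂ := (vec (σ / |q * x - P|) x (-P) q).2) σ0 σ1 σ2 (by
        simp only [vec, Int.cast_neg, neg_add_eq_sub, abs_mul, abs_of_pos τ0]
        field_simp) (by
        simp only [vec]
        rw [abs_of_pos (by positivity), div_div_eq_mul_div, div_le_iff₀ σ0]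
        linarith) ((norm_fst_le (vec (σ / |q * x - P|) x p₁ q₁)).trans (h.nrm hR (by nlinarith)))
      ((dich τ0.ne' x hc h0).imp_right fun ⟨m, m1, m2⟩ => ⟨m, m1, Prod.ext_iff.1 m2⟩)
    rw [← hν] at this
    linarith
  · have τ0 : 0 < q / σ := by positivity
    obtain ⟨p₁, q₁, h0, g⟩ := hT (q / σ) (by rw [le_div_iff₀ σ0]; linarith)
    have := lowb (c := d) (δ := δ) (e₁ := (vec (q / σ) x (-P) q).2)
      (e₂ := (vec (q / σ) x (-P) q).1) σ0 σ1 σ2 (by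
        simp only [vec]
        rw [abs_of_pos (by positivity)]
        field_simp) (by
        simp only [vec, Int.cast_neg, neg_add_eq_sub, abs_mul, abs_of_pos τ0]
        rw [div_mul_eq_mul_div, div_le_iff₀ σ0]
        linarith) ((norm_snd_le (vec (q / σ) x p₁ q₁)).trans (h.nrm hR (by nlinarith)))
      ((dich τ0.ne' x hc h0).imp (fun m => by rwa [abs_sub_comm, mul_comm, mul_comm _ (_ : ℝ × ℝ).1])
        fun ⟨m, m1, m2⟩ => ⟨m, m1, (Prod.ext_iff.1 m2).symm⟩)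
    rw [← hν] at this
    linarith

theorem wa_disjoint {τ x : ℝ} (hτ : 2 < τ) (h : x ∈ WA τ) : x ∉ BA := by
  rintro ⟨κ, κ0, hκ⟩
  obtain ⟨Q, hQ⟩ := Filter.eventually_atTop.1 (((tendsto_rpow_neg_atTop (sub_pos.2 hτ)).comp
    tendsto_intCast_atTop_atTop).eventually (gt_mem_nhds κ0))
  obtain ⟨p, q, q1, a⟩ := h (max Q 0)
  have q0 : (0 : ℝ) < q := by exact_mod_cast (le_max_right _ _).trans_lt q1
  have b := hκ p q (by exact_mod_cast q0.ne')
  have c := hQ q ((le_max_left _ _).trans q1.le)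
  rw [Function.comp, neg_sub, sub_eq_add_neg, Real.rpow_add q0, Real.rpow_two] at c
  rw [show q * x - p = q * (x - p / q) by field_simp, abs_mul, abs_of_pos q0] at b
  nlinarith [mul_lt_mul_of_pos_left a (pow_pos q0 2)]

end Pool.Agent.P.MP_613544_nt
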