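import Pool.Agent.P.MP_613544_nt.St
import Pool.Agent.P.MP_613544_nt.E.Cantor

/-! The Cantor scheme with excursions towards rationals. -/

namespace Pool.Agent.P.MP_613544_nt

open Set Filter Topology
open scoped NNReal ENNReal

namespace DimP

variable {T a τ : ℝ} {b M C : ℕ} {S : ℕ → ℝ → Prop}

theorem tm_pos (hb : 2 ≤ b) (hT : 1 ≤ T) (k : ℕ) : 0 < tm T b k := by
  have : 0 < b := by omega
  simp only [tm]
  positivity

theorem rd_pos (hb : 2 ≤ b) (hT : 1 ≤ T) (k : ℕ) : 0 < rd T b k := by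
  have := tm_pos hb hT k
  simp only [rd]
  positivity

theorem rd_succ (hb : 2 ≤ b) (hT : 1 ≤ T) (k : ℕ) : rd T b k = b ^ 2 * rd T b (k + 1) := by
  have : (0 : ℝ) < b := by positivity
  have : 0 < T := by linarith
  simp only [rd, tm]
  field_simp
  ring

theorem rd_two (hb : 2 ≤ b) (hT : 1 ≤ T) (k : ℕ) : 2 * rd T b (k + 1) ≤ rd T b k := by
  have := rd_pos hb hT (k + 1)
  have h : (2 : ℝ) ≤ b := by exact_mod_cast hb
  rw [rd_succ hb hT k]
  gcongr
  nlinarith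

theorem lt_tm (hb : 2 ≤ b) (hT : 1 ≤ T) (k : ℕ) : (k : ℝ) < tm T b k := by
  have h : (k : ℝ) < (b : ℝ) ^ k := by exact_mod_cast Nat.lt_pow_self hb
  simp only [tm]
  nlinarith [Nat.cast_nonneg (α := ℝ) k]

theorem free (hb : 2 ≤ b) (hT : 1 ≤ T) (hM : M + 2 ≤ b ^ 2) (k : ℕ) (x : ℝ) :
    ∃ c : Fin M → ℝ, (∀ i j, i ≠ j → 2 * rd T b (k + 1) ≤ |c i - c j|) ∧
      ∀ i, |c i - x| + 2 * rd T b (k + 1) ≤ rd T b k := by
  have p := rd_pos hb hT (k + 1)
  refine ⟨fun i => x - rd T b k + 2 * rd T b (k + 1) * ((i : ℕ) + 1), fun i j n => ?_, fun i => ?_⟩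
  · have h : (1 : ℝ) ≤ |((i : ℕ) : ℝ) - (j : ℕ)| := by
      have : ((i : ℕ) : ℤ) - (j : ℕ) ≠ 0 := fun z => n (Fin.ext (by omega))
      exact_mod_cast Int.one_le_abs this
    rw [add_sub_add_left_eq_sub, ← mul_sub, add_sub_add_right_eq_sub, abs_mul,
      abs_of_pos (by positivity : 0 < 2 * rd T b (k + 1))]
    nlinarith
  · have h1 : ((i : ℕ) : ℝ) + 3 ≤ (b : ℝ) ^ 2 := by
      have := i.2
      exact_mod_cast (by omega : (i : ℕ) + 3 ≤ b ^ 2)
    have h2 := rd_succ hb hT k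
    have h3 : (0 : ℝ) ≤ (i : ℕ) := by positivity
    rw [← le_sub_iff_add_le, abs_le]
    constructor <;> nlinarith

/-- Every point of the cell is an entry point of the level `e`. -/
def Win (T : ℝ) (b C : ℕ) (S : ℕ → ℝ → Prop) (e k : ℕ) (x : ℝ) : Prop :=
  ∀ y, |y - x| ≤ rd T b k → ∃ x', |x' - y| + rd T b e ≤ rd T b (e - C) ∧ S e x'

theorem Win.sub {e k k' : ℕ} {x x' : ℝ} (h : Win T b C S e k x)
    (c : |x' - x| + rd T b k' ≤ rd T b k) : Win T b C S e k' x' := fun y hy =>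
  h y (by linarith [abs_sub_le y x' x])

theorem jump (hb : 2 ≤ b) (hT : 1 ≤ T) (ha : 0 < a) (hτ : 2 < τ)
    (h : ∀ k x, S k x → ∃ p q : ℤ, tm T b k ≤ q ∧ (q : ℝ) ≤ tm T b (k + C) ∧
      |(p : ℝ) / q - x| + 2 * rd T b (k + 1) ≤ rd T b k ∧
      ∀ (k' : ℕ) (y : ℝ), k + 2 * C ≤ k' → a / tm T b k' ≤ q * y - p →
        q * y - p ≤ 2 * a / tm T b k' →
        ∃ x', |x' - y| + rd T b k' ≤ rd T b (k' - C) ∧ S k' x') :
    ∃ K : ℕ, ∀ k x, S k x → ∃ (k₁ e : ℕ) (x₁ : ℝ), k ≤ k₁ ∧ (k₁ : ℝ) ≤ τ / 2 * k + K ∧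
      k₁ + C + 2 ≤ e ∧ |x₁ - x| + rd T b k₁ + rd T b (k + 1) ≤ rd T b k ∧ Win T b C S e k₁ x₁ ∧
      ∃ p q : ℤ, tm T b k ≤ q ∧ ∀ z, |z - x₁| ≤ rd T b k₁ → |z - p / q| < (q : ℝ) ^ (-τ) := by
  have b1 : (1 : ℝ) < b := by exact_mod_cast hb
  have b0 : (0 : ℝ) < b := by linarith
  have T0 : 0 < T := by linarith
  obtain ⟨B, hB⟩ := pow_unbounded_of_one_lt (2 * (b : ℝ) ^ C / a) b1
  obtain ⟨A, hA⟩ := pow_unbounded_of_one_lt (2 * a * (T * b ^ C) ^ τ * b ^ 2) b1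
  refine ⟨A + 2 * B + C + 3, fun k x hx => ?_⟩
  obtain ⟨p, q, q1, q2, q3, q4⟩ := h k x hx
  obtain ⟨n, n1, n2⟩ : ∃ n : ℕ, (τ / 2 - 1) * k ≤ n ∧ (n : ℝ) ≤ (τ / 2 - 1) * k + 1 :=
    ⟨_, Nat.le_ceil _, (Nat.ceil_lt_add_one (mul_nonneg (by linarith) (by positivity))).le⟩
  obtain ⟨m, hm⟩ : ∃ m, m = n + A + B + C + 2 := ⟨_, rfl⟩
  have q0 : (0 : ℝ) < q := (tm_pos hb hT k).trans_le q1
  have te := tm_pos hb hT (k + 2 * m)
  obtain ⟨w, hw⟩ : ∃ w, w = a / (q * tm T b (k + 2 * m)) := ⟨_, rfl⟩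
  have w0 : 0 < w := by rw [hw]; positivity
  have g1 : 1 ≤ T * (b : ℝ) ^ C := one_le_mul_of_one_le_of_one_le hT (one_le_pow₀ b1.le)
  have g2 : 1 ≤ (T * (b : ℝ) ^ C) ^ τ := Real.one_le_rpow g1 (by linarith)
  have g3 : 1 ≤ (b : ℝ) ^ 2 := one_le_pow₀ b1.le
  have w1 : 2 * rd T b (k + m + B) ≤ w := by
    rw [hw, rd, mul_one_div, div_le_div_iff₀ (pow_pos (tm_pos hb hT _) 2) (by positivity)]
    rw [div_lt_iff₀ ha] at hB
    have : (b : ℝ) ^ B ≤ (b ^ B) ^ 2 := le_self_pow₀ (one_le_pow₀ b1.le) two_ne_zero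
    calc 2 * (q * tm T b (k + 2 * m)) ≤ 2 * (tm T b (k + C) * tm T b (k + 2 * m)) := by gcongr
      _ = (2 * b ^ C) * (T * b ^ (k + m)) ^ 2 := by simp only [tm]; ring
      _ ≤ ((b ^ B) ^ 2 * a) * (T * b ^ (k + m)) ^ 2 :=
          mul_le_mul_of_nonneg_right (by nlinarith) (by positivity)
      _ = _ := by simp only [tm]; ring
  have w2 : 2 * w ≤ rd T b (k + 1) := by
    rw [hw, rd, ← mul_div_assoc, div_le_div_iff₀ (by positivity) (pow_pos (tm_pos hb hT _) 2)]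
    have : (b : ℝ) ^ A ≤ b ^ (2 * m) := pow_le_pow_right₀ b1.le (by omega)
    calc 2 * a * tm T b (k + 1) ^ 2 = (2 * a * 1 * b ^ 2) * (T * b ^ k) ^ 2 := by
          simp only [tm]; ring
      _ ≤ b ^ (2 * m) * (T * b ^ k) ^ 2 := by
          gcongr
          exact le_trans (by gcongr) (hA.le.trans this)
      _ = 1 * (tm T b k * tm T b (k + 2 * m)) := by simp only [tm]; ring
      _ ≤ _ := by gcongr
  have w3 : 2 * w < (q : ℝ) ^ (-τ) := by
    rw [hw, Real.rpow_neg q0.le, ← mul_div_assoc, inv_eq_one_div,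
      div_lt_div_iff₀ (by positivity) (by positivity), one_mul,
      show τ = 1 + (τ - 1) by ring, Real.rpow_add q0, Real.rpow_one, mul_left_comm]
    gcongr
    have e1 : ((b : ℝ) ^ k) ^ (τ - 1) ≤ b ^ (k + 2 * n) := by
      rw [← Real.rpow_natCast, ← Real.rpow_mul b0.le, ← Real.rpow_natCast]
      refine Real.rpow_le_rpow_of_exponent_le b1.le ?_
      push_cast
      linarith
    have e2 : (T * (b : ℝ) ^ C) ^ (τ - 1) ≤ (T * (b : ℝ) ^ C) ^ τ :=
      Real.rpow_le_rpow_of_exponent_le g1 (by linarith)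
    calc 2 * a * (q : ℝ) ^ (τ - 1) ≤ 2 * a * (T * b ^ C * b ^ k) ^ (τ - 1) := by
          gcongr
          · linarith
          · exact q2.trans_eq (by simp only [tm]; ring)
      _ ≤ 2 * a * (T * b ^ C) ^ τ * b ^ 2 * b ^ (k + 2 * n) := by
          rw [Real.mul_rpow (by positivity) (by positivity), ← mul_assoc]
          exact mul_le_mul (le_trans (by gcongr) (le_mul_of_one_le_right (by positivity) g3)) e1
            (by positivity) (by positivity)
      _ < b ^ A * b ^ (k + 2 * n) := by gcongr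
      _ ≤ 1 * b ^ (k + 2 * m) := by
          rw [← pow_add, one_mul]
          exact pow_le_pow_right₀ b1.le (by omega)
      _ ≤ _ := by simp only [tm]; gcongr
  have r0 := rd_pos hb hT (k + m + B)
  refine ⟨k + m + B, k + 2 * m, p / q + 3 / 2 * w, by omega, by rw [hm]; push_cast; linarith,
    by omega, ?_, fun y hy => ?_, p, q, q1, fun z hz => ?_⟩
  · have := abs_add_le ((p : ℝ) / q - x) (3 / 2 * w)
    rw [abs_of_pos (by positivity : 0 < 3 / 2 * w)] at this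
    rw [add_sub_right_comm]
    linarith
  · have e : a / tm T b (k + 2 * m) = q * w := by rw [hw]; field_simp
    have e' : q * y - p = q * (y - p / q) := by field_simp
    rw [abs_le] at hy
    refine q4 _ y (by omega) ?_ ?_
    · rw [e, e']; gcongr; linarith
    · rw [mul_div_assoc, e, e', mul_left_comm]; gcongr; linarith
  · rw [abs_le] at hz
    rw [abs_lt]
    constructor <;> linarith

end DimP

open DimP

theorem sdim : S_Dim := by
  intro b M C T a τ x₀ S hb hM hM' hT ha hτ h0 hs hj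
  obtain ⟨K, hK⟩ := jump hb hT ha hτ hj
  have b1 : (1 : ℝ) < b := by exact_mod_cast hb
  have b0 : (0 : ℝ) < b := by linarith
  have T0 : 0 < T := by linarith
  have lb : 0 < Real.log b := Real.log_pos b1
  have lM : 0 < Real.log M := Real.log_pos (by exact_mod_cast hM)
  have r0 := rd_pos hb hT
  have r2 := rd_two hb hT
  obtain ⟨D, hD⟩ : ∃ D, D = 2 / τ * (Real.log M / Real.log ((b : ℝ) ^ 2)) := ⟨_, rfl⟩
  rw [← hD]
  have tD : Tendsto (fun η : ℝ => ENNReal.ofReal (D / (1 + η))) (𝓝[>] 0) (𝓝 (ENNReal.ofReal D)) := by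
    refine ENNReal.tendsto_ofReal (Tendsto.mono_left ?_ nhdsWithin_le_nhds)
    have : ContinuousAt (fun η : ℝ => D / (1 + η)) 0 := by fun_prop (disch := norm_num)
    simpa using this.tendsto
  refine le_of_tendsto tD (eventually_mem_nhdsWithin.mono fun η (hη : 0 < η) => ?_)
  obtain ⟨α, hα⟩ : ∃ α, α = τ / 2 * (1 + η) := ⟨_, rfl⟩
  have α1 : 1 ≤ α := by rw [hα]; nlinarith
  rw [Real.log_pow] at hD
  have D0 : 0 < D / (1 + η) := by rw [hD]; positivity
  refine (E.cantor (M := M) hM (lam := (b : ℝ) ^ (-(2 * α)))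
    (c := 1 / T ^ 2 * (b : ℝ) ^ (-(2 * (α + K + C + 2)))) (d := (D / (1 + η)).toNNReal)
    (Real.toNNReal_pos.2 D0) (by positivity) (by positivity) (le_of_eq ?_) (S := ℕ × ℝ × ℕ)
    (fun s => s.2.1 - rd T b s.1 + rd T b (s.1 + 1)) (fun s => s.2.1 + rd T b s.1 - rd T b (s.1 + 1))
    (fun i s => i ≤ s.1 ∧ ((s.2.2 ≤ s.1 ∧ S s.1 s.2.1 ∧ (s.1 : ℝ) ≤ α * i + K + C + 1) ∨
      (s.1 + C + 1 ≤ s.2.2 ∧ Win T b C S s.2.2 s.1 s.2.1 ∧ (s.1 : ℝ) ≤ α * i + K)))
    (fun i s s' => (S s.1 s.2.1 ∧ ∃ p q : ℤ, tm T b s.1 ≤ q ∧ ∀ z, |z - s'.2.1| ≤ rd T b s'.1 →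
      |z - p / q| < (q : ℝ) ^ (-τ)) ∨ (s'.2.2 = s.2.2 ∧ s'.1 ≤ max s.1 s.2.2 + 1 ∧
        (s.1 < s.2.2 ∨ (1 + η) * i < s.1)))
    (0, x₀, 0) ⟨le_rfl, Or.inl ⟨le_rfl, h0, by simp only [Nat.cast_zero]; positivity⟩⟩
    (fun i s _ => by linarith [r0 (s.1 + 1), r2 s.1]) ?_).trans (dimH_mono ?_)
  · rw [Real.coe_toNNReal _ D0.le, ← Real.rpow_mul b0.le, Real.rpow_def_of_pos b0,
      ← Real.exp_log (show (0 : ℝ) < M by positivity), ← Real.exp_neg, hD, hα]
    congr 1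
    have : τ ≠ 0 := by linarith
    push_cast
    field_simp
  · rintro i ⟨k, x, e⟩ ⟨h1, h2⟩
    dsimp only at h1 h2 ⊢
    suffices h : ∃ (k' e' : ℕ) (c : Fin M → ℝ), (∀ i j, i ≠ j → 2 * rd T b k' ≤ |c i - c j|) ∧
        k < k' ∧ ∀ j, |c j - x| + rd T b k' + rd T b (k + 1) ≤ rd T b k ∧
        ((e' ≤ k' ∧ S k' (c j) ∧ (k' : ℝ) ≤ α * i + 1 + K + C + 1) ∨
          (k' + C + 1 ≤ e' ∧ Win T b C S e' k' (c j) ∧ (k' : ℝ) ≤ α * i + 1 + K)) ∧
        ((S k x ∧ ∃ p q : ℤ, tm T b k ≤ q ∧ ∀ z, |z - c j| ≤ rd T b k' →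
          |z - p / q| < (q : ℝ) ^ (-τ)) ∨ (e' = e ∧ k' ≤ max k e + 1 ∧
            (k < e ∨ (1 + η) * i < k))) by
      obtain ⟨k', e', c, c1, c2, c3⟩ := h
      refine ⟨fun j => (k', c j, e'), fun j => ?_, fun j j' n y hy z hz => ?_⟩
      · obtain ⟨d1, d2, d3⟩ := c3 j
        have := r0 (k' + 1)
        dsimp only
        refine ⟨⟨by omega, d2.imp (fun d => ⟨d.1, d.2.1, by push_cast; linarith [d.2.2]⟩)
          fun d => ⟨d.1, d.2.1, by push_cast; linarith [d.2.2]⟩⟩, d3, ?_, ?_⟩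
        · linarith [neg_abs_le (c j - x)]
        · linarith [le_abs_self (c j - x)]
      · have k1 : (k' : ℝ) ≤ α * i + α + K + C + 1 :=
          (c3 j).2.1.elim (fun d => by linarith [d.2.2])
            fun d => by linarith [d.2.2, Nat.cast_nonneg (α := ℝ) C]
        have k2 : 1 / T ^ 2 * (b : ℝ) ^ (-(2 * (α + K + C + 2))) * ((b : ℝ) ^ (-(2 * α))) ^ i ≤
            rd T b (k' + 1) := by
          rw [← Real.rpow_natCast _ i, ← Real.rpow_mul b0.le, mul_assoc, ← Real.rpow_add b0, rd, tm,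
            mul_pow, ← pow_mul, ← one_div_mul_one_div, one_div ((b : ℝ) ^ _),
            ← Real.rpow_natCast (b : ℝ), ← Real.rpow_neg b0.le]
          gcongr
          · exact b1.le
          · push_cast
            linarith
        have := c1 j j' n
        have := r0 (k' + 1)
        simp only [mem_Icc] at hy hz
        rcases abs_cases (c j - c j') with d | d <;> rcases abs_cases (y - z) with d' | d' <;>
          linarith
    rcases h2 with ⟨g1, g2, g3⟩ | ⟨g1, g2, g3⟩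
    · by_cases hp : (1 + η) * i < k
      · obtain ⟨c, c1, c2⟩ := hs k x g2
        exact ⟨k + 1, e, c, c1, k.lt_succ_self, fun j => ⟨by linarith [(c2 j).1],
          Or.inl ⟨by omega, (c2 j).2, by push_cast; linarith⟩, Or.inr ⟨rfl, by omega, Or.inr hp⟩⟩⟩
      · obtain ⟨k₁, e₁, x₁, j1, j2, j3, j4, j5, p, q, j6, j7⟩ := hK k x g2
        obtain ⟨c, c1, c2⟩ := free hb hT hM' k₁ x₁
        refine ⟨k₁ + 1, e₁, c, c1, by omega, fun j => ?_⟩
        have := c2 j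
        have := r0 (k₁ + 1)
        refine ⟨by linarith [abs_sub_le (c j) x₁ x], Or.inr ⟨by omega, j5.sub (by linarith), ?_⟩,
          Or.inl ⟨g2, p, q, j6, fun z hz => j7 z (by linarith [abs_sub_le z (c j) x₁])⟩⟩
        have : τ / 2 * k ≤ α * i := by
          rw [hα, mul_assoc]
          exact mul_le_mul_of_nonneg_left (not_lt.1 hp) (by linarith)
        push_cast
        linarith
    · by_cases hp : k + C + 1 = e
      · obtain ⟨x', d1, d2⟩ := g2 x (by simpa using (r0 k).le)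
        obtain ⟨c, c1, c2⟩ := hs e x' d2
        rw [show e - C = k + 1 by omega] at d1
        refine ⟨e + 1, e, c, c1, by omega, fun j => ⟨?_, Or.inl ⟨by omega, (c2 j).2, ?_⟩,
          Or.inr ⟨rfl, by omega, Or.inl (by omega)⟩⟩⟩
        · linarith [(c2 j).1, abs_sub_le (c j) x' x, r2 k, r0 (e + 1)]
        · rw [← hp]
          push_cast
          linarith
      · obtain ⟨c, c1, c2⟩ := free hb hT hM' k x
        exact ⟨k + 1, e, c, c1, k.lt_succ_self, fun j => ⟨by linarith [c2 j],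
          Or.inr ⟨by omega, g2.sub (by linarith [c2 j, r0 (k + 1)]), by push_cast; linarith⟩,
          Or.inr ⟨rfl, by omega, Or.inl (by omega)⟩⟩⟩
  · rintro z ⟨s, hs⟩
    have mem : ∀ i, |z - (s i).2.1| ≤ rd T b (s i).1 := fun i => by
      have := (hs i).2.2
      have := r0 ((s i).1 + 1)
      simp only [mem_Icc] at *
      rw [abs_le]
      constructor <;> linarith
    have inf : ∀ I, ∃ i, I ≤ i ∧ S (s i).1 (s i).2.1 ∧ ∃ p q : ℤ, tm T b (s i).1 ≤ q ∧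
        |z - p / q| < (q : ℝ) ^ (-τ) := fun I => by
      by_contra n
      have nj : ∀ i, I ≤ i → (s (i + 1)).2.2 = (s i).2.2 ∧
          (s (i + 1)).1 ≤ max (s i).1 (s i).2.2 + 1 ∧
          ((s i).1 < (s i).2.2 ∨ (1 + η) * i < (s i).1) := fun i hi =>
        (hs i).2.1.resolve_left fun ⟨a1, p, q, a2, a3⟩ => n ⟨i, hi, a1, p, q, a2, a3 z (mem _)⟩
      have bd : ∀ i, I ≤ i → (s i).2.2 = (s I).2.2 ∧ (s i).1 ≤ (s I).1 + (s I).2.2 + i := by
        intro i hi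
        induction i, hi using Nat.le_induction with
        | base => omega
        | succ i hi ih =>
          have := nj i hi
          omega
      obtain ⟨i, hi⟩ := exists_nat_ge ((((s I).1 + (s I).2.2 : ℕ) : ℝ) / η)
      obtain ⟨i', i1, i2, i3⟩ : ∃ i', I ≤ i' ∧ (s I).2.2 ≤ i' ∧ i ≤ i' :=
        ⟨I + (s I).2.2 + i, by omega⟩
      have a1 := bd i' i1
      have a2 := (hs i').1.1
      have a3 := (nj i' i1).2.2.resolve_left (by omega)
      have a4 : ((s i').1 : ℝ) ≤ ((s I).1 + (s I).2.2 : ℕ) + i' := by exact_mod_cast a1.2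
      have a5 : (i : ℝ) ≤ i' := by exact_mod_cast i3
      rw [div_le_iff₀ hη] at hi
      nlinarith
    refine ⟨fun K => ?_, fun Q => ?_⟩
    · obtain ⟨i, i1, i2, -⟩ := inf K
      exact ⟨_, _, i1.trans (hs i).1.1, i2, mem i⟩
    · obtain ⟨i, i1, -, p, q, i2, i3⟩ := inf Q.toNat
      refine ⟨p, q, ?_, i3⟩
      have a1 : (((s i).1 : ℤ) : ℝ) < q := by exact_mod_cast (lt_tm hb hT _).trans_le i2
      have a2 := (hs i).1.1
      have a3 : ((s i).1 : ℤ) < q := by exact_mod_cast a1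
      omega

end Pool.Agent.P.MP_613544_nt
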