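import Pool.Agent.P.MP_613544_nt.Exit

/-!
Excursions into the cusp: the way to a rational number and the way back.
-/

set_option autoImplicit false

noncomputable section

namespace Pool.Agent.P.MP_613544_nt

variable {ν : Seminorm ℝ (ℝ × ℝ)} {r c C R : ℝ}

theorem farey (x : ℝ) {Q : ℕ} (hQ : 1 ≤ Q) : ∃ a b c d : ℤ, c * b - a * d = 1 ∧ 0 < b ∧ b ≤ Q ∧
    0 < d ∧ d ≤ Q ∧ Q < b + d ∧ a ≤ b * x ∧ d * x ≤ c := by
  induction Q, hQ using Nat.le_induction with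
  | base =>
    exact ⟨⌊x⌋, 1, ⌊x⌋ + 1, 1, by ring, one_pos, le_rfl, one_pos, le_rfl, by norm_num,
      by simpa using Int.floor_le x, by simpa using (Int.lt_floor_add_one x).le⟩
  | succ Q _ ih =>
    obtain ⟨a, b, c, d, u, b0, b1, d0, d1, s, h1, h2⟩ := ih
    push_cast
    by_cases g : (Q : ℤ) + 1 < b + d
    · exact ⟨a, b, c, d, u, b0, by omega, d0, by omega, g, h1, h2⟩
    rcases le_total ((a + c : ℤ) : ℝ) ((b + d : ℤ) * x) with z | z
    · exact ⟨a + c, b + d, c, d, by linear_combination u, by omega, by omega, d0, by omega,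
        by omega, z, h2⟩
    · exact ⟨a, b, a + c, b + d, by linear_combination u, b0, by omega, by omega, by omega,
        by omega, h1, z⟩

theorem far {x η : ℝ} {Q : ℕ} (hQ : 1 ≤ Q) (hR : 1 ≤ R) (η0 : 0 < η) (η1 : η ≤ 1)
    (h : Hl R η (Q / 2) x) : ∃ a b c d : ℤ, c * b - a * d = 1 ∧ η * Q / 2 ≤ b ∧ (b : ℝ) ≤ Q ∧
      η * Q / 2 ≤ d ∧ (d : ℝ) ≤ Q ∧ ∀ l m : ℝ, 0 < l → 0 < m →
        |(l * a + m * c) / (l * b + m * d) - x| ≤ 4 / (η * Q) ^ 2 := by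
  obtain ⟨a, b, c, d, u, b0, b1, d0, d1, s, h1, h2⟩ := farey x hQ
  have Q0 : (0 : ℝ) < Q := by exact_mod_cast hQ
  have u' : (c : ℝ) * b - a * d = 1 := by exact_mod_cast u
  have b2 : (0 : ℝ) < b := by exact_mod_cast b0
  have d2 : (0 : ℝ) < d := by exact_mod_cast d0
  have s' : (Q : ℝ) < b + d := by exact_mod_cast s
  have key : ∀ p q : ℤ, 0 < q → ∀ e : ℝ, Q < q + e → e * |p + q * x| ≤ 1 → η * Q / 2 ≤ q := by
    intro p q q0 e g1 g2
    have q1 : (0 : ℝ) < q := by exact_mod_cast q0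
    rcases le_total (Q / 2 : ℝ) e with g | g
    · rcases h p q (by simp [q0.ne']) with z | z
      · simp only [vec] at z
        rw [abs_of_pos (by positivity), le_div_iff₀ (by positivity)] at z
        linarith
      · simp only [vec] at z
        rw [abs_mul, abs_of_pos (by positivity : (0 : ℝ) < Q / 2)] at z
        nlinarith [abs_nonneg (p + q * x)]
    · nlinarith
  have k1 := key (-a) b b0 d s' (by
    push_cast
    rw [abs_of_nonneg (by linarith)]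
    nlinarith)
  have k2 := key (-c) d d0 b (by linarith) (by
    push_cast
    rw [abs_of_nonpos (by linarith)]
    nlinarith)
  refine ⟨a, b, c, d, u, k1, by exact_mod_cast b1, k2, by exact_mod_cast d1, fun l m l0 m0 => ?_⟩
  set y := (l * a + m * c) / (l * b + m * d) with hy
  have n0 : 0 < l * b + m * d := by positivity
  have y1 : a ≤ b * y := by rw [hy, mul_div_assoc', le_div_iff₀ n0]; nlinarith
  have y2 : d * y ≤ c := by rw [hy, mul_div_assoc', div_le_iff₀ n0]; nlinarith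
  have y3 : |y - x| * (b * d) ≤ 1 := by
    rcases abs_cases (y - x) with ⟨e, -⟩ | ⟨e, -⟩ <;> rw [e] <;> linarith [mul_le_mul_of_nonneg_left y2 b2.le,
      mul_le_mul_of_nonneg_left h1 d2.le, mul_le_mul_of_nonneg_left h2 b2.le,
      mul_le_mul_of_nonneg_left y1 d2.le]
  rw [le_div_iff₀ (by positivity)]
  have : η * Q / 2 * (η * Q / 2) ≤ b * d := by gcongr
  nlinarith [abs_nonneg (y - x)]

theorem back {s τ : ℝ} {P q P' q' : ℤ} (u : P * q' - P' * q = -1) (q0 : (q : ℝ) ≠ 0) (τ0 : τ ≠ 0)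
    (h : Bd ν s τ (P / q)) : Bd (turn ν) s (q / τ) (q' / q) := fun m n h0 => by
  refine (h _ _ (ne_uni (m₁ := -P) (n₁ := q) (m₂ := -P') (n₂ := q') (by linarith) h0)).trans_eq ?_
  have u' : (P : ℝ) * q' - P' * q = -1 := by exact_mod_cast u
  rw [turn_apply]
  congr 1
  ext <;> simp only [vec] <;> push_cast <;> field_simp
  linear_combination n * u'

theorem Hl.mono {η Θ τ₁ τ x : ℝ} (h : Hl R η τ₁ x) (t0 : 0 < τ₁) (η0 : 0 < η) (h1 : τ₁ ≤ τ)
    (h2 : τ ≤ Θ * τ₁) : Hl R (η / Θ) τ x := fun p q h0 => by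
  have τ0 : 0 < τ := by linarith
  have Θ0 : 0 < Θ := (mul_pos_iff_of_pos_right t0).1 (τ0.trans_le h2)
  have := h p q h0
  simp only [vec, abs_mul, abs_div, abs_of_pos τ0, abs_of_pos t0] at this ⊢
  refine this.imp (fun g => ?_) fun g => g.trans_le (by gcongr)
  rw [le_div_iff₀ t0] at g
  rw [div_le_div_iff₀ Θ0 τ0]
  nlinarith

theorem Cov.pigeon {N : ℕ} {δ : ℝ} {D : Set ℝ} (h : Cov N δ D) (ρ : ℕ → ℝ)
    (hρ : ∀ i j, i < j → j ≤ N → 2 * δ < |ρ i - ρ j|) : ∃ i ≤ N, ρ i ∉ D := by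
  obtain ⟨Y, a, b⟩ := h
  by_contra z
  push Not at z
  choose! f f1 f2 using fun i hi => b _ (z i hi)
  obtain ⟨i, hi, j, hj, ne, e⟩ := Finset.exists_ne_map_eq_of_card_lt_of_maps_to
    (s := Finset.range (N + 1)) (t := Y) (by simp; omega) (f := f)
    fun i hi => f1 i (by simpa [Nat.lt_succ_iff] using hi)
  rw [Finset.mem_range, Nat.lt_succ_iff] at hi hj
  have c1 := abs_sub_le (ρ i) (f j) (ρ j)
  have c2 := f2 i hi
  have c3 := f2 j hj
  rw [e] at c2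
  rw [abs_sub_comm] at c3
  rcases lt_or_gt_of_ne ne with g | g
  · linarith [hρ i j g hj]
  · linarith [hρ j i g hi, abs_sub_comm (ρ i) (ρ j)]

theorem Crit.rat (h : Crit ν r c C) (hR : 1 ≤ R) (hR' : r + 1 ≤ c * R) {b η σ₁ : ℝ} (hb : 2 ≤ b)
    (η0 : 0 < η) (η1 : η ≤ 1) (σ1 : 1 ≤ σ₁) : ∃ A ε : ℝ, 0 < ε ∧ ∀ s, r - ε ≤ s → ∀ z : ℝ,
      (∀ σ, σ₁ ≤ σ → Hl R η σ z) → (∀ σ, 0 < σ → ∀ x, |x - z| ≤ 1 / (b * (b * σ)) ^ 2 →
        |x - z| ≤ 1 / (b * σ₁) ^ 2 → ¬ Bd (turn ν) s σ x) → ∀ u x : ℝ, 1 ≤ u →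
      (∀ τ, u ≤ τ → ∀ y, |y - x| ≤ 1 / (b * (b * τ)) ^ 2 → ¬ Bd ν s τ y ∧ Hl R η τ y) →
      ∃ P q P' q' : ℤ, P * q' - P' * q = -1 ∧ b * u ≤ q ∧ q ≤ A * u ∧
        |P / q - x| ≤ 1 / (b * (b * u)) ^ 2 ∧ ∀ τ, u ≤ τ → ¬ Bd ν s τ (P / q) := by
  have b0 : 0 < b := by linarith
  have b4 : 4 ≤ b ^ 2 := by nlinarith
  obtain ⟨N, hN⟩ := h.covA hR hR' (Θ := 8 * b ^ 4 / η ^ 2) (by
    rw [one_le_div (by positivity)]; nlinarith)
  obtain ⟨L, hL⟩ := exists_nat_gt (2 * b * σ₁ / η)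
  rw [div_lt_iff₀ η0] at hL
  have L2 : (2 : ℝ) < η * L := by nlinarith
  have L1 : (1 : ℝ) ≤ L := by nlinarith
  obtain ⟨ε, ε0, H⟩ := hN (η ^ 2 / (64 * b ^ 4 * (L ^ (N + 1)) ^ 2)) (η / (8 * b ^ 4 / η ^ 2))
    (by positivity) (by positivity)
  refine ⟨6 * b ^ 2 / η * L ^ (N + 1), ε, ε0, fun s hs z z1 z2 u x u1 hx => ?_⟩
  have u0 : 0 < u := by linarith
  obtain ⟨Q, Q1, Q2⟩ : ∃ Q : ℕ, 2 * b ^ 2 * u ≤ η * Q ∧ η * Q ≤ 3 * b ^ 2 * u := by
    refine ⟨⌈2 * b ^ 2 * u / η⌉₊, by rw [mul_comm η, ← div_le_iff₀ η0]; exact Nat.le_ceil _, ?_⟩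
    have := (Nat.ceil_lt_add_one (show 0 ≤ 2 * b ^ 2 * u / η by positivity)).le
    rw [div_add_one η0.ne', le_div_iff₀ η0] at this
    nlinarith
  have Q3 : 2 * u ≤ Q := by nlinarith
  have Q0 : (0 : ℝ) < Q := by linarith
  obtain ⟨a, b₁, c', d₁, u₁, b1, b2, d1, d2, hm⟩ := far (Q := Q)
    (by exact_mod_cast (by linarith : (1 : ℝ) ≤ Q)) hR η0 η1
    (hx (Q / 2) (by linarith) x (by simp; positivity)).2
  have Lp : ∀ i : ℕ, (L : ℝ) ≤ L ^ (i + 1) := fun i => le_self_pow₀ L1 (by omega)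
  choose a' b' c'' d' u₂ e1 e2 e3 e4 hm' using fun i : ℕ => far (x := z) (Q := L ^ (i + 1))
    (Nat.one_le_pow _ _ (by exact_mod_cast L1)) hR η0 η1
    (z1 _ (by push_cast; nlinarith [Lp i]))
  push_cast at e1 e2 e3 e4 hm'
  have b3 : (0 : ℝ) < b₁ := by nlinarith
  have d3 : (0 : ℝ) < d₁ := by nlinarith
  have e5 : ∀ i, (1 : ℝ) ≤ b' i := fun i => by nlinarith [e1 i, Lp i]
  have e6 : ∀ i, (1 : ℝ) ≤ d' i := fun i => by nlinarith [e3 i, Lp i]
  set P : ℕ → ℤ := fun i => b' i * a + d' i * c' with hP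
  set q : ℕ → ℤ := fun i => b' i * b₁ + d' i * d₁ with hq
  have v : ∀ i, P i * (a' i * b₁ + c'' i * d₁) - (a' i * a + c'' i * c') * q i = -1 := fun i => by
    simp only [hP, hq]
    linear_combination (a * d₁ - c' * b₁) * u₂ i - u₁
  have q1 : ∀ i, b * u ≤ q i := fun i => by
    simp only [hq]
    push_cast
    nlinarith [e5 i, e6 i, mul_pos b0 u0]
  have q0 : ∀ i, (0 : ℝ) < q i := fun i => lt_of_lt_of_le (by positivity) (q1 i)
  have q2 : ∀ i, (q i : ℝ) ≤ 2 * Q * L ^ (i + 1) := fun i => by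
    simp only [hq]
    push_cast
    nlinarith [mul_le_mul (e2 i) b2 b3.le (by positivity), mul_le_mul (e4 i) d2 d3.le (by positivity)]
  have q3 : ∀ i ≤ N, (q i : ℝ) ≤ 2 * Q * L ^ (N + 1) := fun i hi => (q2 i).trans (by gcongr)
  have q4 : ∀ i, |(P i : ℝ) / q i - x| ≤ 4 / (η * Q) ^ 2 := fun i => by
    simp only [hP, hq]
    push_cast
    exact hm _ _ (by linarith [e5 i]) (by linarith [e6 i])
  set t := η * Q / (2 * b ^ 2) with ht
  have t1 : u ≤ t := by rw [ht, le_div_iff₀ (by positivity)]; linarith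
  have t0 : 0 < t := by linarith
  have t2 : 4 / (η * Q) ^ 2 = 1 / (b * (b * t)) ^ 2 := by rw [ht]; field_simp; norm_num
  obtain ⟨i, i1, i2⟩ := (H t x t0).pigeon (fun i => P i / q i) fun i j ij hj => by
    have g1 : (L : ℝ) ^ (i + 1) < η * L ^ (j + 1) / 2 := by
      have : (L : ℝ) ^ (i + 1) ≤ L ^ j := pow_le_pow_right₀ L1 ij
      rw [pow_succ _ j]
      nlinarith [show 0 < (L : ℝ) ^ j by positivity]
    have g2 : (q i : ℝ) < q j := by
      simp only [hq]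
      push_cast
      nlinarith [e1 j, e2 i, e3 j, e4 i]
    have g3 := one_le_abs (q := P i * q j - P j * q i) fun y => by
      have g4 : q j ∣ q i := ⟨(a' j * a + c'' j * c') * q i - P i * (a' j * b₁ + c'' j * d₁), by
        linear_combination q i * v j + (a' j * b₁ + c'' j * d₁) * y⟩
      exact absurd (Int.le_of_dvd (by exact_mod_cast q0 i) g4) (not_le.2 (by exact_mod_cast g2))
    rw [show ((P i * q j - P j * q i : ℤ) : ℝ) = (P i / q i - P j / q j) * (q i * q j) by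
      have := (q0 i).ne'
      have := (q0 j).ne'
      push_cast; field_simp, abs_mul, abs_of_pos (mul_pos (q0 i) (q0 j))] at g3
    have g5 : (q i : ℝ) * q j ≤ (2 * Q * L ^ (N + 1)) ^ 2 := by
      rw [sq]; exact mul_le_mul (q3 i (by omega)) (q3 j hj) (q0 j).le (by positivity)
    rw [show 2 * (η ^ 2 / (64 * b ^ 4 * (L ^ (N + 1)) ^ 2) / t ^ 2) =
      1 / 2 / (2 * Q * L ^ (N + 1)) ^ 2 by rw [ht]; field_simp; norm_num, div_lt_iff₀ (by positivity)]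
    nlinarith [abs_nonneg ((P i : ℝ) / q i - P j / q j)]
  refine ⟨P i, q i, _, _, v i, q1 i, (q3 i i1).trans ?_, (q4 i).trans (by rw [t2]; gcongr),
    fun τ τ1 hd => ?_⟩
  · rw [show 6 * b ^ 2 / η * L ^ (N + 1) * u = 2 * (3 * b ^ 2 * u / η) * L ^ (N + 1) by ring]
    gcongr
    rwa [le_div_iff₀' η0]
  have τ0 : 0 < τ := by linarith
  rcases le_total τ t with g | g
  · exact (hx τ τ1 _ ((q4 i).trans (by rw [t2]; gcongr))).1 hd
  rcases le_total τ (8 * b ^ 4 / η ^ 2 * t) with g' | g'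
  · refine i2 ⟨(q4 i).trans ?_, τ, g, g', fun p q h0 => hs.trans_lt (hd p q h0),
      (hx t t1 _ (t2 ▸ q4 i)).2.mono t0 η0 g g'⟩
    rw [t2, show (b * (b * t)) ^ 2 = (b ^ 2) ^ 2 * t ^ 2 by ring, div_le_div_iff₀ (by positivity)
      (by positivity)]
    nlinarith [mul_le_mul_of_nonneg_right (show 1 ≤ (b ^ 2) ^ 2 by nlinarith) (sq_nonneg t)]
  have g1 : |((a' i * b₁ + c'' i * d₁ : ℤ) : ℝ) / q i - z| ≤ 1 / (η * L ^ (i + 1) / 2) ^ 2 := by
    simp only [hq]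
    push_cast
    convert hm' i _ _ b3 d3 using 1
    · congr 2; ring
    · field_simp; norm_num
  have g0 := q0 i
  refine z2 _ (by positivity) _ (g1.trans ?_) (g1.trans ?_) (back (v i) g0.ne' τ0.ne' hd)
  · gcongr
    rw [show 8 * b ^ 4 / η ^ 2 * t = 4 * b ^ 2 * Q / η by rw [ht]; field_simp; norm_num,
      div_le_iff₀ η0] at g'
    rw [← mul_assoc, mul_div_assoc', div_le_iff₀ τ0]
    nlinarith [mul_le_mul_of_nonneg_left (q2 i) (sq_nonneg b),
      mul_le_mul_of_nonneg_left g' (show 0 ≤ (L : ℝ) ^ (i + 1) by positivity)]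
  · gcongr
    nlinarith [Lp i]

end Pool.Agent.P.MP_613544_nt
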