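import Pool.Agent.P.MP_613544_nt.Game

/-!
A safe window for leaving the cusp.
-/

set_option autoImplicit false

noncomputable section

namespace Pool.Agent.P.MP_613544_nt

open Filter Topology

variable {ν : Seminorm ℝ (ℝ × ℝ)} {r c C R : ℝ}

theorem Crit.fact' {e f : ℝ × ℝ} (h : Crit ν r c C) (hd : det e f = 1) (ha : Adm ν r e f) :
    ∃ m₁ n₁ m₂ n₂ : ℤ, m₁ * n₂ - n₁ * m₂ = 1 ∧ Hx ν r (cmb e f m₁ n₁) (cmb e f m₂ n₂) := by
  obtain ⟨m, n, h0, a0⟩ : ∃ m n : ℤ, (m, n) ≠ (0, 0) ∧ ν (cmb e f m n) ≤ r := by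
    by_contra z
    push Not at z
    have hc := h.hc
    obtain ⟨B, hB⟩ := exists_nat_ge (2 * ((r + 1) / c) * (‖e‖ + ‖f‖))
    obtain ⟨ε, ε0, H⟩ := unif ((Set.finite_Icc (-B : ℤ) B).prod (Set.finite_Icc (-B : ℤ) B)).isCompact
      (P := fun ε z => z ≠ (0, 0) → r + ε < ν (cmb e f z.1 z.2))
      (fun ε ε' z h1 h2 h3 => by linarith [h2 h3]) fun y _ => by
      rw [nhds_discrete]
      by_cases a : y = (0, 0)
      · exact ⟨1, one_pos, fun b => absurd a b⟩
      · exact ⟨(ν (cmb e f y.1 y.2) - r) / 2, by linarith [z y.1 y.2 a], fun _ => by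
          linarith [z y.1 y.2 a]⟩
    obtain ⟨m, n, h0, a0⟩ := h.small e f hd (r + min ε 1) (by simp [ε0])
    have a1 : ‖cmb e f m n‖ ≤ (r + 1) / c := by
      rw [le_div_iff₀ hc]
      linarith [h.lo (cmb e f m n), min_le_right ε 1]
    have a2 := abs_det_le (cmb e f m n) (cmb e f 0 1)
    have a3 := abs_det_le (cmb e f m n) (cmb e f 1 0)
    rw [det_cmb, hd] at a2 a3
    simp only [cmb, Int.cast_zero, zero_smul, Int.cast_one, one_smul, zero_add, add_zero, mul_one,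
      mul_zero, sub_zero, zero_sub, Int.cast_neg, abs_neg] at a1 a2 a3
    have n1 := norm_nonneg e
    have n2 := norm_nonneg f
    have n3 := norm_nonneg ((m : ℝ) • e + (n : ℝ) • f)
    have b2 : |m| ≤ B := by exact_mod_cast (by nlinarith : |(m : ℝ)| ≤ B)
    have b3 : |n| ≤ B := by exact_mod_cast (by nlinarith : |(n : ℝ)| ≤ B)
    linarith [H (m, n) ⟨abs_le.1 b2, abs_le.1 b3⟩ h0, min_le_left ε 1]
  obtain ⟨m₁, n₁, m₂, n₂, u, a1, -⟩ := red ν hd h0
  obtain ⟨a, b, a', b', u', z⟩ := h.fact (p := cmb e f m₁ n₁) (q := cmb e f m₂ n₂)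
    (by simp [det_cmb, u, hd]) (fun a b h1 => by rw [cmb_cmb]; exact ha _ _ (ne_uni u h1))
    ((a1.trans a0).antisymm (ha _ _ (by simpa using ne_uni u (a := 1) (b := 0) (by simp))))
  simp only [cmb_cmb] at z
  exact ⟨_, _, _, _, by linear_combination (a * b' - b * a') * u + u', z⟩

theorem horiz {σ x : ℝ} {m₁ m₂ n₂ : ℤ} (u : m₁ * n₂ = 1)
    (h : Hx ν r (vec σ x m₁ 0) (vec σ x m₂ n₂)) : ∃ j, Hx ν r (vec σ x 1 0) (vec σ x j 1) := by
  rcases Int.eq_one_or_neg_one_of_mul_eq_one' u with ⟨rfl, rfl⟩ | ⟨rfl, rfl⟩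
  · exact ⟨_, h⟩
  · refine ⟨-m₂, ?_⟩
    convert h.neg using 1 <;> ext <;> simp [vec] <;> ring

/-- The unit ball is not a parallelogram with horizontal sides. -/
def NP (ν : Seminorm ℝ (ℝ × ℝ)) : Prop :=
  ¬ ∃ a b c : ℝ, ∀ v : ℝ × ℝ, ν v = max |a * v.2| |b * v.1 + c * v.2|

theorem Crit.gap (h : Crit ν r c C) (hN : NP ν) : ∃ g ℓ : ℝ, 0 < ℓ ∧ ∀ w, |w - g| ≤ ℓ →
    ∀ σ, 0 < σ → ∀ j : ℤ, ¬ Hx ν r (vec σ w 1 0) (vec σ w j 1) := by
  have hr := h.hr
  have hc := h.hc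
  have ct := h.cont
  have n0 : 0 < ν (1, 0) := by simpa using lt_of_lt_of_le (by simpa using hc) (h.lo (1, 0))
  set t := r / ν (1, 0) with ht
  have t0 : 0 < t := by positivity
  set p : ℝ × ℝ := (t, 0) with hp
  set q : ℝ × ℝ := (0, 1 / t) with hq
  have e0 : ∀ σ : ℝ, 0 < σ → ν (σ, 0) = σ * ν (1, 0) := fun σ h0 => by
    rw [← nsm ν h0.le]; simp
  have p0 : ν p = r := by rw [hp, e0 t t0, ht]; field_simp
  set Z := {s : ℝ | ν (q + s • p) = r ∧ ν (q + (s + 1) • p) = r} with hZ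
  suffices ∃ g ℓ : ℝ, 0 < ℓ ∧ ∀ w, |w - g| ≤ ℓ → ∀ j : ℤ, w + j ∉ Z by
    obtain ⟨g, ℓ, l0, H⟩ := this
    refine ⟨g, ℓ, l0, fun w hw σ σ0 j hx => H w hw (j - 1) ?_⟩
    have a1 : σ = t := by
      have := hx.1
      simp only [vec, Int.cast_one, Int.cast_zero, zero_mul, add_zero, mul_one, zero_div] at this
      rw [ht, ← this, e0 σ σ0]
      field_simp
    subst a1
    constructor
    · rw [← hx.2.2]; congr 1; ext <;> simp [vec, hp, hq]; ring
    · rw [← hx.2.1]; congr 1; ext <;> simp [vec, hp, hq]; ring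
  rcases Z.eq_empty_or_nonempty with z | z
  · exact ⟨0, 1, one_pos, by simp [z]⟩
  have hK : IsCompact Z := by
    refine (isCompact_Icc (a := -(r / (c * t))) (b := r / (c * t))).of_isClosed_subset
      (IsClosed.and (isClosed_eq (by fun_prop) continuous_const)
        (isClosed_eq (by fun_prop) continuous_const)) fun s hs => abs_le.1 ?_
    have a1 := (mul_le_mul_of_nonneg_left (norm_fst_le (q + s • p)) hc.le).trans (h.lo _)
    rw [hs.1] at a1
    simp only [hp, hq, Prod.smul_mk, smul_eq_mul, Prod.mk_add_mk, zero_add, norm_mul,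
      Real.norm_eq_abs, abs_of_pos t0] at a1
    rw [le_div_iff₀ (by positivity)]
    linarith
  obtain ⟨s₀, a0, a1⟩ := hK.exists_isLeast z
  obtain ⟨s₁, b0, b1⟩ := hK.exists_isGreatest z
  rcases lt_or_ge s₁ (s₀ + 1) with g | g
  · refine ⟨(s₁ + s₀ + 1) / 2, (s₀ + 1 - s₁) / 4, by linarith, fun w hw j hj => ?_⟩
    rw [abs_le] at hw
    have c1 : (j : ℝ) < 0 := by linarith [b1 hj]
    have c2 : j ≤ -1 := by
      have : j < 0 := by exact_mod_cast c1
      omega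
    have c3 : (j : ℝ) ≤ -1 := by exact_mod_cast c2
    linarith [a1 hj]
  exfalso
  have fl := flat (x := s₀) (y := s₀ + 1) (z := s₁ + 1) (by linarith) (by linarith) a0.1 a0.2 b0.2
  have c1 : ν (q + (s₀ + 2) • p) = r := (fl _).antisymm' (by
    have := conv3 ν p q (x := s₀) (y := s₀ + 2) (z := s₁ + 1) (by linarith) (by linarith)
    rw [a0.1, b0.2] at this
    nlinarith)
  set u := q + (s₀ + 1) • p with hu
  have c2 : ν (p + (1 : ℝ) • u) = r := by rw [← c1, hu]; congr 1; module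
  have c3 : ν (p + (-1 : ℝ) • u) = r := by rw [← a0.1, ← map_neg_eq_map, hu]; congr 1; module
  have fl2 := flat (x := -1) (y := 0) (z := 1) (by linarith) (by linarith) c3 (by simpa) c2
  have key : ∀ α β : ℝ, ν (α • p + β • u) = max (|β| * r) (|α| * r) := fun α β => by
    refine le_antisymm ?_ (max_le (box fun s => by
      rw [hu, add_assoc, ← add_smul]; exact fl _) (by rw [add_comm]; exact box fl2))
    have d1 := map_add_le_add ν (((α + β) / 2) • (p + (1 : ℝ) • u))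
      (((α - β) / 2) • (p + (-1 : ℝ) • u))
    rw [nsm', nsm', c2, c3, show ((α + β) / 2) • (p + (1 : ℝ) • u) + ((α - β) / 2) •
      (p + (-1 : ℝ) • u) = α • p + β • u by module] at d1
    rw [← max_mul_of_nonneg _ _ hr.le]
    refine d1.trans ?_
    rw [← add_mul]
    refine mul_le_mul_of_nonneg_right ?_ hr.le
    have := le_max_left |β| |α|
    have := le_max_right |β| |α|
    cases abs_cases ((α + β) / 2) <;> cases abs_cases ((α - β) / 2) <;>
      linarith [le_abs_self α, neg_abs_le α, le_abs_self β, neg_abs_le β]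
  refine hN ⟨t * r, r / t, -((s₀ + 1) * t * r), fun v => ?_⟩
  have d1 : v = (v.1 / t - (s₀ + 1) * t * v.2) • p + (t * v.2) • u := by
    ext <;> simp only [hu, hp, hq, Prod.smul_mk, smul_eq_mul, Prod.mk_add_mk] <;> field_simp <;> ring
  rw [d1, key, ← d1, ← abs_of_pos hr, ← abs_mul, ← abs_mul, abs_of_pos hr]
  congr 2 <;> ring

theorem Crit.short (h : Crit ν r c C) {a b : ℝ} (ha : |a| ≤ r / (2 * C)) (hb : |b| ≤ r / (2 * C)) :
    ν (a, b) ≤ r / 2 := by
  have hC := h.hC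
  refine (h.up _).trans ((mul_le_mul_of_nonneg_left (max_le ha hb) hC.le).trans_eq ?_)
  field_simp

theorem Crit.exit (h : Crit ν r c C) (hN : NP ν) (hR : 1 ≤ R) (hR' : r + 1 ≤ c * R) {S : ℝ}
    (hS : 1 ≤ S) : ∃ w ω ε κ : ℝ, 0 < ω ∧ 0 < ε ∧ 0 < κ ∧ ∀ x, |x - w| ≤ ω →
      (∀ σ, 0 < σ → σ ≤ S → ¬ Bd ν (r - ε) σ x) ∧
      ∀ p q : ℤ, q ≠ 0 → |(q : ℝ)| ≤ S → κ ≤ |p + q * x| := by
  have hr := h.hr
  have hC := h.hC
  have ct := h.cont
  obtain ⟨g, ℓ, l0, hg⟩ := h.gap hN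
  obtain ⟨σ₀, σ0, σ1, σ2⟩ : ∃ σ₀ : ℝ, 0 < σ₀ ∧ σ₀ ≤ 1 ∧ σ₀ ≤ r / (2 * C) :=
    ⟨min _ _, by positivity, min_le_left _ _, min_le_right _ _⟩
  obtain ⟨N, H⟩ := h.covB hR hR' (Θ := S / σ₀) ((one_le_div σ0).2 (by linarith))
  obtain ⟨l, l1, l2, l3⟩ : ∃ l : ℝ, 0 < l ∧ l ≤ ℓ ∧ l ≤ 1 / S ^ 2 :=
    ⟨min _ _, by positivity, min_le_left _ _, min_le_right _ _⟩
  set s := l / ((1 + 5 * (N + 7) : ℕ) : ℝ) with hs
  have s0 : 0 < s := by positivity
  have s1 : ((1 + 5 * (N + 7) : ℕ) : ℝ) * s = l := by rw [hs]; field_simp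
  have s2 : s ≤ l := div_le_self l1.le (by norm_cast; omega)
  obtain ⟨κ, κ0, H⟩ := H (s * σ₀ ^ 2) (1 / S) (by positivity) (by positivity)
  have c1 := H σ₀ g σ0
  have c2 := cov_rat (t := S) (ρ := s / 2) (by positivity) (by linarith) g
  rw [mul_div_cancel₀ _ two_ne_zero] at c2
  rw [mul_div_cancel_right₀ _ (by positivity), div_mul_cancel₀ _ σ0.ne'] at c1
  obtain ⟨j, -, hj⟩ := surv (M := 1) (c1.union c2) g s0 le_rfl
  obtain ⟨j1, j2⟩ := hj 0
  have j3 : (j 0 : ℝ) + 1 ≤ ((1 + 5 * (N + 7) : ℕ) : ℝ) := by exact_mod_cast j1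
  have j4 : ∀ x, |x - (g + j 0 * s)| ≤ s → |x - g| ≤ l := fun x hx => by
    rw [abs_le] at hx ⊢
    constructor <;> nlinarith [(Nat.cast_nonneg (j 0) : (0 : ℝ) ≤ j 0), hx.1, hx.2]
  obtain ⟨ε, ε0, hε⟩ := unif ((isCompact_Icc (a := σ₀) (b := S)).prod
    (isCompact_closedBall (g + j 0 * s) s)) (P := fun ε z => ¬ Bd ν (r - ε) z.1 z.2)
    (fun ε ε' z h1 h2 h3 => h2 fun p q h0 => by linarith [h3 p q h0]) (by
    rintro ⟨σ, x⟩ ⟨⟨a1, a2⟩, a3⟩
    have a0 : 0 < σ := σ0.trans_le a1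
    obtain ⟨p, q, h0, b⟩ : ∃ p q : ℤ, (p, q) ≠ (0, 0) ∧ ν (vec σ x p q) < r := by
      by_contra z
      push Not at z
      obtain ⟨m₁, n₁, m₂, n₂, u, hx⟩ := h.fact' (det_base a0.ne' x) fun m n h0 => by
        rw [cmb_vec]; exact z m n h0
      rw [cmb_vec, cmb_vec] at hx
      have g1 := hg x ((j4 x a3).trans l2) σ a0
      have g2 : ∀ m n : ℤ, n ≠ 0 → 1 / S ≤ |(vec σ x m n).2| := fun m n h0 => by
        simp only [vec, abs_div, abs_of_pos a0]
        exact div_le_div₀ (abs_nonneg _) (one_le_abs h0) a0 a2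
      have h2 := hx.rot
      rw [vec_sub] at h2
      have h3 := h2.rot
      rw [vec_sub] at h3
      refine j2 x a3 (Or.inl ⟨(j4 x a3).trans (l3.trans ?_), σ, a1, a2, fun p q h0 => by
        linarith [z p q h0], m₁, n₁, m₂, n₂, u, hx.df ▸ κ0.le, g2 _ _ ?_, g2 _ _ ?_, ?_⟩)
      · gcongr
        · norm_num
        · linarith
      · rintro rfl
        exact (horiz (by linarith) hx).elim g1
      · rintro rfl
        exact (horiz (by linarith) h2).elim g1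
      · rw [vec_sub]
        refine g2 _ _ fun y => ?_
        rw [y] at h3
        exact (horiz (by linear_combination u - m₂ * y) h3).elim g1
    refine ⟨(r - ν (vec σ x p q)) / 2, by linarith, Eventually.mono (ContinuousAt.eventually_lt
      (f := fun z : ℝ × ℝ => ν (vec z.1 z.2 p q)) ?_ continuousAt_const (by simp only; linarith))
      fun z hz y => lt_asymm hz (y p q h0)⟩
    unfold vec
    fun_prop (disch := exact a0.ne'))
  refine ⟨g + j 0 * s, s, min ε (r / 2), s / 2, s0, by positivity, by positivity,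
    fun x hx => ⟨fun σ a0 a1 hb => ?_, fun p q h0 hq => ?_⟩⟩
  · rcases le_total σ σ₀ with a | a
    · have := h.short (a := σ) (b := 0) (by rw [abs_of_pos a0]; linarith) (by simp; positivity)
      have b := hb 1 0 (by simp)
      simp only [vec, Int.cast_one, Int.cast_zero, zero_mul, add_zero, mul_one, zero_div] at b
      linarith [min_le_right ε (r / 2)]
    · exact hε (σ, x) ⟨⟨a, a1⟩, hx⟩ fun p q h0 => by linarith [hb p q h0, min_le_left ε (r / 2)]
  · by_contra z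
    refine j2 x hx (Or.inr ⟨(j4 x hx).trans l3, p, q, h0, hq, ?_⟩)
    have q0 : (q : ℝ) ≠ 0 := Int.cast_ne_zero.2 h0
    rw [show x + p / q = (p + q * x) / q by field_simp; ring, abs_div]
    exact (div_le_self (abs_nonneg _) (one_le_abs h0)).trans (not_le.1 z).le

end Pool.Agent.P.MP_613544_nt
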