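import Pool.Agent.P.MP_613544_nt.Sep

/-!
The step of the game, its limit points, and the way out of the cusp.
-/

set_option autoImplicit false

noncomputable section

namespace Pool.Agent.P.MP_613544_nt

open Filter Topology

variable {ν : Seminorm ℝ (ℝ × ℝ)} {r c C R : ℝ}

theorem surv {N n M : ℕ} {s : ℝ} {D : Set ℝ} (h : Cov N s D) (α : ℝ) (hs : 0 < s)
    (hn : M + 5 * N ≤ n) : ∃ j : Fin M → ℕ, Function.Injective j ∧
      ∀ i, j i < n ∧ ∀ x, |x - (α + j i * s)| ≤ s → x ∉ D := by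
  obtain ⟨Y, a, b⟩ := h
  set K : Finset ℕ := Y.biUnion fun y => (Finset.range 5).image fun i => ⌈(y - α) / s - 2⌉₊ + i
  have k1 : K.card ≤ 5 * N := (Finset.card_biUnion_le_card_mul _ _ 5 fun y _ =>
    Finset.card_image_le.trans (by simp)).trans (by omega)
  have k2 : M ≤ (Finset.range n \ K).card := by
    have := Finset.le_card_sdiff K (Finset.range n)
    rw [Finset.card_range] at this
    omega
  refine ⟨(Finset.range n \ K).orderEmbOfCardLe k2, RelEmbedding.injective _, fun i => ?_⟩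
  obtain ⟨m1, m2⟩ := Finset.mem_sdiff.1 (Finset.orderEmbOfCardLe_mem _ k2 i)
  refine ⟨Finset.mem_range.1 m1, fun x hx hD => m2 ?_⟩
  generalize (Finset.range n \ K).orderEmbOfCardLe k2 i = j at *
  obtain ⟨y, y1, y2⟩ := b x hD
  rw [abs_le] at hx y2
  have c1 : ⌈(y - α) / s - 2⌉₊ ≤ j := Nat.ceil_le.2 (by
    rw [sub_le_iff_le_add, div_le_iff₀ hs]; linarith)
  have c2 : (j : ℝ) ≤ ⌈(y - α) / s - 2⌉₊ + 4 := by
    have : (j : ℝ) - 2 ≤ (y - α) / s := by rw [le_div_iff₀ hs]; linarith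
    linarith [Nat.le_ceil ((y - α) / s - 2)]
  have c3 : j ≤ ⌈(y - α) / s - 2⌉₊ + 4 := by exact_mod_cast c2
  exact Finset.mem_biUnion.2 ⟨y, y1, Finset.mem_image.2 ⟨j - ⌈(y - α) / s - 2⌉₊,
    Finset.mem_range.2 (by omega), by omega⟩⟩

theorem one_le_abs {q : ℤ} (h : q ≠ 0) : (1 : ℝ) ≤ |(q : ℝ)| := by
  exact_mod_cast Int.one_le_abs h

theorem cov_rat {t ρ : ℝ} (ht : 0 < t) (hρ : ρ ≤ 1 / t ^ 2) (x₀ : ℝ) : Cov 7 (2 * ρ)
    {x | |x - x₀| ≤ 1 / t ^ 2 ∧ ∃ p q : ℤ, q ≠ 0 ∧ |(q : ℝ)| ≤ t ∧ |x + p / q| ≤ ρ} := by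
  have t2 : 0 < t ^ 2 := by positivity
  refine (cov_types (Finset.Icc (-3 : ℤ) 3) (fun z x => ∃ p q : ℤ, q ≠ 0 ∧ |(q : ℝ)| ≤ t ∧
    |x + p / q| ≤ ρ ∧ ⌊(p / q + x₀) * t ^ 2⌋ = z) ?_ ?_).mono (by simp) le_rfl le_rfl
  · rintro x ⟨a, p, q, a1, a2, a3⟩
    refine ⟨_, Finset.mem_Icc.2 ?_, p, q, a1, a2, a3, rfl⟩
    have : |p / q + x₀| ≤ 2 / t ^ 2 := by
      rw [abs_le] at *
      have : 2 / t ^ 2 = 1 / t ^ 2 + 1 / t ^ 2 := by ring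
      constructor <;> linarith [a.1, a.2, a3.1, a3.2]
    rw [le_div_iff₀ t2, ← abs_of_pos t2, ← abs_mul, abs_le] at this
    exact ⟨Int.le_floor.2 (by push_cast; linarith), Int.floor_le_iff.2 (by push_cast; linarith)⟩
  · rintro z x y ⟨p, q, a1, a2, a3, a4⟩ ⟨p', q', b1, b2, b3, b4⟩
    have c1 := Int.abs_sub_lt_one_of_floor_eq_floor (a4.trans b4.symm)
    have q0 : (q : ℝ) ≠ 0 := Int.cast_ne_zero.2 a1
    have q1 : (q' : ℝ) ≠ 0 := Int.cast_ne_zero.2 b1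
    have e : (p : ℝ) / q = p' / q' := by
      by_contra z
      have c2 := one_le_abs (q := p * q' - p' * q) fun y => z (by
        rw [div_eq_div_iff q0 q1, ← sub_eq_zero]; exact_mod_cast y)
      rw [show ((p * q' - p' * q : ℤ) : ℝ) = (p / q - p' / q') * q * q' by
        push_cast; field_simp, abs_mul, abs_mul] at c2
      rw [← sub_mul, add_sub_add_right_eq_sub, abs_mul, abs_of_pos t2] at c1
      have : |(p : ℝ) / q - p' / q'| * |(q : ℝ)| * |(q' : ℝ)| ≤ |(p : ℝ) / q - p' / q'| * t * t := by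
        gcongr
      nlinarith
    rw [e, abs_le] at a3
    rw [abs_le] at b3 ⊢
    constructor <;> linarith [a3.1, a3.2, b3.1, b3.2]

/-- No good approximation with denominator at most `u`. -/
def Bs (R κ u x : ℝ) : Prop :=
  ∀ p q : ℤ, (p, q) ≠ (0, 0) → |(q : ℝ)| ≤ u → κ ≤ |(q : ℝ)| * |p + q * x| ∨ R < u * |p + q * x|

theorem Bs.hl {κ η u τ x : ℝ} (h : Bs R κ u x) (hR : 1 ≤ R) (h0 : 0 < u) (h1 : u ≤ τ)
    (h2 : η * τ ≤ u) (h3 : η * R ≤ κ) : Hl R η τ x := fun p q hn => by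
  have τ0 : 0 < τ := by linarith
  simp only [vec, abs_mul, abs_div, abs_of_pos τ0]
  by_contra z
  push Not at z
  obtain ⟨z1, z2⟩ := z
  rw [div_lt_iff₀ τ0] at z1
  have n0 := abs_nonneg (p + q * x)
  have n1 := abs_nonneg (q : ℝ)
  rcases h p q hn (by linarith) with a | a
  · have : τ * (|(q : ℝ)| * |p + q * x|) ≤ |(q : ℝ)| * R := by nlinarith
    nlinarith
  · nlinarith

/-- The step of the game. -/
def StepP (ν : Seminorm ℝ (ℝ × ℝ)) (s R κ : ℝ) (b M : ℕ) : Prop :=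
  ∀ u x₀ : ℝ, 0 < u → (∀ x, |x - x₀| ≤ 2 / (b * u) ^ 2 → Bs R κ u x) → ∃ c : Fin M → ℝ,
    (∀ i j, i ≠ j → 2 / (b * (b * u)) ^ 2 ≤ |c i - c j|) ∧ ∀ i,
      |c i - x₀| + 4 / (b * (b * u)) ^ 2 ≤ 1 / (b * u) ^ 2 ∧
      ∀ x, |x - c i| ≤ 2 / (b * (b * u)) ^ 2 →
        Bs R κ (b * u) x ∧ ∀ τ, u ≤ τ → τ ≤ b * u → ¬ Bd ν s τ x

theorem Crit.step (h : Crit ν r c C) (hR : 1 ≤ R) (hR' : r + 1 ≤ c * R) :
    ∃ N : ℕ, ∀ (b M : ℕ) (κ η : ℝ), 2 ≤ b → M + 5 * (b * N + 7) + 3 ≤ b ^ 2 → κ ≤ 1 / b ^ 4 →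
      0 < η → η * b ≤ 1 → η * R ≤ κ → ∃ ε, 0 < ε ∧ StepP ν (r - ε) R κ b M := by
  obtain ⟨N, hN⟩ := h.covA hR hR' one_le_two
  refine ⟨N, fun b M κ η hb hM hκ η0 η1 η2 => ?_⟩
  have b2 : (2 : ℝ) ≤ b := by exact_mod_cast hb
  have b0 : (0 : ℝ) < b := by linarith
  obtain ⟨ε, ε0, H⟩ := hN (2 / b ^ 4) η (by positivity) η0
  refine ⟨ε, ε0, fun u x₀ u0 hB => ?_⟩
  set s := 2 / (b * (b * u)) ^ 2 with hs
  have s0 : 0 < s := by positivity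
  have s1 : 1 / (b * u) ^ 2 = b ^ 2 * s / 2 := by rw [hs]; field_simp
  have c1 := cov_range (fun j : ℕ => (H ((j + 1) * u) x₀ (by positivity)).mono le_rfl
    (show _ ≤ s by
      rw [hs, div_div, show (b * (b * u)) ^ 2 = b ^ 4 * (1 * u) ^ 2 by ring]
      gcongr
      simp) le_rfl) b
  have c2 := cov_rat (t := b * u) (ρ := s / 2) (by positivity) (by
    rw [s1]; nlinarith [mul_le_mul_of_nonneg_right (show 1 ≤ (b : ℝ) ^ 2 by nlinarith) s0.le]) x₀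
  rw [mul_div_cancel₀ _ two_ne_zero] at c2
  obtain ⟨j, j1, j2⟩ := surv (c1.union c2) (x₀ - b ^ 2 * s / 2 + 2 * s) s0
    (Nat.le_sub_of_add_le hM)
  refine ⟨fun i => x₀ - b ^ 2 * s / 2 + 2 * s + j i * s, fun i i' hi => ?_, fun i => ?_⟩
  · rw [add_sub_add_left_eq_sub, ← sub_mul, abs_mul, abs_of_pos s0]
    have := one_le_abs (q := j i - j i') (sub_ne_zero.2 fun z => hi (j1 (by exact_mod_cast z)))
    push_cast at this
    nlinarith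
  have d1 : (j i : ℝ) + 4 ≤ b ^ 2 := by
    have := (j2 i).1
    exact_mod_cast (by omega : j i + 4 ≤ b ^ 2)
  have d0 : (0 : ℝ) ≤ j i := Nat.cast_nonneg _
  have d2 : |x₀ - b ^ 2 * s / 2 + 2 * s + j i * s - x₀| + 2 * s ≤ b ^ 2 * s / 2 := by
    rw [← le_sub_iff_add_le, abs_le]
    constructor <;> nlinarith
  refine ⟨by rw [s1]; convert d2 using 2; rw [hs]; ring, fun x hx => ?_⟩
  have d3 := (j2 i).2 x hx
  have d4 : |x - x₀| ≤ 1 / (b * u) ^ 2 := by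
    rw [s1]
    linarith [abs_sub_le x (x₀ - b ^ 2 * s / 2 + 2 * s + j i * s) x₀]
  have d5 : |x - x₀| ≤ 2 / (b * u) ^ 2 := d4.trans (by gcongr; norm_num)
  have hx' := hB x d5
  refine ⟨fun p q h0 hq => ?_, fun τ t1 t2 hd => d3 (Or.inl ?_)⟩
  · rcases le_or_gt |(q : ℝ)| u with a | a
    · exact (hx' p q h0 a).imp_right fun g => g.trans_le (by gcongr; nlinarith)
    have q0 : (q : ℝ) ≠ 0 := abs_pos.1 (u0.trans a)
    refine Or.inl (not_lt.1 fun g => d3 (Or.inr ⟨d4, p, q, Int.cast_ne_zero.1 q0, hq, ?_⟩))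
    rw [show x + p / q = q * (p + q * x) / q ^ 2 by field_simp; ring, abs_div, abs_mul, abs_pow,
      show s / 2 = 1 / b ^ 4 / u ^ 2 by rw [hs]; field_simp]
    gcongr
    linarith
  · have e1 : 1 ≤ ⌊τ / u⌋₊ := Nat.floor_pos.2 ((one_le_div u0).2 t1)
    have e2 : ⌊τ / u⌋₊ ≤ b := Nat.floor_le_of_le (by rwa [div_le_iff₀ u0])
    have e3 := Nat.floor_le (div_nonneg (u0.le.trans t1) u0.le)
    have e4 := Nat.lt_floor_add_one (τ / u)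
    obtain ⟨k, hk⟩ : ∃ k, ⌊τ / u⌋₊ = k + 1 := ⟨_, (Nat.sub_add_cancel e1).symm⟩
    rw [hk] at e2 e3 e4
    push_cast at e3 e4
    rw [le_div_iff₀ u0] at e3
    rw [div_lt_iff₀ u0] at e4
    have e5 : (k : ℝ) + 1 ≤ b := by exact_mod_cast e2
    exact ⟨k, e2, d5.trans (by gcongr), τ, e3, by nlinarith [(Nat.cast_nonneg k : (0 : ℝ) ≤ k)],
      hd, hx'.hl hR u0 t1 (by nlinarith) η2⟩

theorem exists_seq_of_forall_exists_nat {P : ℕ → ℝ → Prop} {Q : ℕ → ℝ → ℝ → Prop} (x₀ : ℝ)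
    (h0 : P 0 x₀) (h : ∀ n y, P n y → ∃ y', P (n + 1) y' ∧ Q n y y') :
    ∃ y : ℕ → ℝ, y 0 = x₀ ∧ ∀ n, P n (y n) ∧ Q n (y n) (y (n + 1)) := by
  choose! f f1 f2 using h
  let y : ℕ → ℝ := fun n => Nat.rec x₀ f n
  have a : ∀ n, P n (y n) := fun n => Nat.rec h0 (fun n ih => f1 n _ ih) n
  exact ⟨y, rfl, fun n => ⟨a n, f2 n _ (a n)⟩⟩

theorem StepP.lim {s κ η u x₀ : ℝ} {b M : ℕ} (h : StepP ν s R κ b M) (hM : 0 < M) (hb : 2 ≤ b)
    (hR : 1 ≤ R) (η1 : η * b ≤ 1) (η2 : η * R ≤ κ) (u0 : 0 < u)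
    (hB : ∀ x, |x - x₀| ≤ 2 / (b * u) ^ 2 → Bs R κ u x) :
    ∃ z, |z - x₀| + 3 / (b * (b * u)) ^ 2 ≤ 1 / (b * u) ^ 2 ∧ ∀ τ, u ≤ τ → ∀ x,
      |x - z| ≤ 1 / (b * (b * τ)) ^ 2 → ¬ Bd ν s τ x ∧ Hl R η τ x := by
  have b2 : (2 : ℝ) ≤ b := by exact_mod_cast hb
  have b0 : (0 : ℝ) < b := by linarith
  have e : ∀ n : ℕ, (b : ℝ) ^ (n + 1) * u = b * (b ^ n * u) := fun n => by ring
  obtain ⟨y, y0, y1⟩ := exists_seq_of_forall_exists_nat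
    (P := fun (n : ℕ) y => ∀ x, |x - y| ≤ 2 / (b * (b ^ n * u)) ^ 2 → Bs R κ (b ^ n * u) x)
    (Q := fun (n : ℕ) y y' => |y' - y| + 4 / (b * (b ^ (n + 1) * u)) ^ 2 ≤ 1 / (b * (b ^ n * u)) ^ 2 ∧
      ∀ x, |x - y'| ≤ 2 / (b * (b ^ (n + 1) * u)) ^ 2 → ∀ τ, b ^ n * u ≤ τ → τ ≤ b ^ (n + 1) * u →
        ¬ Bd ν s τ x) x₀ (by simpa using hB) fun n y hy => by
    obtain ⟨c, -, hc⟩ := h _ y (by positivity) hy
    rw [e]
    exact ⟨c ⟨0, hM⟩, fun x hx => ((hc _).2 x hx).1, (hc _).1, fun x hx => ((hc _).2 x hx).2⟩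
  have f : ∀ v : ℝ, 4 / v ^ 2 = 4 * (1 / v ^ 2) ∧ 3 / v ^ 2 = 3 * (1 / v ^ 2) ∧
      2 / v ^ 2 = 2 * (1 / v ^ 2) ∧ 0 ≤ 1 / v ^ 2 := fun v => ⟨by ring, by ring, by ring, by positivity⟩
  obtain ⟨z, hz⟩ := IsCompact.nonempty_iInter_of_sequence_nonempty_isCompact_isClosed
    (fun n => Metric.closedBall (y n) (1 / (b * (b ^ n * u)) ^ 2)) (fun n =>
      Metric.closedBall_subset_closedBall' (by
        rw [Real.dist_eq]
        linarith [(y1 n).2.1, f (b * (b ^ (n + 1) * u))]))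
    (fun n => Metric.nonempty_closedBall.2 (by positivity)) (isCompact_closedBall _ _)
    fun n => Metric.isClosed_closedBall
  simp only [Set.mem_iInter, Metric.mem_closedBall, Real.dist_eq] at hz
  refine ⟨z, ?_, fun τ t1 x hx => ?_⟩
  · have a1 := (y1 0).2.1
    have a2 := hz 1
    simp only [y0, zero_add, pow_one, pow_zero, one_mul] at a1 a2
    linarith [abs_sub_le z (y 1) x₀, f (b * (b * u))]
  obtain ⟨n, n1, n2⟩ := exists_nat_pow_near ((one_le_div u0).2 t1) (by linarith : (1 : ℝ) < b)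
  rw [le_div_iff₀ u0] at n1
  rw [div_lt_iff₀ u0] at n2
  have a1 : |x - z| ≤ 1 / (b * (b ^ (n + 1) * u)) ^ 2 := hx.trans (by rw [e]; gcongr)
  have a2 : |x - y (n + 1)| ≤ 2 / (b * (b ^ (n + 1) * u)) ^ 2 := by
    linarith [abs_sub_le x z (y (n + 1)), hz (n + 1), f (b * (b ^ (n + 1) * u))]
  refine ⟨(y1 n).2.2 x a2 τ n1 n2.le, ((y1 n).1 x ?_).hl hR (by positivity) n1 ?_ η2⟩
  · linarith [abs_sub_le x (y (n + 1)) (y n), (y1 n).2.1, f (b * (b ^ (n + 1) * u)),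
      f (b * (b ^ n * u))]
  · rw [e] at n2
    nlinarith [show 0 < (b : ℝ) ^ n * u by positivity]

end Pool.Agent.P.MP_613544_nt
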