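import Pool.Agent.P.MP_613544_nt.St

/-!
Inscribed hexagons and critical lattices of a norm on the plane.
-/

set_option autoImplicit false

noncomputable section

namespace Pool.Agent.P.MP_613544_nt

/-- The determinant of two vectors. -/
def det (e f : ℝ × ℝ) : ℝ := e.1 * f.2 - e.2 * f.1

/-- Integer combinations of two vectors. -/
def cmb (e f : ℝ × ℝ) (m n : ℤ) : ℝ × ℝ := (m : ℝ) • e + (n : ℝ) • f

/-- An inscribed affine regular hexagon. -/
def Hx (ν : Seminorm ℝ (ℝ × ℝ)) (r : ℝ) (P Q : ℝ × ℝ) : Prop :=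
  ν P = r ∧ ν Q = r ∧ ν (Q - P) = r

/-- Admissible lattices. -/
def Adm (ν : Seminorm ℝ (ℝ × ℝ)) (r : ℝ) (e f : ℝ × ℝ) : Prop :=
  ∀ m n : ℤ, (m, n) ≠ (0, 0) → r ≤ ν (cmb e f m n)

/-- The facts used about the norm and its critical radius. -/
structure Crit (ν : Seminorm ℝ (ℝ × ℝ)) (r c C : ℝ) : Prop where
  hr : 0 < r
  hc : 0 < c
  lo : ∀ v, c * ‖v‖ ≤ ν v
  up : ∀ v, ν v ≤ C * ‖v‖
  small : ∀ e f, det e f = 1 → ∀ r', r < r' → ∃ m n : ℤ, (m, n) ≠ (0, 0) ∧ ν (cmb e f m n) ≤ r'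
  sharp : ∀ r', r' < r → ∃ e f, det e f = 1 ∧ ∀ m n : ℤ, (m, n) ≠ (0, 0) → r' < ν (cmb e f m n)

variable {ν : Seminorm ℝ (ℝ × ℝ)} {r c C : ℝ} {P Q p q : ℝ × ℝ}

theorem nsm (ν : Seminorm ℝ (ℝ × ℝ)) {a : ℝ} (ha : 0 ≤ a) (v : ℝ × ℝ) : ν (a • v) = a * ν v := by
  rw [map_smul_eq_mul, Real.norm_eq_abs, abs_of_nonneg ha]

theorem nsm' (ν : Seminorm ℝ (ℝ × ℝ)) (a : ℝ) (v : ℝ × ℝ) : ν (a • v) = |a| * ν v := by
  rw [map_smul_eq_mul, Real.norm_eq_abs]

theorem nadd (ν : Seminorm ℝ (ℝ × ℝ)) {a b : ℝ} (ha : 0 ≤ a) (hb : 0 ≤ b) (u v : ℝ × ℝ) :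
    ν (a • u + b • v) ≤ a * ν u + b * ν v := by
  rw [← nsm ν ha, ← nsm ν hb]
  exact map_add_le_add ν _ _

theorem Crit.hC (h : Crit ν r c C) : 0 < C := by
  have a1 := h.lo (1, 0)
  have a2 := h.up (1, 0)
  have := h.hc
  simp only [Prod.norm_mk, norm_one, norm_zero, zero_le_one, sup_of_le_left, mul_one] at a1 a2
  linarith

theorem Crit.cont (h : Crit ν r c C) : Continuous ν := by
  refine (LipschitzWith.of_dist_le_mul (K := ⟨C, h.hC.le⟩) fun u v => ?_).continuous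
  rw [Real.dist_eq, dist_eq_norm]
  exact (ν.norm_sub_map_le_sub u v).trans (h.up _)

theorem Crit.noadm (h : Crit ν r c C) (h0 : 0 < det p q) (h1 : det p q < 1) : ¬ Adm ν r p q := by
  intro ha
  have hr := h.hr
  set l : ℝ := √(1 / det p q) with hl
  have l2 : l * l = 1 / det p q := Real.mul_self_sqrt (by positivity)
  have l1 : 1 < l := by
    rw [hl, Real.lt_sqrt zero_le_one, one_pow, lt_div_iff₀ h0]
    linarith
  have hd : det (l • p) (l • q) = 1 := by
    have : det (l • p) (l • q) = l * l * det p q := by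
      simp only [det, Prod.smul_fst, Prod.smul_snd, smul_eq_mul]; ring
    rw [this, l2]
    field_simp
  obtain ⟨m, n, hn, hv⟩ := h.small _ _ hd ((r + l * r) / 2) (by nlinarith)
  have e1 : cmb (l • p) (l • q) m n = l • cmb p q m n := by
    simp only [cmb, smul_add, smul_comm l]
  rw [e1, nsm ν (by linarith)] at hv
  have := ha m n hn
  nlinarith

theorem Hx.rot (h : Hx ν r P Q) : Hx ν r Q (Q - P) :=
  ⟨h.2.1, h.2.2, by rw [sub_sub_cancel_left, map_neg_eq_map, h.1]⟩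

theorem Hx.neg (h : Hx ν r P Q) : Hx ν r (-P) (-Q) :=
  ⟨by rw [map_neg_eq_map, h.1], by rw [map_neg_eq_map, h.2.1], by
    rw [neg_sub_neg, map_sub_rev, h.2.2]⟩

theorem Hx.ge1 (h : Hx ν r P Q) {a b : ℝ} (ha : 0 ≤ a) (hb : 0 ≤ b) :
    a * r ≤ ν (a • P + b • Q) := by
  have e1 : (a + b) • P = (1 : ℝ) • (a • P + b • Q) + b • (P - Q) := by module
  have a1 := nadd ν zero_le_one hb (a • P + b • Q) (P - Q)
  rw [← e1, nsm ν (add_nonneg ha hb), h.1, map_sub_rev, h.2.2] at a1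
  linarith

theorem Hx.ge2 (h : Hx ν r P Q) {a b : ℝ} (ha : 0 ≤ a) (hb : 0 ≤ b) :
    b * r ≤ ν (a • P + b • Q) := by
  have e1 : (a + b) • Q = (1 : ℝ) • (a • P + b • Q) + a • (Q - P) := by module
  have a1 := nadd ν zero_le_one ha (a • P + b • Q) (Q - P)
  rw [← e1, nsm ν (add_nonneg ha hb), h.2.1, h.2.2] at a1
  linarith

theorem Hx.pos (h : Hx ν r P Q) (hr : 0 ≤ r) {a b : ℝ} (ha : 0 ≤ a) (hb : 0 ≤ b)
    (h1 : 1 ≤ a ∨ 1 ≤ b) : r ≤ ν (a • P + b • Q) := by
  rcases h1 with h1 | h1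
  · exact le_trans (by nlinarith) (h.ge1 ha hb)
  · exact le_trans (by nlinarith) (h.ge2 ha hb)

theorem Hx.adm (h : Hx ν r P Q) (hr : 0 ≤ r) : Adm ν r P Q := by
  have key : ∀ m n : ℤ, 0 ≤ n → (m, n) ≠ (0, 0) → r ≤ ν (cmb P Q m n) := by
    intro m n hn h0
    have h0' : ¬ (m = 0 ∧ n = 0) := by simpa using h0
    by_cases hm : 0 ≤ m
    · exact h.pos hr (by exact_mod_cast hm) (by exact_mod_cast hn)
        (by rcases (by omega : 1 ≤ m ∨ 1 ≤ n) with z | z
            exacts [Or.inl (by exact_mod_cast z), Or.inr (by exact_mod_cast z)])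
    by_cases hk : 0 ≤ m + n
    · have e1 : cmb P Q m n = ((m + n : ℤ) : ℝ) • Q + ((-m : ℤ) : ℝ) • (Q - P) := by
        simp only [cmb]; push_cast; module
      rw [e1]
      exact h.rot.pos hr (by exact_mod_cast hk) (by exact_mod_cast (by omega : 0 ≤ -m))
        (Or.inr (by exact_mod_cast (by omega : 1 ≤ -m)))
    · have e1 : cmb P Q m n = ((n : ℤ) : ℝ) • (Q - P) + ((-(m + n) : ℤ) : ℝ) • (Q - P - Q) := by
        simp only [cmb]; push_cast; module
      rw [e1]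
      exact h.rot.rot.pos hr (by exact_mod_cast hn) (by exact_mod_cast (by omega : 0 ≤ -(m + n)))
        (Or.inr (by exact_mod_cast (by omega : 1 ≤ -(m + n))))
  intro m n h0
  by_cases hn : 0 ≤ n
  · exact key m n hn h0
  · have e1 : cmb P Q m n = -cmb P Q (-m) (-n) := by simp only [cmb]; push_cast; module
    rw [e1, map_neg_eq_map]
    exact key _ _ (by omega) (by simp only [ne_eq, Prod.mk.injEq]; omega)

/-- A point of the sphere near a vertex of the hexagon lies in the outer triangles. -/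
theorem Hx.vertex (h : Hx ν r P Q) (hr : 0 < r) {x y : ℝ} (h1 : 0 ≤ 1 + x) (h2 : 0 ≤ 1 + x + y)
    (hv : ν ((1 + x) • P + y • Q) = r) : x * (x + y) ≤ 0 := by
  by_cases hy : 0 ≤ y
  · have a1 := h.ge1 h1 hy
    have a2 := nadd ν h1 hy P Q
    rw [hv] at a1 a2
    rw [h.1, h.2.1] at a2
    exact mul_nonpos_of_nonpos_of_nonneg (by nlinarith) (by nlinarith)
  · have g : Hx ν r (P - Q) P := by
      have := h.neg.rot.rot
      refine ⟨by rw [map_sub_rev, h.2.2], h.1, by rw [sub_sub_cancel, h.2.1]⟩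
    have e1 : (1 + x) • P + y • Q = (-y) • (P - Q) + (1 + x + y) • P := by module
    have hy' : 0 ≤ -y := by linarith
    have a1 := g.ge2 hy' h2
    have a2 := nadd ν hy' h2 (P - Q) P
    rw [← e1, hv] at a1 a2
    rw [g.1, h.1] at a2
    exact mul_nonpos_of_nonneg_of_nonpos (by nlinarith) (by nlinarith)

theorem alg_core {a a' c c' : ℝ} (h1 : 0 ≤ a) (h2 : 0 ≤ a') (h3 : 0 ≤ c * c')
    (h4 : 0 ≤ (a + a' - c) * (-a + c + c')) (h5 : a * c' + a' * c + a' * c' = 0 ∧ a = c ∨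
      (c ≤ 0 ∧ c' ≤ 0)) :
    (a = 0 ∧ a' = 0) ∨ (c = 0 ∧ c' = 0) ∨ (a' = 0 ∧ c' = 0 ∧ a = c) := by
  rcases h5 with ⟨h5, rfl⟩ | ⟨h5, h6⟩
  · by_cases z : a = 0
    · subst z
      have : a' * c' = 0 := by linarith
      rcases mul_eq_zero.1 this with z | z
      exacts [Or.inl ⟨rfl, z⟩, Or.inr (Or.inl ⟨rfl, z⟩)]
    · have ap : 0 < a := lt_of_le_of_ne h1 (Ne.symm z)
      have cp : 0 ≤ c' := nonneg_of_mul_nonneg_right h3 ap
      have b1 : a * c' = 0 := by nlinarith [mul_nonneg h2 h1, mul_nonneg h2 cp]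
      have b2 : a' * a = 0 := by nlinarith [mul_nonneg h1 cp, mul_nonneg h2 cp]
      exact Or.inr (Or.inr ⟨(mul_eq_zero.1 b2).resolve_right z, (mul_eq_zero.1 b1).resolve_left z,
        rfl⟩)
  · have b1 : (a + a' - c) * (-a + c + c') = 0 :=
      le_antisymm (mul_nonpos_of_nonneg_of_nonpos (by linarith) (by linarith)) h4
    rcases mul_eq_zero.1 b1 with z | z
    · exact Or.inl ⟨by linarith, by linarith⟩
    · exact Or.inr (Or.inl ⟨by linarith, by linarith⟩)

theorem alg_T {x₁ x₂ x₃ x₄ : ℝ} (h1 : x₁ * (x₁ + x₂) ≤ 0) (h2 : (x₃ + x₄) * x₄ ≤ 0)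
    (h3 : (x₄ - x₂) * (x₁ - x₃) ≤ 0) (hd : (1 + x₁) * (1 + x₄) - x₂ * x₃ = 1) (ht : 0 ≤ x₁ + x₄) :
    (x₁ = 0 ∧ x₂ = 0) ∨ (x₃ = 0 ∧ x₄ = 0) ∨ (x₁ = x₃ ∧ x₂ = x₄) := by
  have s1 : (0 ≤ -x₁ ∧ 0 ≤ x₁ + x₂) ∨ (-x₁ ≤ 0 ∧ x₁ + x₂ ≤ 0) :=
    mul_nonneg_iff.1 (by linarith)
  have s2 : (0 ≤ x₄ ∧ 0 ≤ -(x₃ + x₄)) ∨ (x₄ ≤ 0 ∧ -(x₃ + x₄) ≤ 0) :=
    mul_nonneg_iff.1 (by linarith)
  rcases s1 with ⟨a1, a2⟩ | ⟨a1, a2⟩
  · have := alg_core (c := x₄) (c' := -(x₃ + x₄)) a1 a2 (by linarith) (by linarith) (by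
      rcases s2 with ⟨b1, b2⟩ | ⟨b1, b2⟩
      · have := mul_nonneg a1 b2
        have := mul_nonneg a2 b1
        have := mul_nonneg a2 b2
        exact Or.inl ⟨by nlinarith, by nlinarith⟩
      · exact Or.inr ⟨b1, b2⟩)
    rcases this with z | z | z
    · exact Or.inl ⟨by linarith [z.1], by linarith [z.1, z.2]⟩
    · exact Or.inr (Or.inl ⟨by linarith [z.1, z.2], z.1⟩)
    · exact Or.inr (Or.inr ⟨by linarith [z.1, z.2.1, z.2.2], by linarith [z.1, z.2.1, z.2.2]⟩)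
  · have := alg_core (a := x₁) (a' := -(x₁ + x₂)) (c := -x₄) (c' := x₃ + x₄) (by linarith)
      (by linarith) (by linarith) (by linarith) (by
      rcases s2 with ⟨b1, b2⟩ | ⟨b1, b2⟩
      · exact Or.inr ⟨by linarith, by linarith⟩
      · have := mul_nonneg_of_nonpos_of_nonpos a1 b2
        have := mul_nonneg_of_nonpos_of_nonpos a2 b1
        have := mul_nonneg_of_nonpos_of_nonpos a2 b2
        exact Or.inl ⟨by nlinarith, by nlinarith⟩)
    rcases this with z | z | z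
    · exact Or.inl ⟨by linarith [z.1], by linarith [z.1, z.2]⟩
    · exact Or.inr (Or.inl ⟨by linarith [z.1, z.2], by linarith [z.1]⟩)
    · exact Or.inr (Or.inr ⟨by linarith [z.1, z.2.1, z.2.2], by linarith [z.1, z.2.1, z.2.2]⟩)

/-- Two nearby hexagons of the same area related by a map of trace at least two share a vertex. -/
theorem Hx.rigid (h : Hx ν r P Q) (hr : 0 < r) {x₁ x₂ x₃ x₄ : ℝ} (b1 : |x₁| ≤ 1 / 2)
    (b2 : |x₂| ≤ 1 / 2) (b3 : |x₃| ≤ 1 / 2) (b4 : |x₄| ≤ 1 / 2)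
    (h' : Hx ν r ((1 + x₁) • P + x₂ • Q) (x₃ • P + (1 + x₄) • Q))
    (hd : (1 + x₁) * (1 + x₄) - x₂ * x₃ = 1) (ht : 0 ≤ x₁ + x₄) :
    (x₁ = 0 ∧ x₂ = 0) ∨ (x₃ = 0 ∧ x₄ = 0) ∨ (x₁ = x₃ ∧ x₂ = x₄) := by
  obtain ⟨b1, b1'⟩ := abs_le.1 b1
  obtain ⟨b2, b2'⟩ := abs_le.1 b2
  obtain ⟨b3, b3'⟩ := abs_le.1 b3
  obtain ⟨b4, b4'⟩ := abs_le.1 b4
  have a1 := h.vertex hr (x := x₁) (y := x₂) (by linarith) (by linarith) h'.1
  have a2 := h.rot.vertex hr (x := x₃ + x₄) (y := -x₃) (by linarith) (by linarith) (by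
    rw [← h'.2.1]; congr 1; module)
  have a3 := h.rot.rot.vertex hr (x := x₄ - x₂) (y := x₁ - x₃ - x₄ + x₂) (by linarith)
    (by linarith) (by rw [← h'.2.2]; congr 1; module)
  exact alg_T a1 (by linarith) (by linarith) hd ht

theorem conv3 (ν : Seminorm ℝ (ℝ × ℝ)) (p q : ℝ × ℝ) {x y z : ℝ} (h1 : x ≤ y) (h2 : y ≤ z) :
    (z - x) * ν (q + y • p) ≤ (z - y) * ν (q + x • p) + (y - x) * ν (q + z • p) := by
  have a1 := nadd ν (sub_nonneg.2 h2) (sub_nonneg.2 h1) (q + x • p) (q + z • p)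
  have e1 : (z - y) • (q + x • p) + (y - x) • (q + z • p) = (z - x) • (q + y • p) := by module
  rwa [e1, nsm ν (by linarith)] at a1

/-- Three collinear points of the sphere span a supporting line. -/
theorem flat {x y z : ℝ} (h1 : x < y) (h2 : y < z) (e1 : ν (q + x • p) = r) (e2 : ν (q + y • p) = r)
    (e3 : ν (q + z • p) = r) (s : ℝ) : r ≤ ν (q + s • p) := by
  rcases le_total y s with hs | hs
  · have := conv3 ν p q h1.le hs
    rw [e1, e2] at this
    nlinarith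
  · have := conv3 ν p q hs h2.le
    rw [e2, e3] at this
    nlinarith

theorem Crit.exists_hx (h : Crit ν r c C) (hd : det p q = 1) (hp : ν p = r) :
    ∃ a l : ℝ, 0 < l ∧ Hx ν r p (a • p + l • q) := by
  have hr := h.hr
  let u : ℝ → ℝ × ℝ := fun t => (1 - 2 * t) • p + (t * (1 - t)) • q
  have cu : Continuous u := by fun_prop
  have hu : ∀ t, 0 < ν (u t) := by
    intro t
    by_contra z
    have z1 : u t = 0 := by
      have := h.lo (u t)
      have := h.hc
      exact norm_le_zero_iff.1 (by nlinarith [norm_nonneg (u t)])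
    have z2 : det p (u t) = t * (1 - t) * det p q := by
      simp only [u, det, Prod.fst_add, Prod.snd_add, Prod.smul_fst, Prod.smul_snd, smul_eq_mul]
      ring
    have z3 : det (u t) q = (1 - 2 * t) * det p q := by
      simp only [u, det, Prod.fst_add, Prod.snd_add, Prod.smul_fst, Prod.smul_snd, smul_eq_mul]
      ring
    rw [z1, hd] at z2 z3
    simp only [det, Prod.fst_zero, Prod.snd_zero, mul_zero, zero_mul, sub_zero] at z2 z3
    nlinarith
  have cg : Continuous fun t => ν ((r / ν (u t)) • u t - p) :=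
    h.cont.comp (((continuous_const.div (h.cont.comp cu) fun t => (hu t).ne').smul cu).sub
      continuous_const)
  have g0 : ν ((r / ν (u 0)) • u 0 - p) = 0 := by
    have : u 0 = p := by simp [u]
    rw [this, hp, div_self hr.ne', one_smul, sub_self, map_zero]
  have g1 : ν ((r / ν (u 1)) • u 1 - p) = 2 * r := by
    have : u 1 = -p := by simp only [u]; module
    rw [this, map_neg_eq_map, hp, div_self hr.ne', one_smul,
      show -p - p = (-2 : ℝ) • p by module, nsm', hp]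
    norm_num
  obtain ⟨t, ⟨t0, t1⟩, ht⟩ := intermediate_value_Icc (zero_le_one' ℝ) cg.continuousOn
    (show r ∈ Set.Icc _ _ by rw [g0, g1]; constructor <;> linarith)
  have ht : ν ((r / ν (u t)) • u t - p) = r := ht
  have t0' : 0 < t := lt_of_le_of_ne t0 (by rintro rfl; linarith)
  have t1' : t < 1 := lt_of_le_of_ne t1 (by rintro rfl; linarith)
  have e1 : (r / ν (u t) * (1 - 2 * t)) • p + (r / ν (u t) * (t * (1 - t))) • q =
      (r / ν (u t)) • u t := by simp only [u]; module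
  refine ⟨r / ν (u t) * (1 - 2 * t), r / ν (u t) * (t * (1 - t)),
    mul_pos (div_pos hr (hu t)) (mul_pos t0' (by linarith)), hp, ?_, by rw [e1, ht]⟩
  rw [e1, nsm ν (div_pos hr (hu t)).le, div_mul_cancel₀ _ (hu t).ne']

theorem Crit.line (h : Crit ν r c C) (hd : det p q = 1) (ha : Adm ν r p q) (hp : ν p = r) :
    ∃ j : ℤ, ν (q + (j : ℝ) • p) = r ∧
      (ν (q + ((j : ℝ) - 1) • p) = r ∨ ∀ s : ℝ, r ≤ ν (q + s • p)) := by
  have hr := h.hr
  obtain ⟨a, l, l0, hx⟩ := h.exists_hx hd hp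
  have hj : ∀ j : ℤ, r ≤ ν (q + (j : ℝ) • p) := fun j => by
    have := ha j 1 (by simp)
    rwa [cmb, Int.cast_one, one_smul, add_comm] at this
  have hfl : ∀ α ρ : ℝ, ν (q + α • p) ≤ ρ → ν (q + (α - 1) • p) ≤ ρ →
      ν (q + ((⌊α⌋ : ℤ) : ℝ) • p) ≤ ρ := fun α ρ a1 a2 => by
    have f1 := Int.floor_le α
    have f2 := Int.lt_floor_add_one α
    have := conv3 ν p q (x := α - 1) (by linarith) f1
    nlinarith
  have l1 : 1 ≤ l := by
    by_contra z
    have e1 : det p (a • p + l • q) = l * det p q := by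
      simp only [det, Prod.fst_add, Prod.snd_add, Prod.smul_fst, Prod.smul_snd, smul_eq_mul]
      ring
    rw [hd, mul_one] at e1
    exact h.noadm (by rw [e1]; exact l0) (by rw [e1]; linarith) (hx.adm hr.le)
  rcases l1.eq_or_lt with rfl | l1
  · have a1 : ν (q + a • p) = r := by rw [← hx.2.1, one_smul, add_comm]
    have a2 : ν (q + (a - 1) • p) = r := by rw [← hx.2.2]; congr 1; module
    have a3 := le_antisymm (hfl a r a1.le a2.le) (hj _)
    refine ⟨⌊a⌋, a3, ?_⟩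
    rcases (Int.floor_le a).eq_or_lt with z | z
    · exact Or.inl (by rw [z, a2])
    · exact Or.inr (flat (by linarith [Int.lt_floor_add_one a]) z a2 a3 a1)
  · exfalso
    have m0 : 0 < 1 / l := by positivity
    have m1 : 1 / l < 1 := by rw [div_lt_one l0]; exact l1
    have ml : 1 / l * l = 1 := by field_simp
    set m := 1 / l
    have a1 := nadd ν m0.le (by linarith : 0 ≤ (1 - m) / 2) (a • p + l • q) p
    have a2 := nadd ν m0.le (by linarith : 0 ≤ (1 - m) / 2) (a • p + l • q - p) (-p)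
    rw [hx.2.1, hp] at a1
    rw [hx.2.2, map_neg_eq_map, hp] at a2
    have e1 : m • (a • p + l • q) + ((1 - m) / 2) • p = q + (m * a + (1 - m) / 2) • p := by
      rw [smul_add, smul_smul m l, ml]; module
    have e2 : m • (a • p + l • q - p) + ((1 - m) / 2) • (-p) =
        q + (m * a + (1 - m) / 2 - 1) • p := by
      rw [smul_sub, smul_add, smul_smul m l, ml]; module
    rw [e1] at a1
    rw [e2] at a2
    have := (hj _).trans (hfl _ _ a1 a2)
    nlinarith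

theorem box {α β : ℝ} (h : ∀ s : ℝ, r ≤ ν (q + s • p)) : |β| * r ≤ ν (α • p + β • q) := by
  by_cases z : β = 0
  · rw [z, abs_zero, zero_mul]
    exact apply_nonneg ν _
  · have e1 : α • p + β • q = β • (q + (α / β) • p) := by
      rw [smul_add, smul_smul, mul_div_cancel₀ _ z, add_comm]
    rw [e1, nsm']
    exact mul_le_mul_of_nonneg_left (h _) (abs_nonneg _)

/-- Every critical lattice has a hexagonal basis. -/
theorem Crit.fact (h : Crit ν r c C) (hd : det p q = 1) (ha : Adm ν r p q) (hp : ν p = r) :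
    ∃ m₁ n₁ m₂ n₂ : ℤ, m₁ * n₂ - n₁ * m₂ = 1 ∧ Hx ν r (cmb p q m₁ n₁) (cmb p q m₂ n₂) := by
  have hr := h.hr
  obtain ⟨j, j1, j2⟩ := h.line hd ha hp
  have c1 : cmb p q 1 0 = p := by simp [cmb]
  have c2 : cmb p q j 1 = q + (j : ℝ) • p := by simp [cmb, add_comm]
  rcases j2 with j2 | j2
  · exact ⟨1, 0, j, 1, by ring, by rw [c1, hp], by rw [c2, j1], by
      rw [c1, c2, ← j2]; congr 1; module⟩
  set u := q + (j : ℝ) • p with hu
  have hd' : det u (-p) = 1 := by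
    rw [← hd]
    simp only [hu, det, Prod.fst_add, Prod.snd_add, Prod.smul_fst, Prod.smul_snd, smul_eq_mul,
      Prod.fst_neg, Prod.snd_neg]
    ring
  have ha' : Adm ν r u (-p) := fun m n h0 => by
    have e1 : cmb u (-p) m n = cmb p q (m * j - n) m := by
      simp only [cmb, hu]; push_cast; module
    rw [e1]
    refine ha _ _ fun z => h0 ?_
    obtain ⟨z1, z2⟩ := Prod.mk.inj z
    subst z2
    simp only [Prod.mk.injEq, true_and]
    omega
  obtain ⟨i, i1, i2⟩ := h.line hd' ha' j1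
  rcases i2 with i2 | i2
  · have c3 : cmb p q (i * j - 1) i = -p + (i : ℝ) • u := by
      simp only [cmb, hu]; push_cast; module
    exact ⟨j, 1, i * j - 1, i, by ring, by rw [c2, j1], by rw [c3, i1], by
      rw [c2, c3, ← i2]; congr 1; module⟩
  have b1 : ∀ α β : ℝ, |β| * r ≤ ν (α • p + β • u) := fun α β =>
    box fun s => by rw [hu, add_assoc, ← add_smul]; exact j2 _
  have b2 : ∀ α β : ℝ, |α| * r ≤ ν (α • p + β • u) := fun α β => by
    have := box (α := β) (β := -α) i2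
    rwa [abs_neg, neg_smul_neg, add_comm] at this
  have b3 : r ≤ ν (u - p) := by
    have := b1 (-1) 1
    rwa [abs_one, one_mul, one_smul, neg_one_smul, neg_add_eq_sub] at this
  rcases b3.eq_or_lt with b3 | b3
  · exact ⟨1, 0, j, 1, by ring, by rw [c1, hp], by rw [c2, j1], by rw [c1, c2, ← b3]⟩
  exfalso
  obtain ⟨β, β0, β1, β2⟩ : ∃ β : ℝ, 0 < β ∧ β ≤ 1 / 2 ∧ r ≤ (1 - β) * ν (u - p) := by
    have n0 : 0 < ν (u - p) := by linarith
    refine ⟨min (1 / 2) (1 - r / ν (u - p)), lt_min (by norm_num) ?_, min_le_left _ _, ?_⟩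
    · rw [sub_pos, div_lt_one n0]; exact b3
    · have := min_le_right (1 / 2) (1 - r / ν (u - p))
      rw [← div_le_iff₀ n0]
      linarith
  have hd2 : det (p + β • u) (u + β • p) = 1 - β ^ 2 := by
    have : det (p + β • u) (u + β • p) = (1 - β ^ 2) * det u (-p) := by
      simp only [det, Prod.fst_add, Prod.snd_add, Prod.smul_fst, Prod.smul_snd, smul_eq_mul,
        Prod.fst_neg, Prod.snd_neg]
      ring
    rw [this, hd', mul_one]
  refine h.noadm (p := p + β • u) (q := u + β • p) (by rw [hd2]; nlinarith)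
    (by rw [hd2]; nlinarith) ?_
  have key : ∀ m n : ℤ, 0 ≤ n → (m, n) ≠ (0, 0) → r ≤ ν (cmb (p + β • u) (u + β • p) m n) := by
    intro m n hn h0
    have h0' : ¬ (m = 0 ∧ n = 0) := by simpa using h0
    have e1 : cmb (p + β • u) (u + β • p) m n = (m + n * β) • p + (n + m * β) • u := by
      simp only [cmb]; module
    have k1 := b1 (m + n * β) (n + m * β)
    have k2 := b2 (m + n * β) (n + m * β)
    have hn' : (0 : ℝ) ≤ n := by exact_mod_cast hn
    rw [e1]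
    rcases (by omega : (1 ≤ m) ∨ (0 ≤ m ∧ 1 ≤ n) ∨ (m = -1 ∧ n = 1) ∨ (m ≤ -1 ∧ n = 0) ∨
        (m ≤ -2 ∧ n ≤ -m) ∨ (2 ≤ n ∧ -m ≤ n)) with z | z | z | z | z | z
    · have : (1 : ℝ) ≤ m := by exact_mod_cast z
      have := le_abs_self (m + n * β)
      nlinarith [mul_nonneg hn' β0.le]
    · have : (0 : ℝ) ≤ m := by exact_mod_cast z.1
      have : (1 : ℝ) ≤ n := by exact_mod_cast z.2
      have := le_abs_self (n + m * β)
      nlinarith [mul_nonneg ‹(0 : ℝ) ≤ m› β0.le]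
    · obtain ⟨rfl, rfl⟩ := z
      have e2 : (((-1 : ℤ) : ℝ) + ((1 : ℤ) : ℝ) * β) • p + (((1 : ℤ) : ℝ) + ((-1 : ℤ) : ℝ) * β) • u =
          (1 - β) • (u - p) := by push_cast; module
      rw [e2, nsm ν (by linarith)]
      exact β2
    · obtain ⟨z, rfl⟩ := z
      have : (m : ℝ) ≤ -1 := by exact_mod_cast z
      have := neg_le_abs (m + ((0 : ℤ) : ℝ) * β)
      push_cast at *
      nlinarith
    · have : (m : ℝ) ≤ -2 := by exact_mod_cast z.1
      have : (n : ℝ) ≤ -m := by exact_mod_cast z.2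
      have := neg_le_abs (m + n * β)
      have : 1 ≤ -(m + n * β) := by nlinarith
      nlinarith
    · have : (2 : ℝ) ≤ n := by exact_mod_cast z.1
      have : -(m : ℝ) ≤ n := by exact_mod_cast z.2
      have := le_abs_self (n + m * β)
      have : 1 ≤ n + m * β := by nlinarith
      nlinarith
  intro m n h0
  by_cases hn : 0 ≤ n
  · exact key m n hn h0
  · have e1 : cmb (p + β • u) (u + β • p) m n = -cmb (p + β • u) (u + β • p) (-m) (-n) := by
      simp only [cmb]; push_cast; module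
    rw [e1, map_neg_eq_map]
    exact key _ _ (by omega) (by simp only [ne_eq, Prod.mk.injEq]; omega)

end Pool.Agent.P.MP_613544_nt
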