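import Pool.Agent.P.MP_613544_nt.St
import Pool.Agent.P.MP_613544_nt.E.Upper

/-! The covering bound for numbers approximable to a given order. -/

namespace Pool.Agent.P.MP_613544_nt

open Set Filter

theorem sjar : S_Jar := fun τ hτ => by
  refine (dimH_mono (t := ⋃ K : ℕ, {x : ℝ | |x| ≤ K ∧ ∃ᶠ n : ℕ in atTop, ∃ m : ℤ,
    |x - m / n| < K / (n : ℝ) ^ τ}) fun x hx => ?_).trans
    ((dimH_iUnion _).trans_le (iSup_le (E.upper_piece (by linarith))))
  obtain ⟨K, hK⟩ := exists_nat_ge (max |x| 1)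
  refine mem_iUnion.2 ⟨K, (le_max_left ..).trans hK, frequently_atTop.2 fun N => ?_⟩
  obtain ⟨p, q, h1, h2⟩ := hx N
  obtain ⟨n, rfl⟩ := Int.eq_ofNat_of_zero_le (a := q) (by omega)
  refine ⟨n, by omega, p, ?_⟩
  rw [Int.cast_natCast, Real.rpow_neg (by positivity), inv_eq_one_div] at h2
  have := (le_max_right ..).trans hK
  exact h2.trans_le (by gcongr)

end Pool.Agent.P.MP_613544_nt
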