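import Pool.Agent.P.MP_613544_nt.Ret
import Pool.Agent.P.MP_613544_nt.Dim
import Pool.Agent.P.MP_613544_nt.Jar

/-!
The lower bound for the dimension.
-/

set_option autoImplicit false

noncomputable section

namespace Pool.Agent.P.MP_613544_nt

open Filter Topology

variable {ν : Seminorm ℝ (ℝ × ℝ)} {r c C R : ℝ}

theorem Bd.mono {s s' τ x : ℝ} (h : Bd ν s τ x) (hs : s' ≤ s) : Bd ν s' τ x :=
  fun p q h0 => hs.trans_lt (h p q h0)

theorem StepP.mono {s s' κ : ℝ} {b M : ℕ} (h : StepP ν s R κ b M) (hs : s ≤ s') :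
    StepP ν s' R κ b M := fun u x₀ u0 hB =>
  let ⟨c, h1, h2⟩ := h u x₀ u0 hB
  ⟨c, h1, fun i => ⟨(h2 i).1, fun x hx => ⟨((h2 i).2 x hx).1,
    fun τ t1 t2 hd => ((h2 i).2 x hx).2 τ t1 t2 (hd.mono hs)⟩⟩⟩

theorem bs_init {σ₁ κ κ₀ x : ℝ} (hR : 1 ≤ R) (σ1 : R < σ₁) (hκ : κ ≤ κ₀)
    (h : ∀ p q : ℤ, q ≠ 0 → |(q : ℝ)| ≤ 6 * σ₁ + 1 → κ₀ ≤ |p + q * x|) : Bs R κ σ₁ x := by
  intro p q h0 hq
  by_cases z : q = 0
  · subst z
    have := one_le_abs (q := p) fun y => h0 (by rw [y])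
    simp only [Int.cast_zero, zero_mul, add_zero]
    exact Or.inr (by nlinarith)
  · exact Or.inl (hκ.trans ((h p q z (by linarith)).trans
      (le_mul_of_one_le_left (abs_nonneg _) (one_le_abs z))))

theorem Crit.lower (h : Crit ν r c C) (n1 : NP ν) (n2 : NP (turn ν)) {τ : ℝ} (hτ : 2 < τ) :
    ∃ N : ℕ, ∀ᶠ b : ℕ in atTop, ∀ M : ℕ, 2 ≤ M → M + 5 * (b * N + 7) + 3 ≤ b ^ 2 → ∃ ε, 0 < ε ∧
      ε < r ∧ ENNReal.ofReal (2 / τ * (Real.log M / Real.log ((b : ℝ) ^ 2))) ≤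
        dimH ({z | ∀ σ, 0 < σ → ¬ Bd ν (r - ε) σ z} ∩ WA τ) := by
  have hr := h.hr
  have hC := h.hC
  obtain ⟨R, hR, hR'⟩ : ∃ R, 1 ≤ R ∧ r + 1 ≤ c * R := ⟨max 1 ((r + 1) / c), le_max_left _ _, by
    rw [← div_le_iff₀' h.hc]; exact le_max_right _ _⟩
  obtain ⟨σ₁, σ1⟩ := exists_gt R
  have σ2 : 1 ≤ σ₁ := by linarith
  obtain ⟨w, ω, ε₁, κ₁, ω0, ε1, κ1, hw⟩ := h.exit n1 hR hR' (S := 6 * σ₁ + 1) (by linarith)
  obtain ⟨w', ω', ε₂, κ₂, ω1, ε2, κ2, hw'⟩ := h.turned.exit n2 hR hR' (S := 6 * σ₁ + 1) (by linarith)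
  obtain ⟨N, hN⟩ := h.step hR hR'
  obtain ⟨N', hN'⟩ := h.turned.step hR hR'
  refine ⟨N + N', ?_⟩
  filter_upwards [eventually_ge_atTop 2, tendsto_natCast_atTop_atTop.eventually
    (eventually_ge_atTop (2 / min ω ω'))] with b hb hb' M M2 hM
  have b2 : (2 : ℝ) ≤ b := by exact_mod_cast hb
  have b0 : (0 : ℝ) < b := by linarith
  have o : 2 / (b * σ₁) ^ 2 ≤ min ω ω' := by
    rw [div_le_comm₀ (by positivity) b0] at hb'
    refine le_trans ?_ hb'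
    gcongr
    nlinarith [show (b : ℝ) ≤ b * σ₁ by nlinarith]
  obtain ⟨o1, o2⟩ := le_min_iff.1 o
  obtain ⟨κ, κ0, k1, k2, k3⟩ : ∃ κ : ℝ, 0 < κ ∧ κ ≤ 1 / b ^ 4 ∧ κ ≤ κ₁ / 2 ∧ κ ≤ κ₂ :=
    ⟨min (1 / b ^ 4) (min (κ₁ / 2) κ₂), by positivity, min_le_left _ _,
      le_min_iff.1 (min_le_right _ _)⟩
  obtain ⟨η, η0, η1, η2⟩ : ∃ η : ℝ, 0 < η ∧ η ≤ 1 / b ∧ η ≤ κ / R :=
    ⟨min _ _, by positivity, min_le_left _ _, min_le_right _ _⟩
  rw [le_div_iff₀ (by positivity)] at η1 η2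
  obtain ⟨ε₃, ε3, s1⟩ := hN b M κ η hb (by nlinarith) k1 η0 η1 η2
  obtain ⟨ε₄, ε4, s2⟩ := hN' b 1 κ η hb (by nlinarith) k1 η0 η1 η2
  obtain ⟨A, ε₅, ε5, hA⟩ := h.rat hR hR' b2 η0 (by nlinarith) σ2
  obtain ⟨ε, ε0, e1, e2, e3, e4, e5, e6⟩ : ∃ ε : ℝ, 0 < ε ∧ ε ≤ ε₁ ∧ ε ≤ ε₂ ∧ ε ≤ ε₃ ∧ ε ≤ ε₄ ∧
      ε ≤ ε₅ ∧ ε ≤ r := ⟨min ε₁ (min ε₂ (min ε₃ (min ε₄ (min ε₅ r)))), by positivity, by
    simpa only [le_min_iff] using le_refl (min ε₁ (min ε₂ (min ε₃ (min ε₄ (min ε₅ r)))))⟩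
  replace s1 := s1.mono (s' := r - ε) (by linarith)
  obtain ⟨z, z1, z2⟩ := (s2.mono (s' := r - ε) (by linarith)).lim one_pos hb hR η1 η2
    (u := σ₁) (x₀ := w') (by linarith) fun x hx => bs_init hR σ1 k3 (hw' x (hx.trans o2)).2
  have f : ∀ v : ℝ, 4 / v ^ 2 = 4 * (1 / v ^ 2) ∧ 3 / v ^ 2 = 3 * (1 / v ^ 2) ∧
      2 / v ^ 2 = 2 * (1 / v ^ 2) ∧ 0 ≤ 1 / v ^ 2 := fun v => ⟨by ring, by ring, by ring, by positivity⟩
  replace hA := hA (r - ε) (by linarith) z (fun σ g => (z2 σ g z (by simp; positivity)).2)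
    fun σ g x x1 x2 hd => (le_total σ σ₁).elim (fun g' => (hw' x (by
      linarith [abs_sub_le x z w', f (b * σ₁), f (b * (b * σ₁))])).1 σ g (by linarith)
        (hd.mono (by linarith))) fun g' => (z2 σ g' x x1).1 hd
  obtain ⟨γ, γ0, γ1, γ2⟩ : ∃ γ : ℝ, 0 < γ ∧ γ ≤ 1 / 4 ∧ γ ≤ ε / 2 / (C * ((2 * C / r) ^ 2 * R)) :=
    ⟨min _ _, by positivity, min_le_left _ _, min_le_right _ _⟩
  rw [le_div_iff₀ (by positivity)] at γ2
  obtain ⟨D, hD⟩ := pow_unbounded_of_one_lt (max A (max (6 * σ₁ / γ) (16 * σ₁ ^ 2 * b ^ 2 + 1)))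
    (by linarith : (1 : ℝ) < b)
  simp only [max_lt_iff, div_lt_iff₀ γ0] at hD
  obtain ⟨D1, D2, D3⟩ := hD
  have D0 : (1 : ℝ) ≤ b ^ D := one_le_pow₀ (by linarith)
  set u : ℕ → ℝ := fun k => σ₁ * b ^ k with hu
  have u1 : ∀ k, 1 ≤ u k := fun k => one_le_mul_of_one_le_of_one_le σ2 (one_le_pow₀ (by linarith))
  have u0 : ∀ k, 0 < u k := fun k => by linarith [u1 k]
  have u2 : ∀ k j, u (k + j) = b ^ j * u k := fun k j => by simp only [hu]; ring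
  have u3 : ∀ k, u (k + 1) = b * u k := fun k => by rw [u2, pow_one]
  have t1 : ∀ k, tm (b * σ₁) b k = b * u k := fun k => by simp only [tm, hu]; ring
  refine ⟨ε / 2, by positivity, by linarith, (sdim b M D (b * σ₁) (2 * b * σ₁) τ w
    (fun k x => ∀ y, |y - x| ≤ 2 / (b * u k) ^ 2 → Bs R κ (u k) y ∧ ∀ σ, 0 < σ → σ ≤ u k →
      ¬ Bd ν (r - ε / 2) σ y) hb M2 (by omega) (by nlinarith) (by positivity) hτ ?_ ?_ ?_).trans
    (dimH_mono (Set.inter_subset_inter_left _ fun z hz σ σ0 => ?_))⟩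
  · simp only [hu, pow_zero, mul_one]
    exact fun y hy => ⟨bs_init hR σ1 (by linarith) (hw y (hy.trans o1)).2, fun σ g g' hd =>
      (hw y (hy.trans o1)).1 σ g (by linarith) (hd.mono (by linarith))⟩
  · intro k x hS
    obtain ⟨c, c1, c2⟩ := s1 (u k) x (u0 k) fun y hy => (hS y hy).1
    simp only [rd, t1, u3]
    refine ⟨c, fun i j ij => by linarith [c1 i j ij, f (b * (b * u k))], fun i => ⟨by
      linarith [(c2 i).1, f (b * (b * u k))], fun y hy => ⟨((c2 i).2 y hy).1, fun σ g g' hd => ?_⟩⟩⟩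
    rcases le_total σ (u k) with a | a
    · exact (hS y (by
        linarith [(c2 i).1, f (b * (b * u k)), f (b * u k), abs_sub_le y (c i) x])).2 σ g a hd
    · exact ((c2 i).2 y hy).2 σ a g' (hd.mono (by linarith))
  · intro k x hS
    obtain ⟨x₁, a1, a2⟩ := s1.lim (by omega) hb hR η1 η2 (u0 k) fun y hy => (hS y hy).1
    obtain ⟨P, q, P', q', v, q1, q2, q3, q4⟩ := hA (u k) x₁ (u1 k) a2
    simp only [rd, t1, u3]
    have uk := u0 k
    have q0 : (0 : ℝ) < q := lt_of_lt_of_le (by positivity) q1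
    have a3 : |P / q - x| + 2 * (1 / (b * (b * u k)) ^ 2) ≤ 1 / (b * u k) ^ 2 := by
      linarith [abs_sub_le (P / q : ℝ) x₁ x, f (b * (b * u k))]
    have q5 : (q : ℝ) ≤ b ^ D * u k := q2.trans (by gcongr)
    refine ⟨P, q, q1, q5.trans (by rw [u2]; nlinarith [mul_pos (pow_pos b0 D) uk]), a3,
      fun k' y hk y1 y2 => ?_⟩
    obtain ⟨j, rfl⟩ : ∃ j, k' = k + D + j + D := ⟨k' - (k + 2 * D), by omega⟩
    have uj := u0 (k + D + j + D)
    have a4 : q * (6 * σ₁) ≤ γ * u (k + D + j + D) := by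
      have : b ^ D * u k ≤ u (k + D + j) := by
        rw [u2, u2]
        exact le_mul_of_one_le_left (by positivity) (one_le_pow₀ (by linarith))
      rw [u2, ← mul_assoc γ, mul_comm γ, mul_comm (q : ℝ)]
      exact mul_le_mul D2.le (q5.trans this) q0.le (by positivity)
    rw [mul_assoc 2, mul_left_comm 2, mul_div_mul_left _ _ b0.ne', div_le_iff₀' uj] at y1
    rw [show 2 * (2 * b * σ₁) = b * (4 * σ₁) by ring, mul_div_mul_left _ _ b0.ne',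
      le_div_iff₀' uj] at y2
    obtain ⟨x', n, c1, c2⟩ := ret0 (w - q' / q) b2 σ2 q0 uj (a4.trans (by gcongr)) y1 y2
    refine ⟨x', ?_, fun x₂ hx => ?_⟩
    · rw [Nat.add_sub_cancel, show 1 / (b * u (k + D + j)) ^ 2 = (b ^ D) ^ 2 /
        (b * u (k + D + j + D)) ^ 2 by rw [u2 _ D]; have := u0 (k + D + j); field_simp,
        ← le_sub_iff_add_le, ← sub_div]
      refine c1.trans ?_
      rw [← mul_div_mul_right _ _ (pow_pos b0 2).ne', mul_pow (b : ℝ), mul_comm ((b : ℝ) ^ 2)]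
      gcongr
      nlinarith
    obtain ⟨c3, c4, c5⟩ := c2 x₂ hx
    have c6 := hw (n + q' / q - 1 / (q * (q * x₂ - P))) (le_trans (le_of_eq_of_le
      (by congr 1; ring) c5) o1)
    obtain ⟨d1, d2, d3⟩ := h.ret1 hR hR' (κ := κ) σ1 ε0 e6 γ1 (by linarith) v q0 uk uj a4 c3 c4 rfl
      (fun σ g g' hd => c6.1 σ g g' (hd.mono (by linarith)))
      (fun m n g g' => by linarith [c6.2 m n g g']) q4
    refine ⟨d2, fun σ g g' => (le_total σ (u k)).elim (fun a => (hS x₂ ?_).2 σ g a)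
      fun a => d3 σ a g'⟩
    have : 1 / (q : ℝ) ^ 2 ≤ 1 / (b * u k) ^ 2 := by gcongr
    linarith [abs_sub_le x₂ (P / q) x, f (b * u k), f (b * (b * u k))]
  · obtain ⟨K, hK⟩ := pow_unbounded_of_one_lt σ (by linarith : (1 : ℝ) < b)
    obtain ⟨k, x, g1, g2, g3⟩ := hz K
    simp only [rd, t1] at g3
    refine (g2 z (by linarith [f (b * u k)])).2 σ σ0 (hK.le.trans ?_)
    exact (pow_le_pow_right₀ (by linarith) g1).trans (le_mul_of_one_le_left (by positivity) σ2)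

theorem vec_smul {l t : ℝ} (l0 : 0 < l) (t0 : 0 < t) (x : ℝ) (p q : ℤ) :
    ν (vec (t / l) x p q) = l * ν (t * (p + q * x) / l ^ 2, q / t) := by
  rw [← nsm ν l0.le]
  congr 1
  ext <;> simp only [vec, Prod.smul_mk, smul_eq_mul] <;> field_simp

theorem dim_eq (h : Crit ν (critRad ν) c C) (n1 : NP ν) (n2 : NP (turn ν)) {τ : ℝ} (hτ : 2 < τ) :
    dimH (DI ν ∩ WA τ) = ENNReal.ofReal (2 / τ) := by
  refine le_antisymm ((dimH_mono Set.inter_subset_right).trans (sjar τ hτ)) ?_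
  obtain ⟨N, hN⟩ := h.lower n1 n2 hτ
  have hr := h.hr
  have l : Tendsto (fun b : ℕ => Real.log ((b : ℝ) ^ 2)) atTop atTop := Real.tendsto_log_atTop.comp
    ((tendsto_pow_atTop two_ne_zero).comp tendsto_natCast_atTop_atTop)
  have := ENNReal.tendsto_ofReal ((((tendsto_const_nhds (x := Real.log 2)).div_atTop l).const_sub
    1).const_mul (2 / τ))
  rw [sub_zero, mul_one] at this
  refine le_of_tendsto this ?_
  filter_upwards [hN, eventually_ge_atTop (10 * N + 10)] with b h1 h2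
  obtain ⟨M, hM⟩ := Nat.exists_eq_add_of_le' (show 5 * (b * N + 7) + 3 ≤ b ^ 2 by nlinarith)
  have M1 : b ^ 2 ≤ 2 * M := by nlinarith
  obtain ⟨ε, ε0, ε1, H⟩ := h1 M (by nlinarith) (by omega)
  refine le_trans (ENNReal.ofReal_le_ofReal ?_) (H.trans (dimH_mono
    (Set.inter_subset_inter_left _ fun z hz => ?_)))
  · have b1 : (1 : ℝ) < b ^ 2 := by exact_mod_cast (by nlinarith : 1 < b ^ 2)
    have b2 := Real.log_pos b1
    rw [one_sub_div b2.ne', ← Real.log_div (by positivity) two_ne_zero]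
    gcongr
    rw [div_le_iff₀' two_pos]
    exact_mod_cast M1
  have l0 : 0 < (critRad ν - ε) / critRad ν := div_pos (by linarith) hr
  have l1 : (critRad ν - ε) / critRad ν < 1 := (div_lt_one hr).2 (by linarith)
  refine ⟨((critRad ν - ε) / critRad ν) ^ 2, by positivity, by nlinarith, 1, fun t ht => ?_⟩
  have := hz (t / ((critRad ν - ε) / critRad ν)) (by positivity)
  unfold Bd at this
  push Not at this
  obtain ⟨p, q, h0, a⟩ := this
  rw [vec_smul l0 (by linarith), ← le_div_iff₀' l0, div_div_cancel₀ (by linarith)] at a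
  exact ⟨p, q, h0, a⟩

end Pool.Agent.P.MP_613544_nt
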