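import Pool.Agent.P.MP_613544_nt.Hex

/-!
Reduction of bases, the critical radius, and lattices close to the critical locus.
-/

set_option autoImplicit false

noncomputable section

namespace Pool.Agent.P.MP_613544_nt

open Filter Topology

variable {ν : Seminorm ℝ (ℝ × ℝ)} {r c C : ℝ} {e f : ℝ × ℝ}

theorem det_cmb (e f : ℝ × ℝ) (m₁ n₁ m₂ n₂ : ℤ) :
    det (cmb e f m₁ n₁) (cmb e f m₂ n₂) = ((m₁ * n₂ - n₁ * m₂ : ℤ) : ℝ) * det e f := by
  simp only [det, cmb, Prod.fst_add, Prod.snd_add, Prod.smul_fst, Prod.smul_snd, smul_eq_mul]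
  push_cast
  ring

theorem cmb_cmb (e f : ℝ × ℝ) (m₁ n₁ m₂ n₂ a b : ℤ) :
    cmb (cmb e f m₁ n₁) (cmb e f m₂ n₂) a b = cmb e f (a * m₁ + b * m₂) (a * n₁ + b * n₂) := by
  simp only [cmb]
  push_cast
  module

theorem ne_uni {m₁ n₁ m₂ n₂ a b : ℤ} (h : m₁ * n₂ - n₁ * m₂ = 1) (h0 : (a, b) ≠ (0, 0)) :
    (a * m₁ + b * m₂, a * n₁ + b * n₂) ≠ (0, 0) := fun z => h0 <| by
  obtain ⟨z1, z2⟩ := Prod.mk.inj z
  exact Prod.ext (by linear_combination n₂ * z1 - m₂ * z2 - a * h)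
    (by linear_combination m₁ * z2 - n₁ * z1 - b * h)

theorem red (ν : Seminorm ℝ (ℝ × ℝ)) (hd : det e f = 1) {m n : ℤ} (h0 : (m, n) ≠ (0, 0)) :
    ∃ m₁ n₁ m₂ n₂ : ℤ, m₁ * n₂ - n₁ * m₂ = 1 ∧ ν (cmb e f m₁ n₁) ≤ ν (cmb e f m n) ∧
      ‖cmb e f m₂ n₂‖ ≤ 1 / ‖cmb e f m₁ n₁‖ + ‖cmb e f m₁ n₁‖ / 2 := by
  have hg : 0 < Int.gcd m n := Int.gcd_pos_iff.2 (by
    by_contra z
    push Not at z
    exact h0 (Prod.ext z.1 z.2))
  obtain ⟨m₁, n₁, hc, e1, e2⟩ := Int.exists_gcd_one hg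
  obtain ⟨u, v, huv⟩ := Int.isCoprime_iff_gcd_eq_one.2 hc
  set p := cmb e f m₁ n₁ with hp
  set q := cmb e f (-v) u with hq
  have hpq : det p q = 1 := by
    rw [hp, hq, det_cmb, hd, show m₁ * u - n₁ * -v = 1 by linear_combination huv]
    simp
  have p0 : 0 < ‖p‖ := norm_pos_iff.2 fun z => by simp [z, det] at hpq
  have n1 : ‖p‖ ^ 2 ≤ p.1 ^ 2 + p.2 ^ 2 := by
    rw [Prod.norm_def, Real.norm_eq_abs, Real.norm_eq_abs]
    rcases le_total |p.1| |p.2| with z | z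
    · rw [max_eq_right z, sq_abs]; nlinarith
    · rw [max_eq_left z, sq_abs]; nlinarith
  have n0 : 0 < p.1 ^ 2 + p.2 ^ 2 := lt_of_lt_of_le (by positivity) n1
  set s := (q.1 * p.1 + q.2 * p.2) / (p.1 ^ 2 + p.2 ^ 2) with hs
  refine ⟨m₁, n₁, -v - round s * m₁, u - round s * n₁, by linear_combination huv, ?_, ?_⟩
  · have : cmb e f m n = ((Int.gcd m n : ℤ) : ℝ) • p := by
      generalize (Int.gcd m n : ℤ) = g at e1 e2
      rw [hp, e1, e2]
      simp only [cmb]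
      push_cast
      module
    rw [this, nsm ν (by positivity)]
    have : (1 : ℝ) ≤ ((Int.gcd m n : ℤ) : ℝ) := by exact_mod_cast hg
    nlinarith [apply_nonneg ν p]
  · have e3 : cmb e f (-v - round s * m₁) (u - round s * n₁) =
        (1 / (p.1 ^ 2 + p.2 ^ 2)) • ((-p.2, p.1) : ℝ × ℝ) + (s - round s) • p := by
      have : cmb e f (-v - round s * m₁) (u - round s * n₁) = q - (round s : ℝ) • p := by
        simp only [hp, hq, cmb]
        push_cast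
        module
      rw [this]
      unfold det at hpq
      ext
      · simp only [Prod.fst_sub, Prod.fst_add, Prod.smul_fst, smul_eq_mul, hs]
        field_simp
        linear_combination (-p.2) * hpq
      · simp only [Prod.snd_sub, Prod.snd_add, Prod.smul_snd, smul_eq_mul, hs]
        field_simp
        linear_combination p.1 * hpq
    rw [e3]
    refine (norm_add_le _ _).trans (add_le_add ?_ ?_)
    · rw [norm_smul, Real.norm_eq_abs, abs_of_pos (by positivity),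
        show ‖((-p.2, p.1) : ℝ × ℝ)‖ = ‖p‖ by simp [Prod.norm_def, max_comm], one_div_mul_eq_div,
        div_le_div_iff₀ n0 p0]
      nlinarith
    · rw [norm_smul, Real.norm_eq_abs]
      nlinarith [abs_sub_round s]

theorem mink (hd : det e f = 1) : ∃ m n : ℤ, (m, n) ≠ (0, 0) ∧ ‖cmb e f m n‖ ≤ 3 := by
  by_contra z
  push Not at z
  set A : Set ℝ := {x | ∃ m n : ℤ, (m, n) ≠ (0, 0) ∧ ‖cmb e f m n‖ = x}
  have hb : BddBelow A := ⟨3, by rintro _ ⟨m, n, h, rfl⟩; exact (z m n h).le⟩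
  have hn : A.Nonempty := ⟨_, 1, 0, by simp, rfl⟩
  have h3 : 3 ≤ sInf A := le_csInf hn (by rintro _ ⟨m, n, h, rfl⟩; exact (z m n h).le)
  obtain ⟨_, ⟨m, n, h0, rfl⟩, h1⟩ := exists_lt_of_csInf_lt hn (lt_add_one (sInf A))
  obtain ⟨m₁, n₁, m₂, n₂, u, a1, a2⟩ := red (normSeminorm ℝ (ℝ × ℝ)) hd h0
  simp only [coe_normSeminorm] at a1
  have b1 := z m₁ n₁ (by simpa using ne_uni u (a := 1) (b := 0) (by simp))
  have b2 := csInf_le hb ⟨m₂, n₂, by simpa using ne_uni u (a := 0) (b := 1) (by simp), rfl⟩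
  have := one_div_le_one_div_of_le (by norm_num) b1.le
  linarith

theorem exists_crit (hν : ∀ v, ν v = 0 → v = 0) : ∃ c C, Crit ν (critRad ν) c C := by
  have up : ∀ v, ν v ≤ (ν (1, 0) + ν (0, 1)) * ‖v‖ := fun v => by
    have e1 : v = v.1 • ((1, 0) : ℝ × ℝ) + v.2 • (0, 1) := by simp
    have a1 := map_add_le_add ν (v.1 • ((1, 0) : ℝ × ℝ)) (v.2 • (0, 1))
    rw [← e1, nsm', nsm'] at a1
    have a2 : |v.1| ≤ ‖v‖ := norm_fst_le v
    have a3 : |v.2| ≤ ‖v‖ := norm_snd_le v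
    nlinarith [apply_nonneg ν (1, 0), apply_nonneg ν (0, 1)]
  set C := ν (1, 0) + ν (0, 1)
  have hC : 0 ≤ C := by positivity
  have cont : Continuous ν := by
    refine (LipschitzWith.of_dist_le_mul (K := ⟨C, hC⟩) fun u v => ?_).continuous
    rw [Real.dist_eq, dist_eq_norm]
    exact (ν.norm_sub_map_le_sub u v).trans (up _)
  obtain ⟨c, hc, h1⟩ := (isCompact_sphere (0 : ℝ × ℝ) 1).exists_forall_le' cont.continuousOn
    (a := 0) fun v hv => (apply_nonneg ν v).lt_of_ne' fun z => by simp [hν v z] at hv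
  have lo : ∀ v, c * ‖v‖ ≤ ν v := fun v => by
    rcases eq_or_ne v 0 with z | z
    · simp [z]
    have n0 := norm_pos_iff.2 z
    have := h1 (‖v‖⁻¹ • v) (by simp [norm_smul, n0.ne'])
    rwa [nsm ν (by positivity), inv_mul_eq_div, le_div_iff₀ n0] at this
  set A := {r : ℝ | ∀ e f : ℝ × ℝ, e.1 * f.2 - e.2 * f.1 = 1 →
    ∃ m n : ℤ, (m, n) ≠ (0, 0) ∧ ν ((m : ℝ) • e + (n : ℝ) • f) ≤ r}
  have hn : A.Nonempty := ⟨C * 3, fun e f hd => by
    obtain ⟨m, n, h0, h⟩ := mink (e := e) (f := f) hd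
    exact ⟨m, n, h0, (up _).trans (mul_le_mul_of_nonneg_left h hC)⟩⟩
  have hl : ∀ x ∈ A, c ≤ x := fun x hx => by
    obtain ⟨m, n, h0, h⟩ := hx (1, 0) (0, 1) (by simp)
    refine le_trans ?_ ((lo _).trans h)
    refine le_mul_of_one_le_right hc.le ?_
    simp only [Prod.smul_mk, smul_eq_mul, mul_one, mul_zero, Prod.mk_add_mk, add_zero, zero_add,
      Prod.norm_mk, Real.norm_eq_abs, le_max_iff]
    norm_cast
    by_contra z
    push Not at z
    exact h0 (Prod.ext (Int.abs_lt_one_iff.1 z.1) (Int.abs_lt_one_iff.1 z.2))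
  refine ⟨c, C, hc.trans_le (le_csInf hn hl), hc, lo, up, fun e f hd r' hr => ?_, fun r' hr => ?_⟩
  · obtain ⟨x, hx, h⟩ := exists_lt_of_csInf_lt hn hr
    obtain ⟨m, n, h0, h2⟩ := hx e f hd
    exact ⟨m, n, h0, h2.trans h.le⟩
  · have := notMem_of_lt_csInf hr ⟨c, hl⟩
    simp only [Set.mem_ofPred_eq] at this
    push Not at this
    exact this

/-- The norm turned by a right angle. -/
def turn (ν : Seminorm ℝ (ℝ × ℝ)) : Seminorm ℝ (ℝ × ℝ) :=
  ν.comp ((-LinearMap.snd ℝ ℝ ℝ).prod (LinearMap.fst ℝ ℝ ℝ))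

theorem turn_apply (ν : Seminorm ℝ (ℝ × ℝ)) (v : ℝ × ℝ) : turn ν v = ν (-v.2, v.1) := rfl

theorem Crit.turned (h : Crit ν r c C) : Crit (turn ν) r c C := by
  have n1 : ∀ v : ℝ × ℝ, ‖((-v.2, v.1) : ℝ × ℝ)‖ = ‖v‖ := fun v => by
    simp [Prod.norm_def, max_comm]
  refine ⟨h.hr, h.hc, fun v => n1 v ▸ h.lo _, fun v => n1 v ▸ h.up _, fun e f hd r' hr => ?_,
    fun r' hr => ?_⟩
  · obtain ⟨m, n, h0, h1⟩ := h.small (-e.2, e.1) (-f.2, f.1) (by
      rw [← hd]; simp only [det]; ring) r' hr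
    refine ⟨m, n, h0, le_of_eq_of_le ?_ h1⟩
    rw [turn_apply]
    congr 1
    simp [cmb, add_comm]
  · obtain ⟨e, f, hd, h1⟩ := h.sharp r' hr
    refine ⟨(e.2, -e.1), (f.2, -f.1), by rw [← hd]; simp only [det]; ring, fun m n h0 => ?_⟩
    refine (h1 m n h0).trans_eq ?_
    rw [turn_apply]
    congr 1
    ext <;> simp [cmb, add_comm]

theorem unif {X : Type} [TopologicalSpace X] {K : Set X} (hK : IsCompact K) {P : ℝ → X → Prop}
    (mono : ∀ ε ε' x, ε ≤ ε' → P ε' x → P ε x) (h : ∀ x ∈ K, ∃ ε, 0 < ε ∧ ∀ᶠ y in 𝓝 x, P ε y) :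
    ∃ ε, 0 < ε ∧ ∀ x ∈ K, P ε x := by
  refine hK.induction_on (p := fun s => ∃ ε, 0 < ε ∧ ∀ x ∈ s, P ε x) ⟨1, one_pos, by simp⟩
    (fun s t hst ⟨ε, h1, h2⟩ => ⟨ε, h1, fun x hx => h2 x (hst hx)⟩) ?_ fun x hx => ?_
  · rintro s t ⟨ε, h1, h2⟩ ⟨ε', h1', h2'⟩
    exact ⟨min ε ε', lt_min h1 h1', fun x hx => hx.elim
      (fun a => mono _ _ _ (min_le_left _ _) (h2 x a))
      fun a => mono _ _ _ (min_le_right _ _) (h2' x a)⟩
  · obtain ⟨ε, h1, h2⟩ := h x hx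
    exact ⟨_, mem_nhdsWithin_of_mem_nhds h2, ε, h1, fun _ a => a⟩

/-- The defect of a hexagon. -/
def df (ν : Seminorm ℝ (ℝ × ℝ)) (r : ℝ) (P Q : ℝ × ℝ) : ℝ :=
  |ν P - r| + |ν Q - r| + |ν (Q - P) - r|

theorem df_nonneg (P Q : ℝ × ℝ) : 0 ≤ df ν r P Q := by
  unfold df
  positivity

theorem df_le {P Q : ℝ × ℝ} {κ : ℝ} (h : df ν r P Q ≤ κ) :
    |ν P - r| ≤ κ ∧ |ν Q - r| ≤ κ ∧ |ν (Q - P) - r| ≤ κ := by
  unfold df at h
  have := abs_nonneg (ν P - r)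
  have := abs_nonneg (ν Q - r)
  have := abs_nonneg (ν (Q - P) - r)
  exact ⟨by linarith, by linarith, by linarith⟩

theorem hx_of_df {P Q : ℝ × ℝ} (h : df ν r P Q ≤ 0) : Hx ν r P Q := by
  simpa only [Hx, abs_nonpos_iff, sub_eq_zero] using df_le h

theorem Hx.df {P Q : ℝ × ℝ} (h : Hx ν r P Q) : df ν r P Q = 0 := by
  simp [Pool.Agent.P.MP_613544_nt.df, h.1, h.2.1, h.2.2]

/-- Nearly critical lattices have nearly hexagonal bases. -/
theorem Crit.near (h : Crit ν r c C) {κ : ℝ} (hκ : 0 < κ) : ∃ ε, 0 < ε ∧ ∀ e f, det e f = 1 →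
    (∀ m n : ℤ, (m, n) ≠ (0, 0) → r - ε < ν (cmb e f m n)) →
    ∃ m₁ n₁ m₂ n₂ : ℤ, m₁ * n₂ - n₁ * m₂ = 1 ∧ df ν r (cmb e f m₁ n₁) (cmb e f m₂ n₂) ≤ κ := by
  have hr := h.hr
  have hc := h.hc
  have hC := h.hC
  have ct := h.cont
  set R := 2 * C / r + 2 * r / c
  have hK : IsCompact (Metric.closedBall (0 : (ℝ × ℝ) × ℝ × ℝ) R ∩ {z | det z.1 z.2 = 1}) :=
    (isCompact_closedBall _ _).inter_right (isClosed_eq (by unfold det; fun_prop) continuous_const)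
  obtain ⟨ε, ε0, H⟩ := unif hK (P := fun ε z => (∃ m₁ n₁ m₂ n₂ : ℤ, m₁ * n₂ - n₁ * m₂ = 1 ∧
      df ν r (cmb z.1 z.2 m₁ n₁) (cmb z.1 z.2 m₂ n₂) < κ) ∨ r + ε < ν z.1 ∨
      ∃ m n : ℤ, (m, n) ≠ (0, 0) ∧ ν (cmb z.1 z.2 m n) < r - ε)
    (fun ε ε' z h1 h2 => h2.imp_right fun a => a.imp (fun b => by linarith)
      fun ⟨m, n, b1, b2⟩ => ⟨m, n, b1, by linarith⟩) fun z hz => by
    by_cases ha : Adm ν r z.1 z.2
    · rcases (show r ≤ ν z.1 by simpa [cmb] using ha 1 0 (by simp)).eq_or_lt with a | a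
      · obtain ⟨m₁, n₁, m₂, n₂, u, b⟩ := h.fact hz.2 ha a.symm
        refine ⟨1, one_pos, Eventually.mono ?_ fun y hy => Or.inl ⟨m₁, n₁, m₂, n₂, u, hy⟩⟩
        refine ContinuousAt.eventually_lt ?_ continuousAt_const (b.df ▸ hκ)
        unfold df cmb
        fun_prop
      · exact ⟨(ν z.1 - r) / 2, by linarith, Eventually.mono (ContinuousAt.eventually_lt
          continuousAt_const (by fun_prop) (by linarith)) fun y hy => Or.inr (Or.inl hy)⟩
    · unfold Adm at ha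
      push Not at ha
      obtain ⟨m, n, h0, a⟩ := ha
      refine ⟨(r - ν (cmb z.1 z.2 m n)) / 2, by linarith, Eventually.mono ?_
        fun y hy => Or.inr (Or.inr ⟨m, n, h0, hy⟩)⟩
      refine ContinuousAt.eventually_lt ?_ continuousAt_const (by linarith)
      unfold cmb
      fun_prop
  refine ⟨min ε (r / 2), lt_min ε0 (by linarith), fun e f hd hb => ?_⟩
  have m1 := min_le_left ε (r / 2)
  have m2 := min_le_right ε (r / 2)
  obtain ⟨m, n, h0, a0⟩ := h.small e f hd (r + min ε (r / 2)) (by simp [ε0, hr])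
  obtain ⟨m₁, n₁, m₂, n₂, u, a1, a2⟩ := red ν hd h0
  have b1 := hb m₁ n₁ (by simpa using ne_uni u (a := 1) (b := 0) (by simp))
  have b2 : ‖cmb e f m₁ n₁‖ ≤ 2 * r / c := by
    rw [le_div_iff₀ hc]
    linarith [h.lo (cmb e f m₁ n₁)]
  have b3 : 1 / ‖cmb e f m₁ n₁‖ ≤ 2 * C / r := by
    have := h.up (cmb e f m₁ n₁)
    rw [div_le_div_iff₀ (by nlinarith) hr]
    linarith
  have b4 : 0 < 2 * C / r := by positivity
  have b5 := norm_nonneg (cmb e f m₁ n₁)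
  rcases H (cmb e f m₁ n₁, cmb e f m₂ n₂) ⟨by
      rw [mem_closedBall_zero_iff, Prod.norm_mk]
      exact max_le (by simp only [R]; linarith) (by simp only [R]; linarith), by
      simp [det_cmb, u, hd]⟩ with ⟨a, b, a', b', u', z⟩ | z | ⟨a, b, h1, z⟩
  · simp only [cmb_cmb] at z
    exact ⟨_, _, _, _, by linear_combination (a * b' - b * a') * u + u', z.le⟩
  · simp only at z
    linarith
  · simp only [cmb_cmb] at z
    linarith [hb _ _ (ne_uni u h1)]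

end Pool.Agent.P.MP_613544_nt
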