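import Pool.Agent.P.MP_613544_nt.Exc

/-!
The return from the cusp through the safe window.
-/

set_option autoImplicit false

noncomputable section

namespace Pool.Agent.P.MP_613544_nt

variable {ν : Seminorm ℝ (ℝ × ℝ)} {r c C R : ℝ}

theorem ret0 {b σ₁ u y P q : ℝ} (w : ℝ) (hb : 2 ≤ b) (σ1 : 1 ≤ σ₁) (q0 : 0 < q) (u0 : 0 < u)
    (hq : q * (6 * σ₁) ≤ 1 / 4 * u) (y1 : 2 * σ₁ ≤ u * (q * y - P)) (y2 : u * (q * y - P) ≤ 4 * σ₁) :
    ∃ (x' : ℝ) (k : ℤ), |x' - y| ≤ 16 * σ₁ ^ 2 / u ^ 2 ∧ ∀ x, |x - x'| ≤ 2 / (b * u) ^ 2 →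
      σ₁ ≤ u * (q * x - P) ∧ u * (q * x - P) ≤ 5 * σ₁ ∧
        |k - 1 / (q * (q * x - P)) - w| ≤ 2 / (b * σ₁) ^ 2 := by
  set θ := q * y - P with hθ
  have θ0 : 0 < θ := (mul_pos_iff_of_pos_left u0).1 (by linarith)
  have θ1 : q * θ ≤ 1 / 4 := le_of_mul_le_mul_left (by nlinarith) u0
  set X := (⌈1 / (q * θ) + w⌉ : ℝ) - w with hX
  have X1 : 1 ≤ X * (q * θ) := by
    rw [← div_le_iff₀ (by positivity)]
    linarith [Int.le_ceil (1 / (q * θ) + w)]
  have X2 : (X - 1) * (q * θ) ≤ 1 := by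
    rw [← le_div_iff₀ (by positivity)]
    linarith [Int.ceil_lt_add_one (1 / (q * θ) + w)]
  have X0 : 0 < X := (mul_pos_iff_of_pos_right (by positivity : 0 < q * θ)).1 (by linarith)
  obtain ⟨η, η0, η1⟩ : ∃ η : ℝ, 0 < η ∧ q * η * X = 1 := ⟨1 / (q * X), by positivity, by field_simp⟩
  have a1 : η ≤ θ := by nlinarith [mul_le_mul_of_nonneg_left X1 η0.le]
  have a2 : θ - η ≤ q * θ * η := by nlinarith [mul_le_mul_of_nonneg_left X2 η0.le]
  refine ⟨(P + η) / q, ⌈1 / (q * θ) + w⌉, ?_, fun x hx => ?_⟩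
  · rw [show (P + η) / q - y = -((θ - η) / q) by rw [hθ]; field_simp; ring, abs_neg,
      abs_of_nonneg (div_nonneg (by linarith) q0.le), div_le_div_iff₀ q0 (by positivity)]
    have : (u * θ) * (u * η) ≤ (4 * σ₁) * (4 * σ₁) :=
      mul_le_mul y2 (by nlinarith) (by positivity) (by positivity)
    nlinarith [mul_le_mul_of_nonneg_right a2 (sq_nonneg u)]
  have a3 : 3 / 2 * σ₁ ≤ u * η := by
    nlinarith [mul_le_mul_of_nonneg_right θ1 η0.le, mul_le_mul_of_nonneg_left a2 u0.le]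
  have a4 : u * η ≤ 4 * σ₁ := by nlinarith
  set d := x - (P + η) / q with hd
  have e : q * x - P = η + q * d := by rw [hd]; field_simp; ring
  rw [le_div_iff₀ (by positivity)] at hx
  have a5 : |u * (q * d)| ≤ 1 / 2 := by
    rw [abs_mul, abs_mul, abs_of_pos u0, abs_of_pos q0]
    have n0 := mul_nonneg (abs_nonneg d) (sq_nonneg u)
    have : |d| * u ^ 2 ≤ 1 / 2 := by nlinarith [mul_le_mul_of_nonneg_left (show 4 ≤ b ^ 2 by nlinarith) n0]
    refine le_of_mul_le_mul_left ?_ u0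
    nlinarith
  rw [abs_le] at a5
  rw [e]
  have a6 : σ₁ ≤ u * (η + q * d) := by linarith [a5.1]
  have a7 : 0 < η + q * d := (mul_pos_iff_of_pos_left u0).1 (by linarith)
  refine ⟨a6, by linarith [a5.2], ?_⟩
  rw [show ⌈1 / (q * θ) + w⌉ - 1 / (q * (η + q * d)) - w = d / (η * (η + q * d)) by
    rw [sub_right_comm, ← hX, show X = 1 / (q * η) by field_simp; linarith]; field_simp; ring,
    abs_div, abs_of_pos (mul_pos η0 a7), div_le_div_iff₀ (mul_pos η0 a7) (by positivity)]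
  have : σ₁ * σ₁ ≤ (u * η) * (u * (η + q * d)) := by gcongr; linarith
  refine le_of_mul_le_mul_left ?_ (pow_pos u0 2)
  nlinarith [mul_le_mul_of_nonneg_right hx (sq_nonneg σ₁)]

theorem Crit.pert (h : Crit ν r c C) (v : ℝ × ℝ) {a b δ : ℝ} (ha : |a - v.1| ≤ δ) (hb : |b - v.2| ≤ δ) :
    ν (a, b) ≤ ν v + C * δ := by
  have a1 := map_add_le_add ν v (a - v.1, b - v.2)
  rw [show v + (a - v.1, b - v.2) = (a, b) by ext <;> simp] at a1
  exact a1.trans (add_le_add le_rfl ((h.up _).trans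
    (mul_le_mul_of_nonneg_left (max_le ha hb) h.hC.le)))

theorem Crit.ret1 (h : Crit ν r c C) (hR : 1 ≤ R) (hR' : r + 1 ≤ c * R) {σ₁ ε κ γ u u' x w : ℝ}
    {P q P' q' k : ℤ} (σ1 : R < σ₁) (ε0 : 0 < ε) (ε1 : ε ≤ r) (γ1 : γ ≤ 1 / 4)
    (γ2 : C * ((2 * C / r) ^ 2 * R * γ) ≤ ε / 2) (v : P * q' - P' * q = -1) (q0 : (0 : ℝ) < q)
    (u0 : 0 < u) (u1 : 0 < u') (hq : q * (6 * σ₁) ≤ γ * u') (x1 : σ₁ ≤ u' * (q * x - P))
    (x2 : u' * (q * x - P) ≤ 5 * σ₁) (hw : w = k + q' / q - 1 / (q * (q * x - P)))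
    (w1 : ∀ σ, 0 < σ → σ ≤ 6 * σ₁ + 1 → ¬ Bd ν (r - ε) σ w)
    (w2 : ∀ m n : ℤ, n ≠ 0 → |(n : ℝ)| ≤ 6 * σ₁ + 1 → 2 * κ ≤ |m + n * w|)
    (hρ : ∀ τ, u ≤ τ → ¬ Bd ν (r - ε) τ (P / q)) :
    |x - P / q| ≤ 1 / q ^ 2 ∧ Bs R κ u' x ∧ ∀ τ, u ≤ τ → τ ≤ u' → ¬ Bd ν (r - ε / 2) τ x := by
  have hr := h.hr
  have hC := h.hC
  have v' : (P : ℝ) * q' - P' * q = -1 := by exact_mod_cast v
  obtain ⟨θ, hθ⟩ : ∃ θ, θ = q * x - P := ⟨_, rfl⟩
  rw [← hθ] at x1 x2 hw
  have θ0 : 0 < θ := (mul_pos_iff_of_pos_left u1).1 (by linarith)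
  have θ1 : q * θ ≤ γ := le_of_mul_le_mul_left (by nlinarith) u1
  have θ2 : 0 < q * θ := by positivity
  have hx : x = (P + θ) / q := by rw [hθ]; field_simp; ring
  have id1 : ∀ m n : ℤ, ((m + n * k) * -P + n * -P' : ℤ) + ((m + n * k) * q + n * q' : ℤ) * x =
      θ * (m + n * w) := fun m n => by
    rw [hw, hx]; push_cast; field_simp; linear_combination n * v'
  have id2 : ∀ m n : ℤ, ((m + n * k) * q + n * q' : ℤ) * θ = n + q * θ * (m + n * w) := fun m n => by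
    rw [hw]; push_cast; field_simp; ring
  refine ⟨?_, fun p₁ q₁ h0 g => ?_, fun τ t1 t2 hd => ?_⟩
  · rw [show x - P / q = q * θ / q ^ 2 by rw [hθ]; field_simp, abs_of_pos (by positivity)]
    gcongr
    linarith
  · obtain ⟨m, n, rfl, rfl⟩ : ∃ m n : ℤ, p₁ = (m + n * k) * -P + n * -P' ∧
        q₁ = (m + n * k) * q + n * q' := ⟨p₁ * q' + q₁ * P' + (p₁ * q + q₁ * P) * k,
      -(p₁ * q + q₁ * P), by linear_combination p₁ * v, by linear_combination q₁ * v⟩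
    rw [id1, abs_mul, abs_of_pos θ0]
    refine or_iff_not_imp_right.2 fun z => ?_
    have n0 := abs_nonneg (m + n * w)
    have a1 : |m + n * w| < 1 := by nlinarith
    have a2 : n ≠ 0 := by
      rintro rfl
      simp only [Int.cast_zero, zero_mul, add_zero] at a1 h0
      rw [Int.abs_lt_one_iff.1 (by exact_mod_cast a1 : |m| < 1)] at h0
      simp at h0
    have a3 : |q * θ * (m + n * w)| ≤ 1 / 4 := by rw [abs_mul, abs_of_pos θ2]; nlinarith
    have a4 := id2 m n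
    generalize ((m + n * k) * q + n * q' : ℤ) = Q at *
    have a5 : |(Q : ℝ)| * θ = |n + q * θ * (m + n * w)| := by rw [← a4, abs_mul, abs_of_pos θ0]
    have a6 := abs_add_le (n + q * θ * (m + n * w)) (-(q * θ * (m + n * w)))
    rw [add_neg_cancel_right, abs_neg, ← a5] at a6
    have a7 := w2 m n a2 (by nlinarith)
    rw [← mul_assoc]
    nlinarith [one_le_abs a2]
  have τ0 : 0 < τ := by linarith
  have β0 : 0 < 2 * C / r := by positivity
  have β1 : r / (2 * C) = 1 / (2 * C / r) := by field_simp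
  generalize 2 * C / r = β at *
  rcases le_total τ (β * q) with g | g
  · refine hρ τ t1 fun p₁ q₁ h0 => not_le.1 fun z => ?_
    have a1 : |q₁ / τ| ≤ R := (norm_snd_le (vec τ (P / q) p₁ q₁)).trans (h.nrm hR' (by linarith))
    have a2 := h.pert (vec τ (P / q) p₁ q₁) (a := τ * (p₁ + q₁ * x)) (b := q₁ / τ)
      (δ := β ^ 2 * R * γ) (by
        rw [show τ * (p₁ + q₁ * x) - (vec τ (P / q) p₁ q₁).1 = (τ / q) ^ 2 * (q₁ / τ) * (q * θ) by
          rw [hx]; simp only [vec]; field_simp; ring, abs_mul, abs_mul, abs_of_pos θ2,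
          abs_of_pos (by positivity : 0 < (τ / q) ^ 2)]
        gcongr
        rwa [div_le_iff₀ q0]) (by simp only [vec, sub_self, abs_zero]; have := θ2.trans_le θ1; positivity)
    linarith [show _ < ν (τ * (p₁ + q₁ * x), q₁ / τ) from hd p₁ q₁ h0]
  rcases le_total (τ * θ) (1 / β) with g' | g'
  · have a1 := h.short (a := τ * θ) (b := q / τ) (by rwa [β1, abs_of_pos (by positivity)]) (by
      rw [β1, abs_of_pos (by positivity), div_le_div_iff₀ τ0 β0]; linarith)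
    have a2 := hd (-P) q (by simp [(by exact_mod_cast q0 : 0 < q).ne'])
    simp only [vec, Int.cast_neg, neg_add_eq_sub, ← hθ] at a2
    linarith
  have σ0 : 0 < τ * θ := by positivity
  refine w1 (τ * θ) σ0 (by nlinarith) fun m n h0 => not_le.1 fun z => ?_
  have a1 : |τ * θ * (m + n * w)| ≤ R :=
    (norm_fst_le (vec (τ * θ) w m n)).trans (h.nrm hR' (by linarith))
  have a2 := h.pert (vec (τ * θ) w m n) (a := τ * (θ * (m + n * w)))
    (b := ((m + n * k) * q + n * q' : ℤ) / τ) (δ := β ^ 2 * R * γ) (by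
      simp only [vec, mul_assoc, sub_self, abs_zero]; have := θ2.trans_le θ1; positivity) (by
      rw [show ((m + n * k) * q + n * q' : ℤ) / τ - (vec (τ * θ) w m n).2 =
        (1 / (τ * θ)) ^ 2 * (τ * θ * (m + n * w)) * (q * θ) by
          rw [← mul_div_mul_right _ τ θ0.ne', id2]; simp only [vec]; field_simp; ring,
        abs_mul, abs_mul, abs_of_pos θ2, abs_of_pos (by positivity : 0 < (1 / (τ * θ)) ^ 2)]
      gcongr
      exact (one_div_le σ0 β0).2 g')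
  have a3 := hd _ _ (ne_uni (m₁ := -P) (n₁ := q) (m₂ := -P') (n₂ := q') (a := m + n * k) (b := n)
    (by linarith) fun y => h0 (by
      obtain ⟨y1, rfl⟩ := Prod.mk.inj y
      simpa using y1))
  simp only [vec, id1] at a3
  linarith

end Pool.Agent.P.MP_613544_nt
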