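import Pool.Agent.P.MP_613544_nt.Near

/-!
The unipotent flow is transversal to the critical locus away from horizontal vectors.
-/

set_option autoImplicit false

noncomputable section

namespace Pool.Agent.P.MP_613544_nt

open Filter Topology

variable {ν : Seminorm ℝ (ℝ × ℝ)} {r c C R : ℝ}

/-- An upper triangular map. -/
def hm (s s' z : ℝ) (v : ℝ × ℝ) : ℝ × ℝ := (s * (v.1 + z * v.2), s' * v.2)

theorem hm_sub {s s' z ρ : ℝ} {v : ℝ × ℝ} (h1 : |s - 1| ≤ ρ) (h2 : |s' - 1| ≤ ρ) (h3 : |z| ≤ ρ)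
    (h4 : ρ ≤ 1) (hv : ‖v‖ ≤ R) : ‖hm s s' z v - v‖ ≤ 3 * ρ * R := by
  have a1 : |v.1| ≤ R := (norm_fst_le v).trans hv
  have a2 : |v.2| ≤ R := (norm_snd_le v).trans hv
  have r0 := (abs_nonneg _).trans h1
  have R0 := (abs_nonneg _).trans a1
  have s2 : |s| ≤ 2 := abs_le.2 ⟨by linarith [(abs_le.1 h1).1], by linarith [(abs_le.1 h1).2]⟩
  have b1 : |(s - 1) * v.1| ≤ ρ * R := by rw [abs_mul]; gcongr
  have b2 : |s * z * v.2| ≤ 2 * ρ * R := by rw [abs_mul, abs_mul]; gcongr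
  have b3 : |(s' - 1) * v.2| ≤ ρ * R := by rw [abs_mul]; gcongr
  refine max_le ?_ ?_
  · rw [show (hm s s' z v - v).1 = (s - 1) * v.1 + s * z * v.2 by simp [hm]; ring]
    exact (abs_add_le _ _).trans (by linarith)
  · rw [show (hm s s' z v - v).2 = (s' - 1) * v.2 by simp [hm]; ring]
    exact b3.trans (by nlinarith [mul_nonneg r0 R0])

theorem abs_det_le (u v : ℝ × ℝ) : |det u v| ≤ 2 * ‖u‖ * ‖v‖ := by
  have a1 : |u.1 * v.2| ≤ ‖u‖ * ‖v‖ := by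
    rw [abs_mul]; exact mul_le_mul (norm_fst_le u) (norm_snd_le v) (abs_nonneg _) (norm_nonneg _)
  have a2 : |u.2 * v.1| ≤ ‖u‖ * ‖v‖ := by
    rw [abs_mul]; exact mul_le_mul (norm_snd_le u) (norm_fst_le v) (abs_nonneg _) (norm_nonneg _)
  exact (abs_sub _ _).trans (by linarith)

theorem sep0 (hr : 0 < r) (hR : 1 ≤ R) {P Q : ℝ × ℝ} {s s' z : ℝ} (hd : det P Q = 1)
    (hP : ‖P‖ ≤ R) (hQ : ‖Q‖ ≤ R) (hs : s * s' = 1) (h1 : |s - 1| ≤ 1 / (12 * R ^ 2))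
    (h2 : |s' - 1| ≤ 1 / (12 * R ^ 2)) (h3 : |z| ≤ 1 / (12 * R ^ 2)) (n1 : P.2 ≠ 0) (n2 : Q.2 ≠ 0)
    (n3 : (Q - P).2 ≠ 0) (h : Hx ν r P Q) (h' : Hx ν r (hm s s' z P) (hm s s' z Q)) : z = 0 := by
  have r1 : 1 / (12 * R ^ 2) ≤ 1 / 2 := one_div_le_one_div_of_le two_pos (by nlinarith)
  have e0 : 2 * (3 * (1 / (12 * R ^ 2)) * R) * R = 1 / 2 := by field_simp; norm_num
  have a1 := hm_sub h1 h2 h3 (by linarith) hP
  have a2 := hm_sub h1 h2 h3 (by linarith) hQ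
  have b : ∀ u v : ℝ × ℝ, ‖u‖ ≤ 3 * (1 / (12 * R ^ 2)) * R → ‖v‖ ≤ R → |det u v| ≤ 1 / 2 :=
    fun u v hu hv => (abs_det_le u v).trans (by rw [← e0]; gcongr)
  have s0 : 0 < s := by linarith [(abs_le.1 h1).1]
  have tr : 2 ≤ s + s' := by nlinarith [sq_nonneg (s - 1)]
  have fin : ∀ v : ℝ × ℝ, v.2 ≠ 0 → hm s s' z v = v → z = 0 := fun v h0 e => by
    obtain ⟨e1, e2⟩ := Prod.ext_iff.1 e
    simp only [hm] at e1 e2
    have : s' = 1 := mul_right_cancel₀ h0 (by rw [e2, one_mul])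
    rw [this, mul_one] at hs
    rw [hs] at e1
    exact mul_right_cancel₀ h0 (by linarith)
  have dec : ∀ v : ℝ × ℝ, v = det v Q • P + (-det v P) • Q := fun v => by
    unfold det at *
    ext
    · simp only [Prod.fst_add, Prod.smul_fst, smul_eq_mul]
      linear_combination (-v.1) * hd
    · simp only [Prod.snd_add, Prod.smul_snd, smul_eq_mul]
      linear_combination (-v.2) * hd
  have d1 := dec (hm s s' z P - P)
  have d2 := dec (hm s s' z Q - Q)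
  rcases h.rigid hr (b _ _ a1 hQ) (abs_neg (det _ P) ▸ b _ _ a1 hP) (b _ _ a2 hQ)
    (abs_neg (det _ P) ▸ b _ _ a2 hP) (by
      convert h' using 1
      · linear_combination (norm := module) -d1
      · linear_combination (norm := module) -d2) (by
      simp only [det, hm, Prod.fst_sub, Prod.snd_sub] at hd ⊢
      linear_combination (s + s' - 2 + (s - 1) * (s' - 1) * (P.1 * Q.2 - P.2 * Q.1 + 1)) * hd + hs)
    (by
      simp only [det, hm, Prod.fst_sub, Prod.snd_sub] at hd ⊢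
      nlinarith) with ⟨z1, z2⟩ | ⟨z1, z2⟩ | ⟨z1, z2⟩
  · exact fin P n1 (by rw [z1, z2] at d1; linear_combination (norm := module) d1)
  · exact fin Q n2 (by rw [z1, z2] at d2; linear_combination (norm := module) d2)
  · refine fin (Q - P) n3 ?_
    rw [z1, z2, ← d2] at d1
    rw [show hm s s' z (Q - P) = hm s s' z Q - hm s s' z P by
      ext <;> simp [hm] <;> ring]
    linear_combination (norm := module) -d1

theorem Crit.sep (h : Crit ν r c C) (hR : 1 ≤ R) {δ η : ℝ} (hδ : 0 < δ) (hη : 0 < η) :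
    ∃ κ, 0 < κ ∧ ∀ (P Q : ℝ × ℝ) (s s' z : ℝ), det P Q = 1 → ‖P‖ ≤ R → ‖Q‖ ≤ R → s * s' = 1 →
      |s - 1| ≤ 1 / (12 * R ^ 2) → |s' - 1| ≤ 1 / (12 * R ^ 2) → |z| ≤ 1 / (12 * R ^ 2) →
      η ≤ |P.2| → η ≤ |Q.2| → η ≤ |(Q - P).2| → df ν r P Q ≤ κ →
      df ν r (hm s s' z P) (hm s s' z Q) ≤ κ → |z| < δ := by
  have ct := h.cont
  have r1 : 1 / (12 * R ^ 2) ≤ 1 := (div_le_one (by positivity)).2 (by nlinarith)
  have hK : IsCompact (Metric.closedBall (0 : (ℝ × ℝ) × (ℝ × ℝ) × ℝ × ℝ × ℝ) (2 * R) ∩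
      {w | det w.1 w.2.1 = 1 ∧ ‖w.1‖ ≤ R ∧ ‖w.2.1‖ ≤ R ∧ w.2.2.1 * w.2.2.2.1 = 1 ∧
        |w.2.2.1 - 1| ≤ 1 / (12 * R ^ 2) ∧ |w.2.2.2.1 - 1| ≤ 1 / (12 * R ^ 2) ∧
        |w.2.2.2.2| ≤ 1 / (12 * R ^ 2) ∧ η ≤ |w.1.2| ∧ η ≤ |w.2.1.2| ∧ η ≤ |(w.2.1 - w.1).2| ∧
        δ ≤ |w.2.2.2.2|}) := by
    refine (isCompact_closedBall _ _).inter_right ?_
    unfold det
    repeat' first
      | refine IsClosed.and ?_ ?_
      | exact isClosed_eq (by fun_prop) (by fun_prop)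
      | exact isClosed_le (by fun_prop) (by fun_prop)
  obtain ⟨κ, κ0, H⟩ := hK.exists_forall_le' (a := 0) (f := fun w => df ν r w.1 w.2.1 +
      df ν r (hm w.2.2.1 w.2.2.2.1 w.2.2.2.2 w.1) (hm w.2.2.1 w.2.2.2.1 w.2.2.2.2 w.2.1))
    (by unfold df hm; fun_prop) (by
      rintro ⟨P, Q, s, s', z⟩ ⟨-, a1, a2, a3, a4, a5, a6, a7, a8, a9, a10, a11⟩
      by_contra z0
      have n1 := df_nonneg (ν := ν) (r := r) P Q
      have n2 := df_nonneg (ν := ν) (r := r) (hm s s' z P) (hm s s' z Q)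
      have := sep0 h.hr hR a1 a2 a3 a4 a5 a6 a7 (abs_pos.1 (hη.trans_le a8))
        (abs_pos.1 (hη.trans_le a9)) (abs_pos.1 (hη.trans_le a10))
        (hx_of_df (ν := ν) (by simp only at z0 ⊢; linarith))
        (hx_of_df (by simp only at z0 ⊢; linarith))
      exact abs_pos.1 (hδ.trans_le a11) this)
  refine ⟨κ / 3, by positivity, fun P Q s s' z a1 a2 a3 a4 a5 a6 a7 a8 a9 a10 b1 b2 => ?_⟩
  by_contra z0
  have := H (P, Q, s, s', z) ⟨by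
    simp only [mem_closedBall_zero_iff, Prod.norm_mk, max_le_iff, Real.norm_eq_abs]
    rw [abs_le] at a5 a6
    exact ⟨by linarith, by linarith, abs_le.2 ⟨by linarith, by linarith⟩,
      abs_le.2 ⟨by linarith, by linarith⟩, by linarith⟩,
    a1, a2, a3, a4, a5, a6, a7, a8, a9, a10, not_lt.1 z0⟩
  simp only at this
  linarith

/-- The set `D` lies within distance `δ` of `N` points. -/
def Cov (N : ℕ) (δ : ℝ) (D : Set ℝ) : Prop :=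
  ∃ Y : Finset ℝ, Y.card ≤ N ∧ ∀ x ∈ D, ∃ y ∈ Y, |x - y| ≤ δ

theorem Cov.mono {N N' : ℕ} {δ δ' : ℝ} {D D' : Set ℝ} (h : Cov N δ D) (h1 : N ≤ N') (h2 : δ ≤ δ')
    (h3 : D' ⊆ D) : Cov N' δ' D' :=
  let ⟨Y, a, b⟩ := h
  ⟨Y, a.trans h1, fun x hx => let ⟨y, a1, a2⟩ := b x (h3 hx); ⟨y, a1, a2.trans h2⟩⟩

theorem Cov.union {N N' : ℕ} {δ : ℝ} {D D' : Set ℝ} (h : Cov N δ D) (h' : Cov N' δ D') :
    Cov (N + N') δ (D ∪ D') := by
  obtain ⟨Y, a, b⟩ := h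
  obtain ⟨Y', a', b'⟩ := h'
  refine ⟨Y ∪ Y', (Finset.card_union_le _ _).trans (add_le_add a a'), fun x hx => ?_⟩
  rcases hx with hx | hx
  · exact (b x hx).imp fun y hy => ⟨Finset.mem_union_left _ hy.1, hy.2⟩
  · exact (b' x hx).imp fun y hy => ⟨Finset.mem_union_right _ hy.1, hy.2⟩

theorem cov_range {N : ℕ} {δ : ℝ} {D : ℕ → Set ℝ} (h : ∀ j, Cov N δ (D j)) (n : ℕ) :
    Cov (n * N) δ {x | ∃ j < n, x ∈ D j} := by
  induction n with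
  | zero => exact ⟨∅, by simp, by simp⟩
  | succ n ih =>
    refine (ih.union (h n)).mono (by rw [add_one_mul]) le_rfl ?_
    rintro x ⟨j, h1, h2⟩
    rcases Nat.lt_succ_iff_lt_or_eq.1 h1 with a | rfl
    exacts [Or.inl ⟨j, a, h2⟩, Or.inr h2]

theorem cov_types {T : Type} (F : Finset T) (S : T → ℝ → Prop) {δ : ℝ} {D : Set ℝ}
    (h1 : ∀ x ∈ D, ∃ t ∈ F, S t x) (h2 : ∀ t x y, S t x → S t y → |x - y| ≤ δ) :
    Cov F.card δ D := by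
  classical
  refine ⟨F.image fun t => Classical.epsilon (S t), Finset.card_image_le, fun x hx => ?_⟩
  obtain ⟨t, a, b⟩ := h1 x hx
  exact ⟨_, Finset.mem_image_of_mem _ a, h2 t _ _ b (Classical.epsilon_spec ⟨x, b⟩)⟩

/-- The points of the lattice of `x` at time `τ`. -/
def vec (τ x : ℝ) (p q : ℤ) : ℝ × ℝ := (τ * (p + q * x), q / τ)

/-- All nonzero points are longer than `s`. -/
def Bd (ν : Seminorm ℝ (ℝ × ℝ)) (s τ x : ℝ) : Prop :=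
  ∀ p q : ℤ, (p, q) ≠ (0, 0) → s < ν (vec τ x p q)

/-- A nearly hexagonal basis without nearly horizontal vectors. -/
def NB (ν : Seminorm ℝ (ℝ × ℝ)) (r κ η τ x : ℝ) : Prop :=
  ∃ m₁ n₁ m₂ n₂ : ℤ, m₁ * n₂ - n₁ * m₂ = 1 ∧ df ν r (vec τ x m₁ n₁) (vec τ x m₂ n₂) ≤ κ ∧
    η ≤ |(vec τ x m₁ n₁).2| ∧ η ≤ |(vec τ x m₂ n₂).2| ∧ η ≤ |(vec τ x m₂ n₂ - vec τ x m₁ n₁).2|

theorem cmb_vec (τ x : ℝ) (p q : ℤ) : cmb (τ, 0) (τ * x, 1 / τ) p q = vec τ x p q := by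
  ext <;> simp [cmb, vec] <;> ring

theorem det_base {τ : ℝ} (h : τ ≠ 0) (x : ℝ) : det (τ, 0) (τ * x, 1 / τ) = 1 := by
  simp [det, h]

theorem vec_sub (τ x : ℝ) (p q p' q' : ℤ) :
    vec τ x p q - vec τ x p' q' = vec τ x (p - p') (q - q') := by
  ext <;> simp [vec] <;> ring

theorem hm_vec {τ : ℝ} (h : τ ≠ 0) (τ' x x' : ℝ) (p q : ℤ) :
    hm (τ' / τ) (τ / τ') ((x' - x) * τ ^ 2) (vec τ x p q) = vec τ' x' p q := by
  ext <;> simp only [hm, vec] <;> field_simp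
  ring

theorem Crit.nrm (h : Crit ν r c C) (hR : r + 1 ≤ c * R) {v : ℝ × ℝ} (hv : ν v ≤ r + 1) :
    ‖v‖ ≤ R := le_of_mul_le_mul_left (by linarith [h.lo v]) h.hc

theorem Crit.covB (h : Crit ν r c C) (hR : 1 ≤ R) (hR' : r + 1 ≤ c * R) {Θ : ℝ} (hΘ : 1 ≤ Θ) :
    ∃ N : ℕ, ∀ δ η, 0 < δ → 0 < η → ∃ κ, 0 < κ ∧ ∀ τ₀ x₀, 0 < τ₀ → Cov N (δ / τ₀ ^ 2)
      {x | |x - x₀| ≤ 2 / τ₀ ^ 2 ∧ ∃ τ, τ₀ ≤ τ ∧ τ ≤ Θ * τ₀ ∧ Bd ν (r / 2) τ x ∧
        NB ν r κ η τ x} := by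
  have hr := h.hr
  have hC := h.hC
  obtain ⟨ρ, ρ0, ρ1, ρ2⟩ : ∃ ρ : ℝ, 0 < ρ ∧ ρ ≤ 1 / (12 * R ^ 2) ∧ ρ ≤ r / 2 / (C * (4 * R)) :=
    ⟨min _ _, by positivity, min_le_left _ _, min_le_right _ _⟩
  have ρ3 : ρ ≤ 1 := ρ1.trans ((div_le_one (by positivity)).2 (by nlinarith))
  rw [le_div_iff₀ (by positivity)] at ρ2
  obtain ⟨F, -, hF, hc⟩ := finite_cover_balls_of_compact
    (isCompact_closedBall (0 : (ℝ × ℝ) × (ℝ × ℝ) × ℝ × ℝ) (R + Θ + 2))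
    (show 0 < ρ / Θ ^ 2 / 2 by positivity)
  refine ⟨hF.toFinset.card, fun δ η hδ hη => ?_⟩
  obtain ⟨κ, κ0, H⟩ := h.sep hR hδ hη
  refine ⟨min κ 1, by positivity, fun τ₀ x₀ t0 => cov_types _ (fun t x => ∃ τ, τ₀ ≤ τ ∧
    τ ≤ Θ * τ₀ ∧ Bd ν (r / 2) τ x ∧ ∃ m₁ n₁ m₂ n₂ : ℤ, m₁ * n₂ - n₁ * m₂ = 1 ∧
      df ν r (vec τ x m₁ n₁) (vec τ x m₂ n₂) ≤ min κ 1 ∧ η ≤ |(vec τ x m₁ n₁).2| ∧
      η ≤ |(vec τ x m₂ n₂).2| ∧ η ≤ |(vec τ x m₂ n₂ - vec τ x m₁ n₁).2| ∧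
      dist (vec τ x m₁ n₁, vec τ x m₂ n₂, τ / τ₀, (x - x₀) * τ₀ ^ 2) t < ρ / Θ ^ 2 / 2) ?_ ?_⟩
  · rintro x ⟨a0, τ, a1, a2, a3, m₁, n₁, m₂, n₂, u, a4, a5, a6, a7⟩
    obtain ⟨b1, b2, -⟩ := df_le (a4.trans (min_le_right _ _))
    have c1 := h.nrm hR' (v := vec τ x m₁ n₁) (by linarith [(abs_le.1 b1).2])
    have c2 := h.nrm hR' (v := vec τ x m₂ n₂) (by linarith [(abs_le.1 b2).2])
    have c3 : |τ / τ₀| ≤ Θ := by
      rwa [abs_of_pos (div_pos (by linarith) t0), div_le_iff₀ t0]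
    have c4 : |(x - x₀) * τ₀ ^ 2| ≤ 2 := by
      rwa [abs_mul, abs_of_pos (pow_pos t0 2), ← le_div_iff₀ (pow_pos t0 2)]
    obtain ⟨t, b3, b4⟩ := Set.mem_iUnion₂.1 (hc (a := (vec τ x m₁ n₁, vec τ x m₂ n₂, τ / τ₀,
      (x - x₀) * τ₀ ^ 2)) (by
        simp only [mem_closedBall_zero_iff, Prod.norm_mk, max_le_iff, Real.norm_eq_abs]
        exact ⟨by linarith, by linarith, by linarith, by linarith⟩))
    exact ⟨t, hF.mem_toFinset.2 b3, τ, a1, a2, a3, m₁, n₁, m₂, n₂, u, a4, a5, a6, a7, b4⟩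
  rintro t x x' ⟨τ, a1, a2, -, m₁, n₁, m₂, n₂, u, a4, a5, a6, a7, a8⟩
    ⟨τ', b1, -, b3, m₁', n₁', m₂', n₂', -, b4, -, -, -, b8⟩
  have d0 := (dist_triangle_right _ _ t).trans_lt ((add_lt_add b8 a8).trans_eq (add_halves _))
  simp only [Prod.dist_eq, max_lt_iff, Real.dist_eq] at d0
  obtain ⟨d1, d2, d3, d4⟩ := d0
  have τ0 : 0 < τ := by linarith
  have τ1 : 0 < τ' := by linarith
  have e0 : ρ / Θ ^ 2 ≤ ρ := div_le_self ρ0.le (by nlinarith)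
  rw [← sub_div, abs_div, abs_of_pos t0, div_lt_iff₀ t0] at d3
  have s1 : |τ' / τ - 1| ≤ ρ := by
    rw [div_sub_one τ0.ne', abs_div, abs_of_pos τ0, div_le_iff₀ τ0]
    exact d3.le.trans (by gcongr)
  have s2 : |τ / τ' - 1| ≤ ρ := by
    rw [div_sub_one τ1.ne', abs_div, abs_of_pos τ1, div_le_iff₀ τ1, abs_sub_comm]
    exact d3.le.trans (by gcongr)
  rw [← sub_mul, sub_sub_sub_cancel_right, abs_mul, abs_of_pos (pow_pos t0 2),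
    lt_div_iff₀ (by positivity)] at d4
  have s3 : |(x' - x) * τ ^ 2| ≤ ρ := by
    rw [abs_mul, abs_of_pos (pow_pos τ0 2)]
    refine le_trans ?_ d4.le
    rw [mul_assoc, ← mul_pow, mul_comm τ₀]
    gcongr
  obtain ⟨c1, c2, -⟩ := df_le (a4.trans (min_le_right _ _))
  have c3 := h.nrm hR' (v := vec τ x m₁ n₁) (by linarith [(abs_le.1 c1).2])
  have c4 := h.nrm hR' (v := vec τ x m₂ n₂) (by linarith [(abs_le.1 c2).2])
  have same : ∀ m n m' n' : ℤ, ‖vec τ x m n‖ ≤ R → dist (vec τ' x' m' n') (vec τ x m n) < ρ / Θ ^ 2 →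
      vec τ' x' m' n' = vec τ' x' m n := fun m n m' n' g1 g2 => by
    have g3 := hm_sub s1 s2 s3 ρ3 g1
    rw [hm_vec τ0.ne', ← dist_eq_norm] at g3
    have g4 := (dist_triangle_right _ _ _).trans (add_le_add g2.le g3)
    rw [dist_eq_norm, vec_sub] at g4
    by_contra z
    have g5 := (b3 (m' - m) (n' - n) fun y => z (by
      obtain ⟨y1, y2⟩ := Prod.mk.inj y
      rw [sub_eq_zero.1 y1, sub_eq_zero.1 y2])).trans_le (h.up _)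
    have g6 := mul_le_mul_of_nonneg_left g4 hC.le
    nlinarith [mul_pos hC ρ0, mul_le_mul_of_nonneg_left e0 hC.le]
  rw [same _ _ m₁' n₁' c3 (by simpa only [Prod.dist_eq, max_lt_iff, Real.dist_eq] using d1),
    same _ _ m₂' n₂' c4 (by simpa only [Prod.dist_eq, max_lt_iff, Real.dist_eq] using d2),
    ← hm_vec τ0.ne' τ' x x' m₁, ← hm_vec τ0.ne' τ' x x' m₂] at b4
  have := H _ _ _ _ _ (by rw [← cmb_vec, ← cmb_vec, det_cmb, u, det_base τ0.ne']; simp) c3 c4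
    (by field_simp) (s1.trans ρ1) (s2.trans ρ1) (s3.trans ρ1) a5 a6 a7
    (a4.trans (min_le_left _ _)) (b4.trans (min_le_left _ _))
  rw [abs_mul, abs_of_pos (pow_pos τ0 2), abs_sub_comm] at this
  rw [le_div_iff₀ (by positivity)]
  exact le_trans (by gcongr) this.le

/-- No nonzero point in a thin box. -/
def Hl (R η τ x : ℝ) : Prop :=
  ∀ p q : ℤ, (p, q) ≠ (0, 0) → η ≤ |(vec τ x p q).2| ∨ R < |(vec τ x p q).1|

theorem Crit.covA (h : Crit ν r c C) (hR : 1 ≤ R) (hR' : r + 1 ≤ c * R) {Θ : ℝ} (hΘ : 1 ≤ Θ) :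
    ∃ N : ℕ, ∀ δ η, 0 < δ → 0 < η → ∃ ε, 0 < ε ∧ ∀ τ₀ x₀, 0 < τ₀ → Cov N (δ / τ₀ ^ 2)
      {x | |x - x₀| ≤ 2 / τ₀ ^ 2 ∧ ∃ τ, τ₀ ≤ τ ∧ τ ≤ Θ * τ₀ ∧ Bd ν (r - ε) τ x ∧ Hl R η τ x} := by
  obtain ⟨N, hN⟩ := h.covB hR hR' hΘ
  refine ⟨N, fun δ η hδ hη => ?_⟩
  obtain ⟨κ, κ0, H⟩ := hN δ η hδ hη
  obtain ⟨ε, ε0, H'⟩ := h.near (lt_min κ0 one_pos)
  have hr := h.hr
  refine ⟨min ε (r / 2), by positivity, fun τ₀ x₀ t0 => (H τ₀ x₀ t0).mono le_rfl le_rfl ?_⟩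
  rintro x ⟨a0, τ, a1, a2, a3, a4⟩
  have m1 := min_le_left ε (r / 2)
  have m2 := min_le_right ε (r / 2)
  obtain ⟨m₁, n₁, m₂, n₂, u, b⟩ := H' _ _ (det_base (show τ ≠ 0 by linarith) x) fun m n h0 => by
    rw [cmb_vec]
    linarith [a3 m n h0]
  rw [cmb_vec, cmb_vec] at b
  obtain ⟨b1, b2, b3⟩ := df_le (b.trans (min_le_right _ _))
  have k : ∀ p q : ℤ, (p, q) ≠ (0, 0) → |ν (vec τ x p q) - r| ≤ 1 → η ≤ |(vec τ x p q).2| :=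
    fun p q h0 g => (a4 p q h0).resolve_right (not_lt.2 ((norm_fst_le (vec τ x p q)).trans
      (h.nrm hR' (by linarith [(abs_le.1 g).2]))))
  rw [vec_sub] at b3
  exact ⟨a0, τ, a1, a2, fun p q h0 => by linarith [a3 p q h0], m₁, n₁, m₂, n₂, u,
    b.trans (min_le_left _ _), k _ _ (by simpa using ne_uni u (a := 1) (b := 0) (by simp)) b1,
    k _ _ (by simpa using ne_uni u (a := 0) (b := 1) (by simp)) b2, by
      rw [vec_sub]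
      exact k _ _ (by
        simpa [neg_add_eq_sub] using ne_uni u (a := -1) (b := 1) (by simp)) b3⟩

end Pool.Agent.P.MP_613544_nt
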