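import Mathlib

/-!
Definitions for Dirichlet improvability with respect to a norm on the plane, and the two
statements on Hausdorff dimension which do not involve the norm.
-/

set_option autoImplicit false

noncomputable section

namespace Pool.Agent.P.MP_613544_nt

/-- The critical radius: the least `r` such that the closed ball of radius `r` contains a nonzero
point of every unimodular lattice `ℤ e + ℤ f`. -/
def critRad (ν : Seminorm ℝ (ℝ × ℝ)) : ℝ :=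
  sInf {r : ℝ | ∀ e f : ℝ × ℝ, e.1 * f.2 - e.2 * f.1 = 1 →
    ∃ m n : ℤ, (m, n) ≠ (0, 0) ∧ ν ((m : ℝ) • e + (n : ℝ) • f) ≤ r}

/-- Dirichlet improvable numbers for the norm `ν`. -/
def DI (ν : Seminorm ℝ (ℝ × ℝ)) : Set ℝ :=
  {x | ∃ c : ℝ, 0 < c ∧ c < 1 ∧ ∃ T : ℝ, ∀ t : ℝ, T ≤ t →
    ∃ p q : ℤ, (p, q) ≠ (0, 0) ∧ ν (t * (p + q * x) / c, q / t) ≤ critRad ν}

/-- Badly approximable numbers. -/
def BA : Set ℝ := {x | ∃ κ : ℝ, 0 < κ ∧ ∀ p q : ℤ, q ≠ 0 → κ ≤ |q * x - p| * |(q : ℝ)|}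

/-- Numbers approximable to order `τ`. -/
def WA (τ : ℝ) : Set ℝ :=
  {x | ∀ Q : ℤ, ∃ p q : ℤ, Q < q ∧ |x - p / q| < (q : ℝ) ^ (-τ)}

/-- The unit ball is a parallelogram with a pair of sides parallel to a coordinate axis. -/
def AxisPar (ν : Seminorm ℝ (ℝ × ℝ)) : Prop :=
  ∃ a b c : ℝ, (∀ v : ℝ × ℝ, ν v = max |a * v.2| |b * v.1 + c * v.2|) ∨
    ∀ v : ℝ × ℝ, ν v = max |a * v.1| |b * v.2 + c * v.1|

/-- The time at level `k`. -/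
def tm (T : ℝ) (b k : ℕ) : ℝ := T * (b : ℝ) ^ k

/-- The radius of the cells of level `k`. -/
def rd (T : ℝ) (b k : ℕ) : ℝ := 1 / tm T b k ^ 2

/-- A Cantor scheme with free steps and excursions towards rationals. -/
def S_Dim : Prop :=
  ∀ (b M C : ℕ) (T a τ x₀ : ℝ) (S : ℕ → ℝ → Prop), 2 ≤ b → 2 ≤ M → M + 2 ≤ b ^ 2 → 1 ≤ T →
    0 < a → 2 < τ → S 0 x₀ →
    (∀ k x, S k x → ∃ c : Fin M → ℝ, (∀ i j, i ≠ j → 2 * rd T b (k + 1) ≤ |c i - c j|) ∧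
      ∀ i, |c i - x| + 2 * rd T b (k + 1) ≤ rd T b k ∧ S (k + 1) (c i)) →
    (∀ k x, S k x → ∃ p q : ℤ, tm T b k ≤ q ∧ (q : ℝ) ≤ tm T b (k + C) ∧
      |(p : ℝ) / q - x| + 2 * rd T b (k + 1) ≤ rd T b k ∧
      ∀ (k' : ℕ) (y : ℝ), k + 2 * C ≤ k' → a / tm T b k' ≤ q * y - p →
        q * y - p ≤ 2 * a / tm T b k' →
        ∃ x', |x' - y| + rd T b k' ≤ rd T b (k' - C) ∧ S k' x') →
    ENNReal.ofReal (2 / τ * (Real.log M / Real.log ((b : ℝ) ^ 2))) ≤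
      dimH ({z | ∀ K, ∃ k x, K ≤ k ∧ S k x ∧ |z - x| ≤ rd T b k} ∩ WA τ)

/-- The covering bound of Jarnik and Besicovitch. -/
def S_Jar : Prop := ∀ τ : ℝ, 2 < τ → dimH (WA τ) ≤ ENNReal.ofReal (2 / τ)

end Pool.Agent.P.MP_613544_nt
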